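import Pool.Agent.MP_39a890_nt.Weights
import Mathlib.Algebra.BigOperators.Fin
import Mathlib.Algebra.BigOperators.Field

-- ======== part 0: formerly Pool.Agent.MP_678834_nt.ro.Comb
section MrgPart0

/-!
# Weak regularity and the counting of complete graphs on four vertices
-/

namespace Pool.Agent.MP_678834_nt.RO

open Finset Function
open Pool.Agent.MP_39a890_nt.Core (sum_update)

set_option linter.unusedSectionVars false

variable {V : Type} [Fintype V] [DecidableEq V]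

/-- all rectangle sums are at most `t` -/
def Cut (F : V → V → ℝ) (t : ℝ) : Prop := ∀ S T : Finset V, |∑ x ∈ S, ∑ y ∈ T, F x y| ≤ t

theorem lin_le (a u : V → ℝ) (hu : ∀ x, |u x| ≤ 1) {t : ℝ}
    (h : ∀ S : Finset V, |∑ x ∈ S, a x| ≤ t) : |∑ x, a x * u x| ≤ 2 * t := by
  have h1 : |∑ x, a x * u x| ≤ ∑ x, |a x| := (abs_sum_le_sum_abs _ _).trans
    (sum_le_sum fun x _ => by
      rw [abs_mul]; exact mul_le_of_le_one_right (abs_nonneg _) (hu x))
  rw [← sum_filter_add_sum_filter_not univ (fun x => 0 ≤ a x) fun x => |a x|] at h1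
  have h2 : ∑ x ∈ univ.filter (fun x => 0 ≤ a x), |a x| = ∑ x ∈ univ.filter (fun x => 0 ≤ a x), a x :=
    sum_congr rfl fun x hx => abs_of_nonneg (mem_filter.1 hx).2
  have h3 : ∑ x ∈ univ.filter (fun x => ¬ 0 ≤ a x), |a x| =
      -∑ x ∈ univ.filter (fun x => ¬ 0 ≤ a x), a x := by
    rw [← sum_neg_distrib]
    exact sum_congr rfl fun x hx => abs_of_neg (not_le.1 (mem_filter.1 hx).2)
  have h4 := abs_le.1 (h (univ.filter fun x => 0 ≤ a x))
  have h5 := abs_le.1 (h (univ.filter fun x => ¬ 0 ≤ a x))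
  linarith [h4.2, h5.1]

theorem Cut.bil {F : V → V → ℝ} {t : ℝ} (h : Cut F t) (u w : V → ℝ) (hu : ∀ x, |u x| ≤ 1)
    (hw : ∀ y, |w y| ≤ 1) : |∑ x, ∑ y, F x y * (u x * w y)| ≤ 4 * t := by
  have h1 := lin_le (fun x => ∑ y, F x y * w y) u hu (t := 2 * t) fun S => by
    rw [sum_comm]
    simp_rw [← sum_mul]
    exact lin_le _ w hw fun T => by rw [sum_comm]; exact h S T
  simp_rw [sum_mul] at h1
  refine le_trans (le_of_eq ?_) (h1.trans (le_of_eq (by ring)))
  congr 1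
  exact sum_congr rfl fun x _ => sum_congr rfl fun y _ => by ring

/-- the box sum -/
def Qb (F : V → V → ℝ) : ℝ := ∑ a, ∑ c, ∑ b, ∑ d, F b d * (F b c * F a d) * F a c

theorem Cut.box {F : V → V → ℝ} {t : ℝ} (h : Cut F t) (hF : ∀ x y, |F x y| ≤ 1) :
    Qb F ≤ 4 * t * (Fintype.card V : ℝ) ^ 2 := by
  have h1 : ∀ a c, ∑ b, ∑ d, F b d * (F b c * F a d) * F a c ≤ 4 * t := fun a c => by
    simp_rw [← sum_mul]
    refine (le_abs_self _).trans ?_
    rw [abs_mul]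
    exact (mul_le_of_le_one_right (abs_nonneg _) (hF a c)).trans
      (h.bil _ _ (fun b => hF b c) fun d => hF a d)
  refine (sum_le_sum fun a _ => sum_le_sum fun c _ => h1 a c).trans (le_of_eq ?_)
  simp only [sum_const, card_univ, nsmul_eq_mul]
  ring

/-- `G` is constant on the cells of `π` -/
def Ms (π : V → ℕ) (G : V → V → ℝ) : Prop :=
  ∀ x x' y y', π x = π x' → π y = π y' → G x y = G x' y'

theorem clamp_le {b z : ℝ} (h0 : 0 ≤ b) (h1 : b ≤ 1) : (b - max 0 (min 1 z)) ^ 2 ≤ (b - z) ^ 2 := by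
  rcases le_total z 0 with h | h
  · rw [min_eq_right (by linarith), max_eq_left h]; nlinarith
  rcases le_total 1 z with h' | h'
  · rw [min_eq_left h', max_eq_right zero_le_one]; nlinarith
  · rw [min_eq_right h', max_eq_right h]

/-- Weak regularity. -/
theorem wr [Nonempty V] {ι : Type} [Fintype ι] [DecidableEq ι] (B : ι → V → V → ℝ)
    (hB : ∀ e x y, 0 ≤ B e x y ∧ B e x y ≤ 1) {ε : ℝ} (hε : 0 < ε) (k : ℕ)
    (hk : (Fintype.card ι : ℝ) < k * ε ^ 2) :
    ∃ (π : V → ℕ) (G : ι → V → V → ℝ), (∀ x, π x < 4 ^ k) ∧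
      (∀ e x y, 0 ≤ G e x y ∧ G e x y ≤ 1) ∧ (∀ e, Ms π (G e)) ∧
      ∀ e, Cut (fun x y => B e x y - G e x y) (ε * (Fintype.card V : ℝ) ^ 2) := by
  set n : ℝ := ((Fintype.card V : ℕ) : ℝ) with hn
  have n0 : 0 < n := by rw [hn]; exact_mod_cast Fintype.card_pos
  have key : ∀ j : ℕ, ∃ (π : V → ℕ) (G : ι → V → V → ℝ), (∀ x, π x < 4 ^ j) ∧
      (∀ e x y, 0 ≤ G e x y ∧ G e x y ≤ 1) ∧ (∀ e, Ms π (G e)) ∧
      ((∀ e, Cut (fun x y => B e x y - G e x y) (ε * n ^ 2)) ∨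
        ∑ e, ∑ x, ∑ y, (B e x y - G e x y) ^ 2 ≤ (Fintype.card ι - j * ε ^ 2) * n ^ 2) := by
    intro j
    induction j with
    | zero =>
      refine ⟨fun _ => 0, fun _ _ _ => 0, fun _ => by simp, fun _ _ _ => by simp,
        fun _ _ _ _ _ _ _ => rfl, Or.inr ?_⟩
      refine (sum_le_sum fun e _ => sum_le_sum fun x _ => sum_le_sum (g := fun _ => (1 : ℝ))
        fun y _ => by nlinarith [hB e x y]).trans (le_of_eq ?_)
      simp only [sum_const, card_univ, nsmul_eq_mul, ← hn]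
      push_cast; ring
    | succ j ih =>
      obtain ⟨π, G, h1, h2, h3, h4⟩ := ih
      by_cases hc : ∀ e, Cut (fun x y => B e x y - G e x y) (ε * n ^ 2)
      · exact ⟨π, G, fun x => (h1 x).trans (by rw [pow_succ]; have := h1 x; omega), h2, h3, Or.inl hc⟩
      have h5 := h4.resolve_left hc
      simp only [Cut, not_forall, not_le] at hc
      obtain ⟨e₀, S, T, hc⟩ := hc
      set D := ∑ x ∈ S, ∑ y ∈ T, (B e₀ x y - G e₀ x y) with hD
      set s : ι → V → V → ℝ := fun e x y => if e = e₀ ∧ x ∈ S ∧ y ∈ T then D / n ^ 2 else 0 with hs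
      refine ⟨fun x => 4 * π x + (if x ∈ S then 2 else 0) + if x ∈ T then 1 else 0,
        fun e x y => max 0 (min 1 (G e x y + s e x y)), fun x => ?_,
        fun e x y => ⟨le_max_left _ _, max_le zero_le_one (min_le_left _ _)⟩,
        fun e x x' y y' a1 a2 => ?_, Or.inr ?_⟩
      · have := h1 x
        rw [pow_succ]
        beta_reduce
        split_ifs <;> omega
      · have b1 : π x = π x' ∧ (x ∈ S ↔ x' ∈ S) := by
          beta_reduce at a1
          split_ifs at a1 <;> simp only [*, iff_self, and_true] <;> omega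
        have b2 : π y = π y' ∧ (y ∈ T ↔ y' ∈ T) := by
          beta_reduce at a2
          split_ifs at a2 <;> simp only [*, iff_self, and_true] <;> omega
        simp only [hs, h3 e x x' y y' b1.1 b2.1, b1.2, b2.2]
      · have c1 : ∑ e, ∑ x, ∑ y, s e x y * (B e x y - G e x y) = D / n ^ 2 * D := by
          simp only [hs, ite_and, ite_mul, zero_mul, sum_ite_irrel, sum_const_zero, sum_ite_eq',
            mem_univ, if_true, sum_ite_mem, univ_inter, ← mul_sum, hD]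
        have c2 : ∑ e, ∑ x, ∑ y, s e x y ^ 2 ≤ (D / n ^ 2) ^ 2 * n ^ 2 := by
          refine (sum_le_sum (g := fun e => ∑ _x : V, ∑ _y : V,
            if e = e₀ then (D / n ^ 2) ^ 2 else 0) fun e _ => sum_le_sum fun x _ =>
              sum_le_sum fun y _ => ?_).trans (le_of_eq ?_)
          · simp only [hs]
            split_ifs with a1 a2 a2
            · exact le_rfl
            · exact absurd a1.1 a2
            · rw [zero_pow two_ne_zero]; positivity
            · simp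
          · simp only [sum_ite_irrel, sum_const_zero, sum_ite_eq', mem_univ, if_true, sum_const,
              card_univ, nsmul_eq_mul, ← hn]
            ring
        have c3 : ∑ e, ∑ x, ∑ y, (B e x y - max 0 (min 1 (G e x y + s e x y))) ^ 2 ≤
            ∑ e, ∑ x, ∑ y, (B e x y - G e x y) ^ 2 -
              2 * ∑ e, ∑ x, ∑ y, s e x y * (B e x y - G e x y) + ∑ e, ∑ x, ∑ y, s e x y ^ 2 := by
          simp only [mul_sum, ← sum_sub_distrib, ← sum_add_distrib]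
          exact sum_le_sum fun e _ => sum_le_sum fun x _ => sum_le_sum fun y _ =>
            (clamp_le (hB e x y).1 (hB e x y).2).trans (le_of_eq (by ring))
        have c4 : (ε * n ^ 2) ^ 2 ≤ D ^ 2 := by
          rw [← sq_abs D]; exact pow_le_pow_left₀ (by positivity) hc.le 2
        have c5 : ε ^ 2 * n ^ 2 ≤ D / n ^ 2 * D := by
          rw [div_mul_eq_mul_div, le_div_iff₀ (by positivity)]; nlinarith
        have c6 : (D / n ^ 2) ^ 2 * n ^ 2 = D / n ^ 2 * D := by field_simp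
        push_cast
        linarith
  obtain ⟨π, G, h1, h2, h3, h4⟩ := key k
  refine ⟨π, G, h1, h2, h3, h4.resolve_right fun h5 => ?_⟩
  have : 0 ≤ ∑ e, ∑ x, ∑ y, (B e x y - G e x y) ^ 2 :=
    sum_nonneg fun _ _ => sum_nonneg fun _ _ => sum_nonneg fun _ _ => sq_nonneg _
  nlinarith [mul_pos (sub_pos.2 hk) (pow_pos n0 2)]

variable {κ : Type} [Fintype κ] [DecidableEq κ]

theorem sum_update₂ (Φ : (κ → V) → ℝ) (i j : κ) :
    ∑ x : κ → V, ∑ a, ∑ b, Φ (update (update x i a) j b) = (Fintype.card V : ℝ) ^ 2 * ∑ x, Φ x := by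
  rw [sum_update (fun x => ∑ b, Φ (update x j b)) i, sum_update Φ j]; ring

theorem sum_one (f : V → ℝ) (i : κ) :
    (Fintype.card V : ℝ) * ∑ x : κ → V, f (x i) =
      (Fintype.card V : ℝ) ^ Fintype.card κ * ∑ a, f a := by
  rw [← sum_update (fun x => f (x i)) i]
  simp

theorem sum_two (f : V → V → ℝ) {i j : κ} (hij : i ≠ j) :
    (Fintype.card V : ℝ) ^ 2 * ∑ x : κ → V, f (x i) (x j) =
      (Fintype.card V : ℝ) ^ Fintype.card κ * ∑ a, ∑ b, f a b := by
  rw [← sum_update₂ (fun x => f (x i) (x j)) i j]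
  simp [update_of_ne hij]

/-- the six edges -/
def Ed : Finset (Fin 4 × Fin 4) := univ.filter fun p => p.1 < p.2

theorem card_Ed : #Ed = 6 := by decide

theorem edge [Nonempty V] {F : V → V → ℝ} {t : ℝ} (h : Cut F t) (H : Fin 4 × Fin 4 → V → V → ℝ)
    (hH : ∀ p x y, |H p x y| ≤ 1) {e : Fin 4 × Fin 4} (he : e ∈ Ed) :
    |∑ x : Fin 4 → V, F (x e.1) (x e.2) * ∏ p ∈ Ed.erase e, H p (x p.1) (x p.2)| ≤
      4 * t * (Fintype.card V : ℝ) ^ 2 := by
  set n : ℝ := ((Fintype.card V : ℕ) : ℝ) with hn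
  have n0 : 0 < n := by rw [hn]; exact_mod_cast Fintype.card_pos
  have hne : e.1 ≠ e.2 := (mem_filter.1 he).2.ne
  have hp : ∀ p ∈ Ed.erase e, p.1 = e.2 ∨ p.2 = e.2 → p.1 ≠ e.1 ∧ p.2 ≠ e.1 := by
    revert e; decide
  have ab : ∀ (s : Finset (Fin 4 × Fin 4)) (x : Fin 4 → V), |∏ p ∈ s, H p (x p.1) (x p.2)| ≤ 1 :=
    fun s x => by
      rw [abs_prod]; exact prod_le_one (fun _ _ => abs_nonneg _) fun p _ => hH p _ _
  refine le_of_mul_le_mul_left ?_ (pow_pos n0 2)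
  rw [← abs_of_pos (pow_pos n0 2), ← abs_mul, ← sum_update₂ _ e.1 e.2, abs_of_pos (pow_pos n0 2)]
  refine (abs_sum_le_sum_abs _ _).trans ((sum_le_card_nsmul _ _ (4 * t) fun x _ => ?_).trans
    (le_of_eq ?_))
  · refine le_trans (le_of_eq ?_) (h.bil
      (fun a => ∏ p ∈ (Ed.erase e).filter (fun p => ¬ (p.1 = e.2 ∨ p.2 = e.2)),
        H p (update x e.1 a p.1) (update x e.1 a p.2))
      (fun b => ∏ p ∈ (Ed.erase e).filter (fun p => p.1 = e.2 ∨ p.2 = e.2),
        H p (update x e.2 b p.1) (update x e.2 b p.2)) (fun a => ab _ _) fun b => ab _ _)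
    congr 1
    refine sum_congr rfl fun a _ => sum_congr rfl fun b _ => ?_
    rw [update_self, update_of_ne hne, update_self, mul_comm (∏ p ∈ filter _ _, _),
      ← prod_filter_mul_prod_filter_not (Ed.erase e) fun p => p.1 = e.2 ∨ p.2 = e.2]
    congr 2
    · refine prod_congr rfl fun p hp' => ?_
      obtain ⟨c1, c2⟩ := hp p (mem_filter.1 hp').1 (mem_filter.1 hp').2
      rw [update_comm hne, update_of_ne c1, update_of_ne c2]
    · refine prod_congr rfl fun p hp' => ?_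
      obtain ⟨c1, c2⟩ := not_or.1 (mem_filter.1 hp').2
      rw [update_of_ne c1, update_of_ne c2]
  · simp only [card_univ, Fintype.card_pi, prod_const, Fintype.card_fin, nsmul_eq_mul]
    push_cast; ring

theorem count4 [Nonempty V] (B G : Fin 4 × Fin 4 → V → V → ℝ) (hB : ∀ p x y, |B p x y| ≤ 1)
    (hG : ∀ p x y, |G p x y| ≤ 1) {t : ℝ} (h : ∀ p, Cut (fun x y => B p x y - G p x y) t) :
    ∑ x : Fin 4 → V, ∏ p ∈ Ed, B p (x p.1) (x p.2) ≤
      ∑ x : Fin 4 → V, ∏ p ∈ Ed, G p (x p.1) (x p.2) + 24 * t * (Fintype.card V : ℝ) ^ 2 := by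
  have key : ∀ s ⊆ Ed, ∑ x : Fin 4 → V, ∏ p ∈ Ed, B p (x p.1) (x p.2) ≤
      ∑ x : Fin 4 → V, ∏ p ∈ Ed, (if p ∈ s then G p else B p) (x p.1) (x p.2) +
        #s * (4 * t * (Fintype.card V : ℝ) ^ 2) := by
    intro s
    induction s using Finset.induction_on with
    | empty => simp
    | insert e s hes ih =>
      intro hs
      have he := hs (mem_insert_self e s)
      have h1 := (abs_le.1 (edge (h e) (fun p => if p ∈ s then G p else B p)
        (fun p x y => by split_ifs <;> simp only [hB, hG]) he)).2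
      have h2 : ∀ x : Fin 4 → V, ∏ p ∈ Ed, (if p ∈ s then G p else B p) (x p.1) (x p.2) =
          ∏ p ∈ Ed, (if p ∈ insert e s then G p else B p) (x p.1) (x p.2) +
          (B e (x e.1) (x e.2) - G e (x e.1) (x e.2)) *
            ∏ p ∈ Ed.erase e, (if p ∈ s then G p else B p) (x p.1) (x p.2) := fun x => by
        have e1 : ∏ p ∈ Ed.erase e, (if p ∈ insert e s then G p else B p) (x p.1) (x p.2) =
            ∏ p ∈ Ed.erase e, (if p ∈ s then G p else B p) (x p.1) (x p.2) :=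
          prod_congr rfl fun p hp => by simp only [mem_insert, ne_of_mem_erase hp, false_or]
        rw [← mul_prod_erase Ed _ he, ← mul_prod_erase Ed _ he, if_neg hes,
          if_pos (mem_insert_self e s), e1]
        ring
      have h3 := ih ((subset_insert e s).trans hs)
      simp_rw [h2, sum_add_distrib] at h3
      rw [card_insert_of_notMem hes]
      push_cast
      linarith
  have h1 := key Ed Subset.rfl
  have e1 : ∑ x : Fin 4 → V, ∏ p ∈ Ed, (if p ∈ Ed then G p else B p) (x p.1) (x p.2) =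
      ∑ x : Fin 4 → V, ∏ p ∈ Ed, G p (x p.1) (x p.2) :=
    sum_congr rfl fun x _ => prod_congr rfl fun p hp => by rw [if_pos hp]
  rw [card_Ed, e1] at h1
  push_cast at h1
  linarith

/-- the cell of a point -/
def cell (π : V → ℕ) (x : V) : Finset V := univ.filter fun y => π y = π x

theorem card_small {π : V → ℕ} {J : ℕ} (h : ∀ x, π x < J) {s : ℝ} (hs : 0 ≤ s) :
    ∑ x, (if (#(cell π x) : ℝ) < s then (1 : ℝ) else 0) ≤ J * s := by
  rw [← sum_fiberwise_of_maps_to (s := univ) (t := range J) (g := π) fun x _ => mem_range.2 (h x)]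
  refine (sum_le_card_nsmul _ _ s fun a _ => ?_).trans (by simp)
  by_cases ha : (#(univ.filter fun y => π y = a) : ℝ) < s
  · refine (sum_le_card_nsmul _ _ 1 fun x _ => by split_ifs <;> norm_num).trans ?_
    rw [nsmul_eq_mul, mul_one]; exact ha.le
  · refine (sum_eq_zero fun x hx => if_neg ?_).le.trans hs
    rwa [cell, (mem_filter.1 hx).2]

theorem avg_cell {π : V → ℕ} {G : V → V → ℝ} (hG : Ms π G) (M : V → V → ℝ) :
    ∑ a, ∑ b, (∑ x ∈ cell π a, ∑ y ∈ cell π b, M x y) / (#(cell π a) * #(cell π b)) * G a b =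
      ∑ x, ∑ y, M x y * G x y := by
  have e1 : ∀ (f : V → V → ℝ), ∑ a, ∑ x ∈ cell π a, f a x = ∑ x, ∑ a ∈ cell π x, f a x :=
    fun f => sum_comm' fun a x => by simp [cell, eq_comm]
  have e2 : ∀ x, ∑ a ∈ cell π x, (1 : ℝ) / #(cell π a) = 1 := fun x => by
    have h1 : 0 < #(cell π x) := card_pos.2 ⟨x, by simp [cell]⟩
    rw [sum_congr rfl (g := fun _ => (1 : ℝ) / #(cell π x)) fun a ha => by
      rw [cell, (mem_filter.1 ha).2, cell], sum_const, nsmul_eq_mul]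
    field_simp
  have e3 : ∀ a b, (∑ x ∈ cell π a, ∑ y ∈ cell π b, M x y) / (#(cell π a) * #(cell π b)) * G a b =
      ∑ x ∈ cell π a, ∑ y ∈ cell π b, 1 / #(cell π a) * (1 / #(cell π b) * (M x y * G x y)) := by
    intro a b
    simp only [sum_div, sum_mul]
    refine sum_congr rfl fun x hx => sum_congr rfl fun y hy => ?_
    rw [hG x a y b (mem_filter.1 hx).2 (mem_filter.1 hy).2]
    ring
  simp_rw [e3]
  rw [sum_congr rfl fun a _ => sum_comm, e1]
  refine sum_congr rfl fun x _ => ?_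
  simp_rw [← mul_sum]
  rw [← sum_mul, e2, one_mul]
  simp_rw [mul_sum]
  rw [e1]
  exact sum_congr rfl fun y _ => by rw [← sum_mul, e2, one_mul]

/-- The combinatorial step. -/
theorem comb [Nonempty V] {τ c γ ε η : ℝ} (k : ℕ) (B M : Fin 4 × Fin 4 → V → V → ℝ)
    (hB : ∀ p x y, 0 ≤ B p x y ∧ B p x y ≤ 1) (hM : ∀ p x y, 0 ≤ M p x y) (hε : 0 < ε)
    (hk : (16 : ℝ) < k * ε ^ 2) (hc : 0 ≤ c) (hη : 0 ≤ η)
    (h1 : τ * (Fintype.card V : ℝ) ^ 4 ≤ ∑ x : Fin 4 → V, ∏ p ∈ Ed, B p (x p.1) (x p.2))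
    (h2 : ∀ p ∈ Ed, ∀ F : V → V → ℝ, (∀ x y, |F x y| ≤ 1) →
      Qb F ≤ 4 * ε * (Fintype.card V : ℝ) ^ 4 →
      |∑ x, ∑ y, M p x y * F x y| ≤ γ * (Fintype.card V : ℝ) ^ 2)
    (h3 : ∀ A : Fin 4 → Finset V, (∀ i, η * Fintype.card V ≤ #(A i)) → ∃ p ∈ Ed,
      c * (#(A p.1) * #(A p.2)) ≤ ∑ x ∈ A p.1, ∑ y ∈ A p.2, M p x y) :
    (c * (τ - 24 * ε - 4 * 4 ^ k * η) - 6 * γ) * (Fintype.card V : ℝ) ^ 2 ≤
      ∑ p ∈ Ed, ∑ x, ∑ y, M p x y * B p x y := by
  obtain ⟨π, G, g1, g2, g3, g4⟩ := wr B hB hε k (by simpa using hk)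
  set n : ℝ := ((Fintype.card V : ℕ) : ℝ) with hn
  have n0 : 0 < n := by rw [hn]; exact_mod_cast Fintype.card_pos
  have a1 := count4 B G (fun p x y => abs_le.2 ⟨by linarith [hB p x y], (hB p x y).2⟩)
    (fun p x y => abs_le.2 ⟨by linarith [g2 p x y], (g2 p x y).2⟩) g4
  have a2 : ∀ p ∈ Ed, ∑ x, ∑ y, M p x y * G p x y ≤ ∑ x, ∑ y, M p x y * B p x y + γ * n ^ 2 := by
    intro p hp
    have hF : ∀ x y, |B p x y - G p x y| ≤ 1 := fun x y =>
      abs_le.2 ⟨by linarith [hB p x y, g2 p x y], by linarith [hB p x y, g2 p x y]⟩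
    have := (abs_le.1 (h2 p hp _ hF (((g4 p).box hF).trans (le_of_eq (by rw [← hn]; ring))))).1
    simp only [mul_sub, sum_sub_distrib] at this
    linarith
  set m : Fin 4 × Fin 4 → V → V → ℝ := fun p a b =>
    (∑ x ∈ cell π a, ∑ y ∈ cell π b, M p x y) / (#(cell π a) * #(cell π b)) * G p a b with hm
  set sm : V → ℝ := fun a => if (#(cell π a) : ℝ) < η * n then 1 else 0 with hsm
  have m0 : ∀ p a b, 0 ≤ m p a b := fun p a b => mul_nonneg (div_nonneg
    (sum_nonneg fun _ _ => sum_nonneg fun _ _ => hM _ _ _) (by positivity)) (g2 p a b).1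
  have s0 : ∀ a, 0 ≤ sm a := fun a => by simp only [hsm]; split_ifs <;> norm_num
  have a3 : ∀ x : Fin 4 → V, c * ∏ p ∈ Ed, G p (x p.1) (x p.2) ≤
      c * ∑ i, sm (x i) + ∑ p ∈ Ed, m p (x p.1) (x p.2) := fun x => by
    have b0 : ∀ s : Finset (Fin 4 × Fin 4), ∏ p ∈ s, G p (x p.1) (x p.2) ≤ 1 := fun s =>
      prod_le_one (fun p _ => (g2 p _ _).1) fun p _ => (g2 p _ _).2
    by_cases hx : ∀ i, η * n ≤ #(cell π (x i))
    · obtain ⟨p, hp, b1⟩ := h3 (fun i => cell π (x i)) hx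
      have b2 : ∀ a, (0 : ℝ) < #(cell π a) := fun a => by
        exact_mod_cast card_pos.2 ⟨a, by simp [cell]⟩
      rw [← le_div_iff₀ (mul_pos (b2 _) (b2 _))] at b1
      refine le_add_of_nonneg_of_le (mul_nonneg hc (sum_nonneg fun _ _ => s0 _)) (le_trans ?_
        (single_le_sum (f := fun p => m p (x p.1) (x p.2)) (fun p _ => m0 p _ _) hp))
      rw [← mul_prod_erase Ed _ hp]
      exact mul_le_mul b1 (mul_le_of_le_one_right (g2 p _ _).1 (b0 _))
        (mul_nonneg (g2 p _ _).1 (prod_nonneg fun p _ => (g2 p _ _).1)) (hc.trans b1)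
    · simp only [not_forall, not_le] at hx
      obtain ⟨i, hi⟩ := hx
      refine le_add_of_le_of_nonneg (mul_le_mul_of_nonneg_left ((b0 _).trans (le_trans ?_
        (single_le_sum (f := fun i => sm (x i)) (fun _ _ => s0 _) (mem_univ i)))) hc)
        (sum_nonneg fun p _ => m0 p _ _)
      simp only [hsm, if_pos hi, le_refl]
  have a4 : ∀ i : Fin 4, ∑ x : Fin 4 → V, sm (x i) ≤ 4 ^ k * η * n ^ 4 := fun i => by
    refine le_of_mul_le_mul_left ?_ n0
    have := card_small g1 (show 0 ≤ η * n by positivity)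
    rw [hn, sum_one sm i, Fintype.card_fin, ← hn]
    push_cast at this
    refine (mul_le_mul_of_nonneg_left this (by positivity)).trans (le_of_eq (by ring))
  have a5 : ∀ p ∈ Ed, ∑ x : Fin 4 → V, m p (x p.1) (x p.2) = n ^ 2 * ∑ x, ∑ y, M p x y * G p x y := by
    intro p hp
    refine mul_left_cancel₀ (pow_pos n0 2).ne' ?_
    rw [hn, sum_two (m p) (mem_filter.1 hp).2.ne, Fintype.card_fin, avg_cell (g3 p)]
    ring
  have a6 := sum_le_sum fun x (_ : x ∈ univ) => a3 x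
  rw [sum_add_distrib, ← mul_sum, ← mul_sum, sum_comm, sum_comm (t := Ed), sum_congr rfl a5,
    ← mul_sum] at a6
  have a7 := sum_le_sum fun i (_ : i ∈ univ) => a4 i
  have a8 := sum_le_sum a2
  rw [sum_add_distrib, sum_const, card_Ed, nsmul_eq_mul] at a8
  rw [sum_const, card_univ, Fintype.card_fin, nsmul_eq_mul] at a7
  refine le_of_mul_le_mul_left ?_ (pow_pos n0 2)
  have a9 := mul_le_mul_of_nonneg_left a8 (pow_pos n0 2).le
  have a10 := mul_le_mul_of_nonneg_left a7 hc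
  have a11 := mul_le_mul_of_nonneg_left (h1.trans a1) hc
  push_cast at a9 a10
  rw [← hn] at a11
  nlinarith

end Pool.Agent.MP_678834_nt.RO

end MrgPart0

-- ======== part 1: formerly Pool.Agent.MP_678834_nt.ro.Box
section MrgPart1

/-!
# The box norm controls bilinear sums over functions with a pseudorandom majorant
-/

namespace Pool.Agent.MP_678834_nt.RO

open Finset Function
open Pool.Agent.MP_39a890_nt.Core (sum_update sum_prod_eq)

set_option linter.unusedSectionVars false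

variable {V : Type} [Fintype V] [DecidableEq V]

theorem wcs {α : Type} [Fintype α] (f z G : α → ℝ) (h0 : ∀ a, 0 ≤ f a) (h1 : ∀ a, f a ≤ z a) :
    (∑ a, f a * G a) ^ 2 ≤ (∑ a, z a) * ∑ a, z a * G a ^ 2 :=
  sum_sq_le_sum_mul_sum_of_sq_le_mul _ (fun a _ => (h0 a).trans (h1 a))
    (fun a _ => mul_nonneg ((h0 a).trans (h1 a)) (sq_nonneg _)) fun a _ => by
      rw [mul_pow, ← mul_assoc, ← sq]
      exact mul_le_mul_of_nonneg_right (pow_le_pow_left₀ (h0 a) (h1 a) 2) (sq_nonneg _)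

theorem sum4 (Φ : V → V → V → V → ℝ) :
    ∑ v : Fin 4 → V, Φ (v 0) (v 1) (v 2) (v 3) = ∑ a, ∑ b, ∑ c, ∑ d, Φ a b c d := by
  let e : (Fin 4 → V) ≃ V × V × V × V :=
    { toFun := fun v => (v 0, v 1, v 2, v 3)
      invFun := fun x => ![x.1, x.2.1, x.2.2.1, x.2.2.2]
      left_inv := fun v => by ext i; fin_cases i <;> rfl
      right_inv := fun x => rfl }
  refine (Fintype.sum_equiv e _ (fun x => Φ x.1 x.2.1 x.2.2.1 x.2.2.2) fun v => rfl).trans ?_
  simp only [Fintype.sum_prod_type]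

/-- the product of the four values of `F` on a box -/
def F4 (F : V → V → ℝ) (v : Fin 4 → V) : ℝ :=
  F (v 2) (v 3) * (F (v 2) (v 1) * F (v 0) (v 3)) * F (v 0) (v 1)

theorem Qb_eq (F : V → V → ℝ) : Qb F = ∑ v, F4 F v :=
  (sum4 fun a c b d => F b d * (F b c * F a d) * F a c).symm

theorem abs_F4 {F : V → V → ℝ} (hF : ∀ x y, |F x y| ≤ 1) (v : Fin 4 → V) : |F4 F v| ≤ 1 := by
  simp only [F4, abs_mul]
  exact mul_le_one₀ (mul_le_one₀ (hF _ _) (by positivity) (mul_le_one₀ (hF _ _) (by positivity)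
    (hF _ _))) (by positivity) (hF _ _)

/-- rows and columns alternate -/
def alt : Fin 4 → Bool := ![true, false, true, false]

theorem cs2 (f z : Bool → V → ℝ) (h0 : ∀ s a, 0 ≤ f s a) (h1 : ∀ s a, f s a ≤ z s a)
    (F : V → V → ℝ) : 0 ≤ ∑ v, (∏ k, z (alt k) (v k)) * F4 F v ∧
      (∑ a, ∑ c, f true a * f false c * F a c) ^ 4 ≤
      ((∑ a, z true a) * ∑ c, z false c) ^ 2 * ∑ v, (∏ k, z (alt k) (v k)) * F4 F v := by
  have a1 := wcs (f true) (z true) (fun a => ∑ c, f false c * F a c) (h0 _) (h1 _)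
  have a2 := wcs (fun x : V × V => f false x.1 * f false x.2) (fun x => z false x.1 * z false x.2)
    (fun x => ∑ a, z true a * (F a x.1 * F a x.2)) (fun x => mul_nonneg (h0 _ _) (h0 _ _))
    fun x => mul_le_mul (h1 _ _) (h1 _ _) (h0 _ _) ((h0 _ _).trans (h1 _ _))
  have e1 : ∑ a, z true a * (∑ c, f false c * F a c) ^ 2 =
      ∑ x : V × V, f false x.1 * f false x.2 * ∑ a, z true a * (F a x.1 * F a x.2) := by
    simp_rw [sq, sum_mul_sum]
    simp only [mul_sum, Fintype.sum_prod_type]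
    rw [sum_comm]
    refine sum_congr rfl fun c _ => ?_
    rw [sum_comm]
    exact sum_congr rfl fun d _ => sum_congr rfl fun a _ => by ring
  have e2 : ∑ x : V × V, z false x.1 * z false x.2 * (∑ a, z true a * (F a x.1 * F a x.2)) ^ 2 =
      ∑ v, (∏ k, z (alt k) (v k)) * F4 F v := by
    simp only [Fin.prod_univ_four, F4]
    refine Eq.trans ?_ (sum4 fun a c b d => z true a * z false c * z true b * z false d *
      (F b d * (F b c * F a d) * F a c)).symm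
    simp_rw [sq, sum_mul_sum]
    simp only [mul_sum, Fintype.sum_prod_type]
    refine Eq.trans (sum_congr rfl fun c _ => ?_) sum_comm
    rw [sum_comm]
    refine sum_congr rfl fun a _ => ?_
    rw [sum_comm]
    exact sum_congr rfl fun b _ => sum_congr rfl fun d _ => by ring
  have e3 : ∑ x : V × V, z false x.1 * z false x.2 = (∑ c, z false c) ^ 2 := by
    rw [sq, sum_mul_sum, Fintype.sum_prod_type]
  refine ⟨e2 ▸ sum_nonneg fun x _ => mul_nonneg (mul_nonneg ((h0 _ _).trans (h1 _ _))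
    ((h0 _ _).trans (h1 _ _))) (sq_nonneg _), ?_⟩
  rw [← e1, e2, e3] at a2
  simp_rw [mul_assoc, ← mul_sum]
  calc _ = ((∑ a, f true a * ∑ c, f false c * F a c) ^ 2) ^ 2 := by ring
    _ ≤ _ := pow_le_pow_left₀ (sq_nonneg _) a1 2
    _ ≤ _ := by
      rw [mul_pow, mul_pow, mul_assoc]
      exact mul_le_mul_of_nonneg_left a2 (sq_nonneg _)

theorem root4 {I x Q θ m : ℝ} (hx : 0 ≤ x) (hθ : 0 < θ) (hm : 0 < m) (hQ : 0 ≤ Q)
    (h : I ^ 4 ≤ x ^ 2 * Q) : |I| ≤ θ * x / 2 + θ * m / 4 + Q / (4 * θ ^ 3 * m) := by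
  obtain ⟨q, q0, rfl⟩ : ∃ q, 0 ≤ q ∧ Q = q ^ 2 := ⟨√Q, Real.sqrt_nonneg _, (Real.sq_sqrt hQ).symm⟩
  have h1 : |I| ^ 2 ≤ x * q := by
    refine le_of_sq_le_sq ?_ (mul_nonneg hx q0)
    rw [← pow_mul, mul_pow]
    exact (Even.pow_abs (by decide) I).trans_le h
  have h2 : |I| ≤ θ * x / 2 + q / (2 * θ) := by
    refine le_of_sq_le_sq (h1.trans ?_) (by positivity)
    have : θ * x / 2 * (q / (2 * θ)) = x * q / 4 := by field_simp; ring
    nlinarith [sq_nonneg (θ * x / 2 - q / (2 * θ))]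
  have h3 : q / (2 * θ) ≤ θ * m / 4 + q ^ 2 / (4 * θ ^ 3 * m) := by
    rw [div_add_div _ _ (by norm_num) (by positivity), div_le_div_iff₀ (by positivity) (by positivity)]
    have := mul_nonneg hθ.le (sq_nonneg (q - θ ^ 2 * m))
    nlinarith
  linarith

/-- A family of majorants on two parts. -/
structure Maj (N : Finset ℕ) (φ : ℕ → ℝ) (Z : Bool → V → ℕ → ℝ) (lb : Bool → V → ℕ)
    (ρ : ℕ → ℕ → ℝ) (Ξ g e M : ℝ) : Prop where
  φ0 : ∀ n, 0 ≤ φ n
  Ξ0 : 0 < Ξ
  g0 : 0 < g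
  e0 : 0 ≤ e
  e1 : e ≤ 1 / 400
  inj : ∀ s, Injective (lb s)
  Z0 : ∀ s v n, 0 ≤ Z s v n
  Z1 : ∀ s v, ∀ n ∈ N, φ n ≠ 0 → Z s v n ≤ M
  M1 : M ≤ e * (Fintype.card V * g)
  ρ0 : ∀ a b, 0 ≤ ρ a b
  ρ1 : ∀ s s' v', ∑ v, ρ (lb s v) (lb s' v') ≤ e * Fintype.card V
  h0 : ∑ n ∈ N, φ n ≤ (1 + e) * Ξ
  h1 : ∀ s v, (1 - e) * (Ξ * g) ≤ ∑ n ∈ N, φ n * Z s v n
  h4 : ∀ (t : Fin 4 → Bool) (v : Fin 4 → V), Injective (fun k => lb (t k) (v k)) →
    ∑ n ∈ N, φ n * ∏ k, Z (t k) (v k) n ≤ (1 + e) * (Ξ * g ^ 4) *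
      (1 + ∑ p ∈ (univ : Finset (Fin 4)).offDiag, ρ (lb (t p.1) (v p.1)) (lb (t p.2) (v p.2)))

variable {N : Finset ℕ} {φ : ℕ → ℝ} {Z : Bool → V → ℕ → ℝ} {lb : Bool → V → ℕ}
  {ρ : ℕ → ℕ → ℝ} {Ξ g e M : ℝ}

theorem deg [Nonempty V] (z : Fin 4 → V → ℝ) (h0 : ∀ k a, 0 ≤ z k a) (l : Fin 4 → V → ℕ)
    {i j : Fin 4} (hij : i ≠ j) (hl : Injective (l i)) {U : ℝ} (hU : ∀ k, ∑ a, z k a ≤ U) :
    ∑ v : Fin 4 → V, (if l i (v i) = l j (v j) then ∏ k ∈ univ.erase i, z k (v k) else 0) ≤ U ^ 3 := by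
  have n0 : (0 : ℝ) < Fintype.card V := by exact_mod_cast Fintype.card_pos
  refine le_of_mul_le_mul_left ?_ n0
  rw [← sum_update _ i]
  have h1 : ∀ v : Fin 4 → V, ∑ a, (if l i (update v i a i) = l j (update v i a j) then
      ∏ k ∈ univ.erase i, z k (update v i a k) else 0) ≤ ∏ k, (update z i fun _ => 1) k (v k) := by
    intro v
    have e1 : ∀ a, ∏ k ∈ univ.erase i, z k (update v i a k) = ∏ k, (update z i fun _ => 1) k (v k) := by
      intro a
      rw [← mul_prod_erase univ _ (mem_univ i), update_self, one_mul]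
      exact prod_congr rfl fun k hk => by
        rw [update_of_ne (ne_of_mem_erase hk), update_of_ne (ne_of_mem_erase hk)]
    simp_rw [e1, update_self, update_of_ne hij.symm]
    rw [← sum_filter, sum_const, nsmul_eq_mul]
    refine mul_le_of_le_one_left (e1 (v i) ▸ prod_nonneg fun k _ => h0 _ _) ?_
    exact_mod_cast card_le_one.2 fun a ha b hb =>
      hl (Eq.trans (mem_filter.1 ha).2 (Eq.symm (mem_filter.1 hb).2))
  refine (sum_le_sum fun v _ => h1 v).trans ?_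
  rw [sum_prod_eq fun k a => (update z i fun _ => 1) k a, ← mul_prod_erase univ _ (mem_univ i),
    update_self, sum_const, card_univ, nsmul_eq_mul, mul_one]
  refine mul_le_mul_of_nonneg_left ((prod_le_prod (g := fun _ => U) ?_ ?_).trans (by simp)) n0.le
  · intro k hk
    rw [update_of_ne (ne_of_mem_erase hk)]
    exact sum_nonneg fun a _ => h0 k a
  · intro k hk
    rw [update_of_ne (ne_of_mem_erase hk)]
    exact hU k

theorem Maj.pos_part [Nonempty V] (h : Maj N φ Z lb ρ Ξ g e M) (t : Fin 4 → Bool) :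
    ∑ v : Fin 4 → V, max (∑ n ∈ N, φ n * ∏ k, Z (t k) (v k) n - Ξ * g ^ 4) 0 ≤
      14 * e * (Ξ * (Fintype.card V * g) ^ 4) + 12 * (e * (Fintype.card V * g)) *
        ∑ n ∈ N, φ n * (∑ a, Z true a n + ∑ a, Z false a n) ^ 3 := by
  set n : ℝ := ((Fintype.card V : ℕ) : ℝ) with hn
  have n0 : 0 < n := by rw [hn]; exact_mod_cast Fintype.card_pos
  set O := (univ : Finset (Fin 4)).offDiag with hO
  have cO : #O = 12 := by decide
  have c0 : 0 < Ξ * g ^ 4 := mul_pos h.Ξ0 (pow_pos h.g0 4)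
  have e0 := h.e0
  have e1 := h.e1
  have m0 : 0 ≤ e * (n * g) := mul_nonneg e0 (mul_pos n0 h.g0).le
  set r : Fin 4 × Fin 4 → (Fin 4 → V) → ℝ := fun p v =>
    ρ (lb (t p.1) (v p.1)) (lb (t p.2) (v p.2)) with hr
  set d : Fin 4 × Fin 4 → ℕ → (Fin 4 → V) → ℝ := fun p x v =>
    if lb (t p.1) (v p.1) = lb (t p.2) (v p.2) then ∏ k ∈ univ.erase p.1, Z (t k) (v k) x else 0
    with hd
  have d0 : ∀ p x v, 0 ≤ d p x v := fun p x v => by
    simp only [hd]
    split_ifs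
    · exact prod_nonneg fun k _ => h.Z0 _ _ _
    · exact le_rfl
  have a1 : ∀ v : Fin 4 → V, max (∑ x ∈ N, φ x * ∏ k, Z (t k) (v k) x - Ξ * g ^ 4) 0 ≤
      Ξ * g ^ 4 * (e + (1 + e) * ∑ p ∈ O, r p v) +
        e * (n * g) * ∑ p ∈ O, ∑ x ∈ N, φ x * d p x v := fun v => by
    have b1 : 0 ≤ ∑ p ∈ O, r p v := sum_nonneg fun _ _ => h.ρ0 _ _
    have b2 : ∀ p, 0 ≤ ∑ x ∈ N, φ x * d p x v := fun p =>
      sum_nonneg fun x _ => mul_nonneg (h.φ0 x) (d0 p x v)
    have b3 := mul_nonneg m0 (sum_nonneg fun p (_ : p ∈ O) => b2 p)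
    have b4 : 0 ≤ Ξ * g ^ 4 * (e + (1 + e) * ∑ p ∈ O, r p v) := by positivity
    refine max_le ?_ (by linarith)
    by_cases hi : Injective fun k => lb (t k) (v k)
    · have := h.h4 t v hi
      linarith
    · simp only [Injective, not_forall] at hi
      obtain ⟨i, j, b5, b6⟩ := hi
      have b7 : ∑ x ∈ N, φ x * ∏ k, Z (t k) (v k) x ≤ e * (n * g) * ∑ x ∈ N, φ x * d (i, j) x v := by
        rw [mul_sum]
        refine sum_le_sum fun x hx => ?_
        by_cases h0 : φ x = 0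
        · simp [h0]
        simp only [hd, if_pos b5]
        rw [← mul_prod_erase univ _ (mem_univ i), mul_left_comm (e * (n * g))]
        exact mul_le_mul_of_nonneg_left (mul_le_mul_of_nonneg_right ((h.Z1 _ _ x hx h0).trans h.M1)
          (prod_nonneg fun k _ => h.Z0 _ _ _)) (h.φ0 x)
      have b8 := mul_le_mul_of_nonneg_left (single_le_sum (f := fun p => ∑ x ∈ N, φ x * d p x v)
        (fun p _ => b2 p) (show (i, j) ∈ O by simpa [hO] using b6)) m0
      linarith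
  have a2 : ∀ p ∈ O, ∑ v, r p v ≤ e * n ^ 4 := fun p hp => by
    refine le_of_mul_le_mul_left ?_ (pow_pos n0 2)
    rw [hn, sum_two (fun a b => ρ (lb (t p.1) a) (lb (t p.2) b)) (mem_offDiag.1 hp).2.2, sum_comm,
      Fintype.card_fin]
    have := sum_le_card_nsmul univ _ _ fun b _ => h.ρ1 (t p.1) (t p.2) b
    rw [card_univ, nsmul_eq_mul] at this
    refine (mul_le_mul_of_nonneg_left this (by positivity)).trans (le_of_eq (by ring))
  have a3 : ∀ p ∈ O, ∑ v, ∑ x ∈ N, φ x * d p x v ≤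
      ∑ x ∈ N, φ x * (∑ a, Z true a x + ∑ a, Z false a x) ^ 3 := fun p hp => by
    rw [sum_comm]
    refine sum_le_sum fun x _ => ?_
    rw [← mul_sum]
    refine mul_le_mul_of_nonneg_left (deg (fun k a => Z (t k) a x) (fun _ _ => h.Z0 _ _ _)
      (fun k => lb (t k)) (mem_offDiag.1 hp).2.2 (h.inj _) fun k => ?_) (h.φ0 x)
    have := fun s => sum_nonneg fun a (_ : a ∈ univ) => h.Z0 s a x
    cases t k <;> linarith [this true, this false]
  refine (sum_le_sum fun v _ => a1 v).trans ?_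
  rw [sum_add_distrib, ← mul_sum, ← mul_sum, sum_add_distrib, ← mul_sum, sum_comm,
    sum_comm (t := O), sum_const, card_univ, nsmul_eq_mul]
  have a4 := sum_le_card_nsmul _ _ _ a2
  have a5 := sum_le_card_nsmul _ _ _ a3
  rw [cO, nsmul_eq_mul] at a4 a5
  have a6 : (Fintype.card (Fin 4 → V) : ℝ) = n ^ 4 := by simp [hn]
  have a7 := mul_le_mul_of_nonneg_left a4 (show 0 ≤ 1 + e by linarith)
  have a8 := mul_le_mul_of_nonneg_left a5 m0
  have a9 : (1 + e) * (12 * (e * n ^ 4)) ≤ 13 * e * n ^ 4 := by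
    have := mul_nonneg e0 (pow_pos n0 4).le
    nlinarith
  push_cast at a7 a8
  have a10 := mul_le_mul_of_nonneg_left (a7.trans a9) c0.le
  rw [a6]
  nlinarith

theorem Maj.box [Nonempty V] (h : Maj N φ Z lb ρ Ξ g e M) (f : Bool → V → ℕ → ℝ)
    (f0 : ∀ s a n, 0 ≤ f s a n) (f1 : ∀ s a, ∀ n ∈ N, φ n ≠ 0 → f s a n ≤ Z s a n) {θ : ℝ}
    (hθ : 0 < θ) (he : 4000 * e ≤ θ ^ 4) {F : V → V → ℝ} (hF : ∀ x y, |F x y| ≤ 1)
    (hQ : Qb F ≤ θ ^ 4 / 2 * (Fintype.card V : ℝ) ^ 4) :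
    |∑ a, ∑ c, (∑ n ∈ N, φ n * (f true a n * f false c n)) * F a c| ≤
      2 * θ * (Ξ * g ^ 2) * (Fintype.card V : ℝ) ^ 2 := by
  have pp := h.pos_part
  have h1 := h.h1
  set n : ℝ := ((Fintype.card V : ℕ) : ℝ) with hn
  have n0 : 0 < n := by rw [hn]; exact_mod_cast Fintype.card_pos
  set m := n * g with hm
  have m0 : 0 < m := mul_pos n0 h.g0
  have e0 := h.e0
  have e1 := h.e1
  have Ξ0 := h.Ξ0
  set S : Bool → ℕ → ℝ := fun s x => ∑ a, Z s a x with hS
  have S0 : ∀ s x, 0 ≤ S s x := fun s x => sum_nonneg fun a _ => h.Z0 s a x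
  set c : (Fin 4 → Bool) → (Fin 4 → V) → ℝ := fun t v => ∑ x ∈ N, φ x * ∏ k, Z (t k) (v k) x
    with hc
  have cV : (Fintype.card (Fin 4 → V) : ℝ) = n ^ 4 := by simp [hn]
  have a1 : ∀ t, ∑ v, c t v = ∑ x ∈ N, φ x * ∏ k, S (t k) x := fun t => by
    rw [sum_comm]
    exact sum_congr rfl fun x _ => by rw [← mul_sum, sum_prod_eq fun k a => Z (t k) a x]
  have a0 : ∀ t, ∑ v, (c t v - Ξ * g ^ 4) = ∑ x ∈ N, φ x * ∏ k, S (t k) x - Ξ * m ^ 4 := fun t => by
    rw [sum_sub_distrib, a1, sum_const, card_univ, nsmul_eq_mul, cV, hm]; ring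
  set A : Bool → ℝ := fun s => ∑ x ∈ N, φ x * S s x ^ 4 with hA
  set D := ∑ x ∈ N, φ x * (S true x + S false x) ^ 3 with hD
  have a2 : m * D ≤ 8 * (A true + A false) + m ^ 4 * ((1 + e) * Ξ) := by
    refine le_trans ?_ (add_le_add_right (mul_le_mul_of_nonneg_left h.h0 (by positivity)) _)
    simp only [hD, hA, mul_sum, ← sum_add_distrib]
    refine sum_le_sum fun x _ => ?_
    have b1 : m * (S true x + S false x) ^ 3 ≤ (S true x + S false x) ^ 4 + m ^ 4 := by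
      have u0 := add_nonneg (S0 true x) (S0 false x)
      generalize S true x + S false x = U at u0
      rcases le_total U m with b | b
      · have := mul_le_mul_of_nonneg_left (pow_le_pow_left₀ u0 b 3) m0.le
        nlinarith [pow_nonneg u0 4]
      · have := mul_le_mul_of_nonneg_right b (pow_nonneg u0 3)
        nlinarith [pow_nonneg m0.le 4]
    have b2 : (S true x + S false x) ^ 4 ≤ 8 * (S true x ^ 4 + S false x ^ 4) := by
      simpa using (add_pow_le (S0 true x) (S0 false x) 4).trans (le_of_eq (by norm_num))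
    nlinarith [mul_le_mul_of_nonneg_left (b1.trans (add_le_add_left b2 _)) (h.φ0 x)]
  have a3 : ∀ s, A s ≤ Ξ * m ^ 4 + (14 * e * (Ξ * m ^ 4) + 12 * (e * m) * D) := fun s => by
    have b1 := (sum_le_sum fun v _ => le_max_left _ _).trans (pp fun _ => s)
    have b2 := a0 fun _ => s
    simp only [prod_const, card_univ, Fintype.card_fin] at b2
    linarith
  have X0 : 0 < Ξ * m ^ 4 := by positivity
  have a4 : 12 * (e * m) * D ≤ 500 * e * (Ξ * m ^ 4) := by
    have b1 := mul_le_mul_of_nonneg_left a2 (show 0 ≤ 12 * e by linarith)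
    have b2 := mul_le_mul_of_nonneg_left e1 X0.le
    have b3 := mul_le_mul_of_nonneg_left e1 (mul_nonneg e0 X0.le)
    have A0 : 0 ≤ A true + A false := add_nonneg
      (sum_nonneg fun x _ => mul_nonneg (h.φ0 x) (by positivity))
      (sum_nonneg fun x _ => mul_nonneg (h.φ0 x) (by positivity))
    have b4 := mul_le_mul_of_nonneg_left e1 A0
    have b5 : A true + A false ≤ 5 * (Ξ * m ^ 4) := by nlinarith [a3 true, a3 false]
    nlinarith [mul_le_mul_of_nonneg_left b5 e0]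
  have a5 : ∀ s, (1 - e) * (Ξ * m) ≤ ∑ x ∈ N, φ x * S s x := fun s => by
    have := card_nsmul_le_sum univ _ _ fun a _ => h1 s a
    rw [card_univ, nsmul_eq_mul, sum_comm] at this
    simp only [hS, mul_sum]
    exact le_trans (le_of_eq (by rw [hm]; ring)) this
  have a6 : (1 - 528 * e) * (Ξ * m ^ 4) ≤ ∑ x ∈ N, φ x * ∏ k, S (alt k) x := by
    have b1 : 4 * m ^ 3 * (∑ x ∈ N, φ x * S true x + ∑ x ∈ N, φ x * S false x) -
        6 * m ^ 4 * ∑ x ∈ N, φ x - (A true + A false) / 2 ≤ ∑ x ∈ N, φ x * ∏ k, S (alt k) x := by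
      simp only [hA, mul_sum, ← sum_add_distrib, sum_div, ← sum_sub_distrib]
      refine sum_le_sum fun x _ => ?_
      have : 4 * m ^ 3 * (S true x + S false x) - 6 * m ^ 4 - (S true x ^ 4 + S false x ^ 4) / 2 ≤
          ∏ k, S (alt k) x := by
        rw [Fin.prod_univ_four]
        change _ ≤ S true x * S false x * S true x * S false x
        generalize S true x = u, S false x = w
        nlinarith [sq_nonneg (u * w - m ^ 2), sq_nonneg (u ^ 2 - m ^ 2), sq_nonneg (w ^ 2 - m ^ 2),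
          sq_nonneg (m * (u + w - 2 * m))]
      nlinarith [mul_le_mul_of_nonneg_left this (h.φ0 x)]
    have b2 := mul_le_mul_of_nonneg_left (add_le_add (a5 true) (a5 false))
      (show 0 ≤ 4 * m ^ 3 by positivity)
    have b3 := mul_le_mul_of_nonneg_left h.h0 (show 0 ≤ 6 * m ^ 4 by positivity)
    nlinarith [a3 true, a3 false]
  have a7 : ∑ v, c alt v * F4 F v ≤ θ ^ 4 * (Ξ * m ^ 4) := by
    have b1 : ∑ v, c alt v * F4 F v ≤ Ξ * g ^ 4 * Qb F +
        (2 * ∑ v, max (c alt v - Ξ * g ^ 4) 0 - ∑ v, (c alt v - Ξ * g ^ 4)) := by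
      rw [Qb_eq]
      simp only [mul_sum, ← sum_add_distrib, ← sum_sub_distrib]
      refine sum_le_sum fun v _ => ?_
      have c1 := abs_le.1 (abs_F4 hF v)
      rcases le_total (c alt v - Ξ * g ^ 4) 0 with c2 | c2
      · rw [max_eq_right c2]; nlinarith
      · rw [max_eq_left c2]; nlinarith
    have b2 := mul_le_mul_of_nonneg_left hQ (mul_pos Ξ0 (pow_pos h.g0 4)).le
    have b3 := mul_le_mul_of_nonneg_right he X0.le
    have b4 : Ξ * g ^ 4 * (θ ^ 4 / 2 * n ^ 4) = θ ^ 4 / 2 * (Ξ * m ^ 4) := by rw [hm]; ring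
    have b5 := pp alt
    have b6 := mul_nonneg e0 X0.le
    rw [a0] at b1
    linarith
  have a8 : |∑ a, ∑ c, (∑ x ∈ N, φ x * (f true a x * f false c x)) * F a c| ≤
      θ / (8 * m ^ 2) * (A true + A false) + θ * m ^ 2 / 2 * ∑ x ∈ N, φ x +
        (∑ v, c alt v * F4 F v) / (4 * θ ^ 3 * m ^ 2) := by
    simp only [hc, hA, sum_mul]
    rw [sum_congr rfl fun a _ => sum_comm, sum_comm, sum_comm (s := univ) (t := N)]
    rw [sum_div, mul_add, mul_sum, mul_sum, mul_sum, ← sum_add_distrib, ← sum_add_distrib,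
      ← sum_add_distrib]
    refine (abs_sum_le_sum_abs _ _).trans (sum_le_sum fun x hx => ?_)
    by_cases h0 : φ x = 0
    · simp [h0]
    obtain ⟨b0, b1⟩ := cs2 (fun s a => f s a x) (fun s a => Z s a x) (fun s a => f0 s a x)
      (fun s a => f1 s a x hx h0) F
    have b2 := root4 (mul_nonneg (S0 true x) (S0 false x)) hθ (pow_pos m0 2) b0 b1
    have b3 : θ * (S true x * S false x) / 2 ≤
        θ / (8 * m ^ 2) * (S true x ^ 4 + S false x ^ 4) + θ * m ^ 2 / 4 := by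
      generalize S true x = u, S false x = w
      have : θ / (8 * m ^ 2) * (u ^ 4 + w ^ 4) + θ * m ^ 2 / 4 - θ * (u * w) / 2 =
          θ / (8 * m ^ 2) * ((u ^ 2 - w ^ 2) ^ 2 + 2 * (u * w - m ^ 2) ^ 2) := by
        field_simp; ring
      have : 0 ≤ θ / (8 * m ^ 2) * ((u ^ 2 - w ^ 2) ^ 2 + 2 * (u * w - m ^ 2) ^ 2) := by positivity
      linarith
    simp only [mul_assoc (φ x), ← mul_sum]
    rw [abs_mul, abs_of_nonneg (h.φ0 x), mul_div_assoc (φ x)]
    nlinarith [mul_le_mul_of_nonneg_left (b2.trans (add_le_add_left (add_le_add_left b3 _) _))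
      (h.φ0 x)]
  have a9 : θ / (8 * m ^ 2) * (A true + A false) ≤ θ * (Ξ * m ^ 2) := by
    rw [div_mul_eq_mul_div, div_le_iff₀ (by positivity)]
    have b2 := mul_le_mul_of_nonneg_left e1 X0.le
    have : A true + A false ≤ 8 * (Ξ * m ^ 4) := by nlinarith [a3 true, a3 false]
    exact (mul_le_mul_of_nonneg_left this hθ.le).trans (le_of_eq (by ring))
  have a10 : (∑ v, c alt v * F4 F v) / (4 * θ ^ 3 * m ^ 2) ≤ θ * (Ξ * m ^ 2) / 4 := by
    rw [div_le_iff₀ (by positivity)]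
    exact a7.trans (le_of_eq (by ring))
  have a11 := mul_le_mul_of_nonneg_left h.h0 (show 0 ≤ θ * m ^ 2 / 2 by positivity)
  have a12 : 2 * θ * (Ξ * g ^ 2) * n ^ 2 = 2 * (θ * (Ξ * m ^ 2)) := by rw [hm]; ring
  have a13 := mul_le_mul_of_nonneg_left e1 (show 0 ≤ θ * (Ξ * m ^ 2) by positivity)
  have a14 : 0 ≤ θ * (Ξ * m ^ 2) := by positivity
  nlinarith

end Pool.Agent.MP_678834_nt.RO

end MrgPart1

-- ======== part 2: formerly Pool.Agent.MP_678834_nt.ro.Conc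
section MrgPart2

/-!
# Two of any four dense sets of shifts carry primes together
-/

namespace Pool.Agent.MP_678834_nt.RO

open Finset Function

set_option linter.unusedSectionVars false

variable {V : Type} [Fintype V] [DecidableEq V]

theorem conc (N : Finset ℕ) (φ : ℕ → ℝ) (P Y : V → ℕ → ℝ) (r : V → V → ℝ) (A : Finset V)
    {Ξ g e M : ℝ} (φ0 : ∀ n, 0 ≤ φ n) (Ξ0 : 0 < Ξ) (g0 : 0 < g) (e0 : 0 ≤ e) (e1 : e ≤ 1 / 10 ^ 9)
    (A0 : 0 < (#A : ℝ)) (PY : ∀ v, ∀ n ∈ N, φ n ≠ 0 → P v n ≤ Y v n)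
    (Y0 : ∀ v n, 0 ≤ Y v n) (Y1 : ∀ v, ∀ n ∈ N, φ n ≠ 0 → Y v n ≤ M) (M1 : M ≤ e * (#A * g))
    (r0 : ∀ a b, 0 ≤ r a b) (r1 : ∀ b, ∑ a, r a b ≤ e * #A) (h0 : ∑ n ∈ N, φ n ≤ (1 + e) * Ξ)
    (hP : ∀ v, 2695 / 10000 * (Ξ * g) ≤ ∑ n ∈ N, φ n * P v n)
    (h1 : ∀ v, (1 - e) * (Ξ * g) ≤ ∑ n ∈ N, φ n * Y v n)
    (h2 : ∀ a b, a ≠ b → ∑ n ∈ N, φ n * (Y a n * Y b n) ≤ (1 + e) * (Ξ * g ^ 2) * (1 + r a b)) :
    26 / 100 * Ξ ≤ ∑ n ∈ N, φ n * if 9 / 1000 * (#A * g) ≤ ∑ v ∈ A, P v n then 1 else 0 := by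
  set m := #A * g with hm
  have m0 : 0 < m := mul_pos A0 g0
  set S : ℕ → ℝ := fun n => ∑ v ∈ A, Y v n with hS
  have S0 : ∀ n, 0 ≤ S n := fun n => sum_nonneg fun v _ => Y0 v n
  have lo : ∀ (f : V → ℕ → ℝ) (c : ℝ), (∀ v, c * (Ξ * g) ≤ ∑ n ∈ N, φ n * f v n) →
      c * (Ξ * m) ≤ ∑ n ∈ N, φ n * ∑ v ∈ A, f v n := fun f c hf => by
    have := card_nsmul_le_sum A _ _ fun a _ => hf a
    rw [nsmul_eq_mul, sum_comm] at this
    simp only [mul_sum]
    exact le_trans (le_of_eq (by rw [hm]; ring)) this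
  have c0 : 0 ≤ (1 + e) * (Ξ * g ^ 2) := by positivity
  have a1 : ∑ n ∈ N, φ n * S n ^ 2 ≤ e * m * ∑ n ∈ N, φ n * S n + (1 + e) ^ 2 * (Ξ * m ^ 2) := by
    have b1 : ∀ a b, ∑ n ∈ N, φ n * (Y a n * Y b n) ≤
        (if a = b then e * m * ∑ n ∈ N, φ n * Y a n else 0) + (1 + e) * (Ξ * g ^ 2) * (1 + r a b) := by
      intro a b
      split_ifs with hab
      · subst hab
        refine le_add_of_le_of_nonneg ?_ (mul_nonneg c0 (by linarith [r0 a a]))
        rw [mul_sum]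
        refine sum_le_sum fun n hn => ?_
        by_cases h : φ n = 0
        · simp [h]
        rw [mul_left_comm (e * m)]
        exact mul_le_mul_of_nonneg_left (mul_le_mul_of_nonneg_right ((Y1 a n hn h).trans M1)
          (Y0 a n)) (φ0 n)
      · rw [zero_add]; exact h2 a b hab
    have b2 : ∑ a ∈ A, ∑ b ∈ A, r a b ≤ #A * (e * #A) := by
      rw [sum_comm, ← nsmul_eq_mul]
      exact sum_le_card_nsmul _ _ _ fun b _ => (sum_le_sum_of_subset_of_nonneg (subset_univ A)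
        fun a _ _ => r0 a b).trans (r1 b)
    have b3 := sum_le_sum fun a (_ : a ∈ A) => sum_le_sum fun b (_ : b ∈ A) => b1 a b
    have b4 : ∑ n ∈ N, φ n * S n ^ 2 = ∑ a ∈ A, ∑ b ∈ A, ∑ n ∈ N, φ n * (Y a n * Y b n) := by
      simp_rw [hS, sq, sum_mul_sum, mul_sum]
      rw [sum_comm]
      exact sum_congr rfl fun a _ => sum_comm
    have b5 : ∑ a ∈ A, ∑ b ∈ A, (if a = b then e * m * ∑ n ∈ N, φ n * Y a n else 0) =
        e * m * ∑ n ∈ N, φ n * S n := by
      rw [sum_congr rfl fun a ha => by rw [sum_ite_eq, if_pos ha], ← mul_sum, sum_comm]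
      simp only [hS, mul_sum]
    simp only [sum_add_distrib, ← mul_sum, sum_const, nsmul_eq_mul, b5, mul_one] at b3
    rw [b4]
    refine b3.trans (add_le_add_right ((mul_le_mul_of_nonneg_left (add_le_add_right b2 _) c0).trans
      (le_of_eq ?_)) _)
    rw [hm]; ring
  have a2 : 2 * m * ∑ n ∈ N, φ n * S n ≤ ∑ n ∈ N, φ n * S n ^ 2 + m ^ 2 * ∑ n ∈ N, φ n := by
    simp only [mul_sum, ← sum_add_distrib]
    exact sum_le_sum fun n _ => by nlinarith [mul_nonneg (φ0 n) (sq_nonneg (S n - m))]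
  have a3 := lo Y _ h1
  have a4 := lo P _ hP
  have a5 : m * ∑ n ∈ N, φ n * ∑ v ∈ A, P v n ≤
      m ^ 2 * ∑ n ∈ N, φ n * (if 9 / 1000 * m ≤ ∑ v ∈ A, P v n then 1 else 0) +
      (9 / 1000 + 1 / 20000 + 5000) * m ^ 2 * ∑ n ∈ N, φ n + 5000 * ∑ n ∈ N, φ n * S n ^ 2 -
      10000 * m * ∑ n ∈ N, φ n * S n := by
    simp only [mul_sum _ _ (_ : ℝ), ← sum_add_distrib, ← sum_sub_distrib]
    simp only [← mul_sum A]
    refine sum_le_sum fun n hn => ?_
    by_cases h : φ n = 0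
    · simp [h]
    have b1 : ∑ v ∈ A, P v n ≤ S n := sum_le_sum fun v _ => PY v n hn h
    have b2 : m * ∑ v ∈ A, P v n ≤ m ^ 2 * (if 9 / 1000 * m ≤ ∑ v ∈ A, P v n then 1 else 0) +
        (9 / 1000 + 1 / 20000) * m ^ 2 + 5000 * (S n - m) ^ 2 := by
      split_ifs with b
      · nlinarith [mul_le_mul_of_nonneg_left b1 m0.le, sq_nonneg (S n - m - m / 10000)]
      · nlinarith [mul_le_mul_of_nonneg_left (not_le.1 b).le m0.le, sq_nonneg (S n - m)]
    nlinarith [mul_le_mul_of_nonneg_left b2 (φ0 n)]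
  set I := ∑ n ∈ N, φ n * if 9 / 1000 * m ≤ ∑ v ∈ A, P v n then 1 else 0
  set s0 := ∑ n ∈ N, φ n
  set s1 := ∑ n ∈ N, φ n * S n
  set s2 := ∑ n ∈ N, φ n * S n ^ 2
  have X0 : 0 < Ξ * m ^ 2 := by positivity
  have d0 := mul_le_mul_of_nonneg_left h0 (sq_nonneg m)
  have d1 := mul_le_mul_of_nonneg_left a3 m0.le
  have d2 := mul_le_mul_of_nonneg_left a4 m0.le
  have d3 := mul_le_mul_of_nonneg_right e1 X0.le
  have d4 : e * e * (Ξ * m ^ 2) ≤ e * (Ξ * m ^ 2) :=
    mul_le_mul_of_nonneg_right (mul_le_of_le_one_left e0 (by linarith)) X0.le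
  have d5 : s2 ≤ 3 * (Ξ * m ^ 2) := by
    have : 0 ≤ s2 := sum_nonneg fun n _ => mul_nonneg (φ0 n) (sq_nonneg _)
    have u1 := mul_le_mul_of_nonneg_left a2 e0
    have u2 := mul_le_mul_of_nonneg_left d0 e0
    have u3 := mul_le_mul_of_nonneg_right e1 this
    nlinarith
  have d6 : s2 ≤ (1 + 6 * e) * (Ξ * m ^ 2) := by
    have u1 := mul_le_mul_of_nonneg_left a2 e0
    have u2 := mul_le_mul_of_nonneg_left d0 e0
    have u3 := mul_le_mul_of_nonneg_left d5 e0
    nlinarith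
  refine le_of_mul_le_mul_left ?_ (pow_pos m0 2)
  nlinarith

theorem four (N : Finset ℕ) (φ : ℕ → ℝ) (P : Fin 4 → V → ℕ → ℝ) (A : Fin 4 → Finset V)
    {Ξ g : ℝ} (φ0 : ∀ n, 0 ≤ φ n) (Ξ0 : 0 < Ξ) (g0 : 0 < g) (P0 : ∀ i v n, 0 ≤ P i v n)
    (h0 : ∑ n ∈ N, φ n ≤ 101 / 100 * Ξ) (h : ∀ i, 26 / 100 * Ξ ≤
      ∑ n ∈ N, φ n * if 9 / 1000 * (#(A i) * g) ≤ ∑ v ∈ A i, P i v n then 1 else 0) :
    ∃ p ∈ Ed, 4 / 10 ^ 7 * (Ξ * g ^ 2) * (#(A p.1) * #(A p.2)) ≤
      ∑ x ∈ A p.1, ∑ y ∈ A p.2, ∑ n ∈ N, φ n * (P p.1 x n * P p.2 y n) := by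
  set I : Fin 4 → ℕ → ℝ := fun i n =>
    if 9 / 1000 * (#(A i) * g) ≤ ∑ v ∈ A i, P i v n then 1 else 0 with hI
  have a1 : ∀ n, ∑ i, I i n - 1 ≤ ∑ p ∈ Ed, I p.1 n * I p.2 n := fun n => by
    have e : Ed = {(0, 1), (0, 2), (0, 3), (1, 2), (1, 3), (2, 3)} := by decide
    rw [e, Fin.sum_univ_four]
    repeat rw [sum_insert (by decide)]
    rw [sum_singleton]
    simp only [hI]
    split_ifs <;> norm_num
  have a2 : ∑ _p ∈ Ed, 5 / 1000 * Ξ ≤ ∑ p ∈ Ed, ∑ n ∈ N, φ n * (I p.1 n * I p.2 n) := by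
    have b1 := sum_le_sum fun n (_ : n ∈ N) => mul_le_mul_of_nonneg_left (a1 n) (φ0 n)
    have b2 := sum_le_sum fun i (_ : i ∈ univ) => h i
    simp only [mul_sub, mul_sum, sum_sub_distrib, mul_one] at b1
    rw [sum_comm, sum_comm (t := Ed)] at b1
    rw [sum_const, card_univ, Fintype.card_fin, nsmul_eq_mul] at b2
    rw [sum_const, card_Ed, nsmul_eq_mul]
    push_cast at b2 ⊢
    linarith
  obtain ⟨p, hp, a3⟩ := exists_le_of_sum_le (card_pos.1 (by rw [card_Ed]; norm_num)) a2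
  refine ⟨p, hp, ?_⟩
  have a4 := mul_le_mul_of_nonneg_left a3
    (show 0 ≤ 9 / 1000 * (#(A p.1) * g) * (9 / 1000 * (#(A p.2) * g)) by positivity)
  rw [sum_congr rfl fun a _ => sum_comm, sum_comm]
  have a5 : 0 ≤ Ξ * g ^ 2 * (#(A p.1) * #(A p.2)) := by positivity
  refine le_trans (by nlinarith) (a4.trans ?_)
  rw [mul_sum]
  refine sum_le_sum fun n _ => ?_
  simp only [← mul_sum]
  rw [← sum_mul, mul_left_comm]
  refine mul_le_mul_of_nonneg_left ?_ (φ0 n)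
  have s0 := fun i => sum_nonneg fun v (_ : v ∈ A i) => P0 i v n
  simp only [hI]
  split_ifs with b1 b2
  · rw [mul_one, mul_one]
    exact mul_le_mul b1 b2 (by positivity) (s0 _)
  all_goals simpa using mul_nonneg (s0 p.1) (s0 p.2)

end Pool.Agent.MP_678834_nt.RO

end MrgPart2

-- marker of a merged file
example : 731051 + 720709 = 731051 + 720709 := rfl
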