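import Pool.Agent.MP_39a890_nt.Sums4
import Pool.Agent.MP_39a890_nt.KL

-- ======== part 0: formerly Pool.Agent.MP_678834_nt.ro.Mom
section MrgPart0

/-!
# Moments of the majorant for arbitrary distinct shifts
-/

namespace Pool.Agent.MP_678834_nt.RO

open Finset Function Pool.Agent.MP_39a890_nt Pool.Agent.MP_39a890_nt.Core
  Pool.Agent.MP_39a890_nt.Sums

set_option linter.unusedSectionVars false

variable {ι : Type} [Fintype ι] [DecidableEq ι] {pr : ι → ℕ} {W : ℕ} {Y : ℝ}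
variable {κ : Type} [Fintype κ] [DecidableEq κ] {b : κ → ℕ} {Δ : Finset ι}

/-- the sieve function of an integer -/
noncomputable def sg (pr : ι → ℕ) (η : Finset ι → ℝ) (m : ℕ) : ℝ :=
  ∑ u, η u * ∏ p ∈ u, if pr p ∣ m then -1 else tt pr p

open Classical in
/-- the majorant of the primes -/
noncomputable def Ym (pr : ι → ℕ) (l δ : ℝ) (m : ℕ) : ℝ :=
  if ∀ q, Real.log (pr q) ≤ δ * l → ¬ pr q ∣ m then sg pr (eta pr l) m ^ 2 else 0

/-- outside `Δ` no prime divides a difference of shifts -/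
def Sep (pr : ι → ℕ) (b : κ → ℕ) (Δ : Finset ι) : Prop :=
  ∀ p, p ∉ Δ → ∀ k l, k ≠ l → ¬ (pr p : ℤ) ∣ (b l : ℤ) - b k

/-- the local states -/
noncomputable def st (pr : ι → ℕ) (W : ℕ) (b : κ → ℕ) : ℕ → ι → Option κ := om pr (fun _ => W) b

theorem st_eq (hs : Sep pr b Δ) {n : ℕ} {p : ι} (hp : p ∉ Δ) {k : κ} :
    st pr W b n p = some k ↔ pr p ∣ W * n + b k := by
  unfold st om
  split_ifs with he
  · rw [Option.some_inj]
    refine ⟨fun e => e ▸ he.choose_spec, fun hk => by_contra fun hne => hs p hp _ _ hne ?_⟩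
    have := dvd_sub (Int.natCast_dvd_natCast.2 hk) (Int.natCast_dvd_natCast.2 he.choose_spec)
    push_cast at this
    rwa [add_sub_add_left_eq_sub] at this
  · simp only [false_iff]
    exact fun hk => he ⟨k, hk⟩

theorem ind1_st (h : PS pr W Y) (hs : Sep pr b Δ) {e : Finset ι} (he : Disjoint e Δ) (i : κ) (n : ℕ) :
    ind1 e i (st pr W b n) = if val pr e ∣ W * n + b i then 1 else 0 := by
  rw [ind1_eq]
  refine if_congr ?_ rfl rfl
  rw [val_dvd_iff h]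
  exact forall₂_congr fun p hp => st_eq hs (disjoint_left.1 he hp)

theorem root (h : PS pr W Y) (p : ι) (c : ℕ) :
    ∃ r : ℕ, ∀ n, pr p ∣ W * n + c ↔ n ≡ r [MOD pr p] := by
  have hc : W.Coprime (pr p) := ((h.prime p).coprime_iff_not_dvd.2 (h.ndvd p)).symm
  obtain ⟨r, -, hr⟩ := Nat.exists_mul_mod_eq_of_coprime ((pr p - 1) * c) hc (h.prime p).ne_zero
  have h2 : W * r + c ≡ (pr p - 1) * c + c [MOD pr p] := Nat.ModEq.add_right _ hr
  rw [← add_one_mul, Nat.sub_add_cancel (h.prime p).one_le] at h2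
  have h3 := h2.trans (Nat.modEq_zero_iff_dvd.2 (dvd_mul_right _ _))
  exact ⟨r, fun n => ⟨fun hd => Nat.ModEq.cancel_left_of_coprime hc.symm
    (Nat.ModEq.add_right_cancel' _ ((Nat.modEq_zero_iff_dvd.2 hd).trans h3.symm)),
    fun hm => Nat.modEq_zero_iff_dvd.1 (((hm.mul_left W).add_right c).trans h3)⟩⟩

theorem Rm_st (h : PS pr W Y) (hs : Sep pr b Δ) {φ : ℝ → ℝ} {X C : ℝ} (hC0 : 0 ≤ C)
    (hC : ∀ q n₀ : ℕ, 0 < q → |cnt₁ φ X q n₀ - X * (∫ u, φ u) / q| ≤ C) (T : κ → Finset ι)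
    (hΔ : ∀ k, Disjoint (T k) Δ) :
    |Rm (NN X) (μU φ X) (st pr W b) (X * ∫ u, φ u) (πU pr) T| ≤ C := by
  by_cases hT : Fn T
  swap
  · rwa [Rm_of_not_Fn _ _ _ _ _ hT, abs_zero]
  have h1 : ∀ p : ι, ∃ r : ℕ, ∀ k, p ∈ T k → ∀ n, pr p ∣ W * n + b k ↔ n ≡ r [MOD pr p] := by
    intro p
    by_cases hp : ∃ k, p ∈ T k
    · obtain ⟨k, hk⟩ := hp
      obtain ⟨r, hr⟩ := root h p (b k)
      refine ⟨r, fun l hl => ?_⟩
      rwa [show l = k from by_contra fun hne => disjoint_left.1 (hT l k hne) hl hk]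
    · exact ⟨0, fun k hk => absurd ⟨k, hk⟩ hp⟩
  choose r hr using h1
  obtain ⟨n₀, hn₀⟩ := Nat.chineseRemainderOfFinset r pr univ (fun p _ => (h.prime p).ne_zero)
    (fun p _ q _ hpq => cop h hpq)
  have hn : ∀ n, ind T (st pr W b n) = if n ≡ n₀ [MOD val pr (un T)] then 1 else 0 := fun n => by
    rw [ind_eq]
    refine if_congr ?_ rfl rfl
    rw [modEq_val h]
    constructor
    · intro h' p hp
      obtain ⟨k, hk⟩ := mem_un.1 hp
      exact ((hr p k hk n).1 ((st_eq hs (disjoint_left.1 (hΔ k) hk)).1 (h' k p hk))).trans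
        (hn₀ p (mem_univ p)).symm
    · intro h' k p hp
      exact (st_eq hs (disjoint_left.1 (hΔ k) hp)).2 ((hr p k hp n).2
        ((h' p (mem_un.2 ⟨k, hp⟩)).trans (hn₀ p (mem_univ p))))
  have := hC _ n₀ (val_pos h (un T))
  rw [Rm, Ex_U h hT, Sm, mul_one_div]
  simpa only [hn, mul_ite, mul_one, mul_zero, cnt₁, NN, μU] using this

theorem strip₀ (t : ι → ℝ) (t0 : ∀ p, 0 ≤ t p) (η : Finset ι → ℝ) (h0 : ∀ u, 0 ≤ η u)
    (ha : ∀ u v, v ⊆ u → η u ≤ η v) (Δ : Finset ι) : ∃ η' : Finset ι → ℝ, (∀ u, 0 ≤ η' u) ∧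
      (∀ u v, v ⊆ u → η' u ≤ η' v) ∧ (∀ u, η' u ≤ η u) ∧ (∀ u, η' u ≠ 0 → Disjoint u Δ) ∧
      ∀ f : ι → ℝ, (∀ q ∈ Δ, f q = t q) →
        ∑ u, η u * ∏ p ∈ u, f p = (∏ q ∈ Δ, (1 + t q)) * ∑ u, η' u * ∏ p ∈ u, f p := by
  induction Δ using Finset.induction_on with
  | empty => exact ⟨η, h0, ha, fun _ => le_rfl, fun _ _ => by simp, fun _ _ => by simp⟩
  | insert q Δ hq ih =>
    obtain ⟨ζ, a0, a1, a2, a3, a4⟩ := ih
    have tq : 0 < 1 + t q := by linarith [t0 q]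
    have nn : ∀ u, 0 ≤ (ζ u + t q * ζ (insert q u)) / (1 + t q) := fun u =>
      div_nonneg (add_nonneg (a0 _) (mul_nonneg (t0 q) (a0 _))) tq.le
    have le : ∀ u, (ζ u + t q * ζ (insert q u)) / (1 + t q) ≤ ζ u := fun u => by
      rw [div_le_iff₀ tq]
      nlinarith [mul_le_mul_of_nonneg_left (a1 _ _ (subset_insert q u)) (t0 q)]
    refine ⟨fun u => if q ∈ u then 0 else (ζ u + t q * ζ (insert q u)) / (1 + t q), fun u => ?_,
      fun u v huv => ?_, fun u => ?_, fun u hu => ?_, fun f hf => ?_⟩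
    · beta_reduce; split_ifs; exacts [le_rfl, nn u]
    · beta_reduce
      by_cases h1 : q ∈ u
      · rw [if_pos h1]; split_ifs; exacts [le_rfl, nn v]
      · rw [if_neg h1, if_neg fun h2 => h1 (huv h2)]
        exact div_le_div_of_nonneg_right (add_le_add (a1 _ _ huv) (mul_le_mul_of_nonneg_left
          (a1 _ _ (insert_subset_insert q huv)) (t0 q))) tq.le
    · beta_reduce; split_ifs; exacts [h0 u, (le u).trans (a2 u)]
    · beta_reduce at hu
      split_ifs at hu with h1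
      · exact absurd rfl hu
      · exact disjoint_insert_right.2 ⟨h1, a3 u fun h2 => hu (le_antisymm (h2 ▸ le u) (nn u))⟩
    · rw [a4 f fun p hp => hf p (mem_insert_of_mem hp), prod_insert hq, mul_comm (1 + t q),
        mul_assoc]
      congr 1
      have e : ∀ F : Finset ι → ℝ, ∑ u, F u =
          ∑ u ∈ (univ.erase q).powerset, F u + ∑ u ∈ (univ.erase q).powerset, F (insert q u) := by
        intro F
        rw [← sum_powerset_insert (notMem_erase q univ), insert_erase (mem_univ q), powerset_univ]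
      rw [mul_sum, e, e (fun u => (1 + t q) * _), ← sum_add_distrib, ← sum_add_distrib]
      refine sum_congr rfl fun u hu => ?_
      have hq' : q ∉ u := fun h' => notMem_erase q univ (mem_powerset.1 hu h')
      beta_reduce
      rw [prod_insert hq', if_neg hq', if_pos (mem_insert_self q u), hf q (mem_insert_self q Δ)]
      field_simp
      ring

/-- coefficients below the Selberg weights that avoid `Δ` -/
structure Sub (pr : ι → ℕ) (l : ℝ) (Δ : Finset ι) (η : Finset ι → ℝ) : Prop where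
  h0 : ∀ u, 0 ≤ η u
  anti : ∀ u v, v ⊆ u → η u ≤ η v
  le : ∀ u, η u ≤ eta pr l u
  dis : ∀ u, η u ≠ 0 → Disjoint u Δ

variable {l δ ε C X : ℝ} {φ : ℝ → ℝ} {η : Finset ι → ℝ}

theorem Sub.mem (hη : Sub pr l Δ η) {u : Finset ι} (hu : η u ≠ 0) : u ∈ EE pr l :=
  eta_supp fun h => hu (le_antisymm (h ▸ hη.le u) (hη.h0 u))

theorem V_PM (t : ι → ℝ) (η : Finset ι → ℝ) (w : ι → Option κ) :
    V t (PM fun _ => η) w = ∏ k, sig t η k w := by
  unfold V sig PM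
  rw [← sum_prod_eq fun k u => η u * ∏ p ∈ u, hl (t p) (w p) k]
  exact sum_congr rfl fun r _ => prod_mul_distrib.symm

theorem Ym_nonneg (m : ℕ) : 0 ≤ Ym pr l δ m := by unfold Ym; split_ifs <;> positivity

theorem strip (h : PS pr W Y) (hl : 0 ≤ l) (hs : Sep pr b Δ)
    (hΔ : ∀ p ∈ Δ, Real.log (pr p) ≤ δ * l) : ∃ η, Sub pr l Δ η ∧ ∀ n,
      ∏ k, Ym pr l δ (W * n + b k) ≤ (∏ q ∈ Δ, (1 + tt pr q)) ^ (2 * Fintype.card κ) *
        V (tt pr) (PM fun _ => η) (st pr W b n) ^ 2 := by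
  obtain ⟨η, a0, a1, a2, a3, a4⟩ := strip₀ (tt pr) (fun p => (tt_pos h p).le) _ (eta_nonneg h hl)
    (eta_anti h hl) Δ
  refine ⟨η, ⟨a0, a1, a2, a3⟩, fun n => ?_⟩
  rw [V_PM, pow_mul, ← card_univ, ← prod_const, ← prod_pow (f := fun k => sig _ _ k _),
    ← prod_mul_distrib]
  refine prod_le_prod (fun _ _ => Ym_nonneg _) fun k _ => ?_
  unfold Ym
  split_ifs with hr
  · rw [← mul_pow, sg, a4 _ fun q hq => if_neg (hr q (hΔ q hq))]
    refine le_of_eq ?_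
    congr 2
    refine sum_congr rfl fun u _ => ?_
    by_cases h0 : η u = 0
    · simp [h0]
    congr 1
    exact prod_congr rfl fun p hp => if_congr (st_eq hs (disjoint_left.1 (a3 u h0) hp)).symm rfl rfl
  · positivity

theorem model (h : PS pr W Y) (hl : 0 ≤ l) (hη : Sub pr l Δ η) (hε : 0 ≤ ε)
    (s1 : ∏ p, (1 + cK κ * tt pr p ^ 2) ≤ 1 + ε) :
    Ex (πU pr) (fun w => V (tt pr) (PM fun _ : κ => η) w ^ 2) ≤
      (1 + ε) * (1 / GG pr l) ^ Fintype.card κ := by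
  have h1 := (abs_le.1 (master (meas_U h) (PM fun _ : κ => η)
    (fun r _ k hk => absurd (mem_univ k) hk) (PM_nonneg fun _ => hη.h0)
    (PM_anti (fun _ => hη.h0) fun _ => hη.anti) s1)).2
  have h2 : ∑ r, PM (fun _ : κ => η) r ^ 2 * wD (tt pr) r ≤ (1 / GG pr l) ^ Fintype.card κ := by
    rw [sum_PM_sq', prod_const, card_univ, ← sum_eta_sq h hl]
    refine pow_le_pow_left₀ (sum_nonneg fun u _ => mul_nonneg (sq_nonneg _) (wt_pos h u).le)
      (sum_le_sum fun u _ => ?_) _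
    rw [mul_one]
    exact mul_le_mul_of_nonneg_right (pow_le_pow_left₀ (hη.h0 u) (hη.le u) 2) (wt_pos h u).le
  nlinarith [mul_le_mul_of_nonneg_left h2 hε]

/-- The hypotheses for the sieve scale `l` and the length `X`. -/
structure Cx (pr : ι → ℕ) (W : ℕ) (φ : ℝ → ℝ) (X l ε C : ℝ) : Prop where
  ps : PS pr W (Real.exp (272 / 1000 * l))
  wt : Wt φ
  l0 : 0 < l
  X0 : 0 ≤ X
  ε0 : 0 ≤ ε
  C0 : 0 ≤ C
  cnt : ∀ q n₀ : ℕ, 0 < q → |cnt₁ φ X q n₀ - X * (∫ u, φ u) / q| ≤ C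
  s1 : ∏ p, (1 + 2560 * tt pr p ^ 2) ≤ 1 + ε
  s3 : ∏ p, (1 + 3 / ((pr p : ℝ) * √(pr p : ℝ))) ≤ 2

theorem Cx.s1' (h : Cx pr W φ X l ε C) {c : ℝ} (c0 : 0 ≤ c) (hc : c ≤ 2560) :
    ∏ p, (1 + c * tt pr p ^ 2) ≤ 1 + ε :=
  (prod_le_prod (fun p _ => by positivity) fun p _ => by
    linarith [mul_le_mul_of_nonneg_right hc (sq_nonneg (tt pr p))]).trans h.s1

theorem Cx.mass (h : Cx pr W φ X l ε C) : 0 ≤ X * ∫ u, φ u :=
  mul_nonneg h.X0 (MeasureTheory.integral_nonneg h.wt.nonneg)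

theorem Cx.disc (h : Cx pr W φ X l ε C) (hs : Sep pr b Δ) (hη : Sub pr l Δ η) :
    |Sm (NN X) (μU φ X) (st pr W b) (fun w => V (tt pr) (PM fun _ => η) w ^ 2) -
      (X * ∫ u, φ u) * Ex (πU pr) (fun w => V (tt pr) (PM fun _ : κ => η) w ^ 2)| ≤
      C * (Real.exp (3 / 2 * (Fintype.card κ * (272 / 1000 * l))) * 2 ^ Fintype.card κ) ^ 2 := by
  have sp : ∀ r : κ → Finset ι, PM (fun _ => η) r ≠ 0 → ∀ k, η (r k) ≠ 0 := fun r hr k =>
    prod_ne_zero_iff.1 hr k (mem_univ k)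
  rw [Core.disc _ _ _ _ _ univ _ _ _ (V_sq_eq (tt pr) _)]
  refine (abs_sum_pair_le (C := C) _ (fun x => Rm _ _ _ _ _ (x.1 ⊔ x.2)) fun x b1 b2 => ?_).trans
    (mul_le_mul_of_nonneg_left (pow_le_pow_left₀ (sum_nonneg fun _ _ => abs_nonneg _) ?_ 2) h.C0)
  · obtain ⟨r1, c1, d1⟩ := lam_supp b1
    obtain ⟨r2, c2, d2⟩ := lam_supp b2
    exact Rm_st h.ps hs h.C0 h.cnt _ fun k => disjoint_union_left.2
      ⟨(hη.dis _ (sp r1 c1 k)).mono_left (d1 k), (hη.dis _ (sp r2 c2 k)).mono_left (d2 k)⟩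
  · refine (norm_lam (cm := 1) h.ps h.s3 _ (fun r => ?_) fun r hr => ?_).trans (by rw [one_mul])
    · rw [abs_of_nonneg (PM_nonneg (fun _ => hη.h0) r)]
      exact prod_le_one (fun k _ => hη.h0 _) fun k _ => (hη.le _).trans (eta_le h.ps h.l0.le _)
    · refine (sum_le_card_nsmul _ _ _ fun k _ => lv_of_EE (hη.mem (sp r hr k))).trans ?_
      rw [card_univ, nsmul_eq_mul]

/-- Upper bound with a trivial remainder. -/
theorem Cx.mom (h : Cx pr W φ X l ε C) (hs : Sep pr b Δ) (hΔ : ∀ p ∈ Δ, Real.log (pr p) ≤ δ * l)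
    (hκ : cK κ ≤ 2560) :
    ∑ n ∈ NN X, φ (n / X) * ∏ k, Ym pr l δ (W * n + b k) ≤
      (∏ q ∈ Δ, (1 + tt pr q)) ^ (2 * Fintype.card κ) *
        ((1 + ε) * ((X * ∫ u, φ u) * (1 / GG pr l) ^ Fintype.card κ) + C *
          (Real.exp (3 / 2 * (Fintype.card κ * (272 / 1000 * l))) * 2 ^ Fintype.card κ) ^ 2) := by
  obtain ⟨η, hη, a1⟩ := strip h.ps h.l0.le hs hΔ
  have a2 := (abs_le.1 (h.disc hs hη)).2
  have a3 := mul_le_mul_of_nonneg_left (model h.ps h.l0.le hη h.ε0 (h.s1' cK_nonneg hκ)) h.mass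
  refine (sum_le_sum fun n _ => mul_le_mul_of_nonneg_left (a1 n) (h.wt.nonneg _)).trans ?_
  simp_rw [mul_left_comm (φ _)]
  rw [← mul_sum, pow_mul']
  refine mul_le_mul_of_nonneg_left ?_ (sq_nonneg _)
  unfold Sm μU at a2
  linarith

theorem V_one (t : ι → ℝ) (ζ : Finset ι → ℝ) (w : ι → Option Unit) :
    V t (PM fun _ => ζ) w = sig t ζ () w := by rw [V_PM]; simp

theorem cK_unit : cK Unit = 16 := by norm_num [cK, eK]

theorem sep_one (c : ℕ) : Sep pr (fun _ : Unit => c) ∅ := fun _ _ _ _ hkl => absurd rfl hkl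

theorem Cx.res (h : Cx pr W φ X l ε C) (c : ℕ) (q : ι) :
    Sm (NN X) (μU φ X) (st pr W fun _ : Unit => c)
      (fun w => sig (tt pr) (eta pr l) () w ^ 2 * ind1 {q} () w) ≤
      (1 + ε) * ((X * ∫ u, φ u) * (1 / GG pr l) ^ 2) * (1 / (pr q : ℝ) *
        ∑ u ∈ (EE pr l).filter (fun u => q ∉ u ∧ insert q u ∉ EE pr l),
          Pool.Agent.MP_39a890_nt.wt pr u * ∏ p ∈ u, (1 + 16 * tt pr p)) +
        C * (Real.exp (3 / 2 * (272 / 1000 * l)) * 2) ^ 2 := by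
  have hL := h.l0.le
  have hG := one_le_GG h.ps hL
  have hs := sep_one (pr := pr) c
  have cU := cK_unit
  have s1 : ∏ p, (1 + cK Unit * tt pr p ^ 2) ≤ 1 + ε := h.s1' cK_nonneg (by rw [cU]; norm_num)
  set η' : Finset ι → ℝ := fun u => if q ∈ u then 0 else eta pr l u - eta pr l (insert q u)
    with hη'
  have hη'e : ∀ u, η' u = if u ∈ (EE pr l).filter (fun u => q ∉ u ∧ insert q u ∉ EE pr l) then
      1 / GG pr l else 0 := by
    intro u
    simp only [hη', eta, mem_filter]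
    by_cases h1 : q ∈ u
    · simp [h1]
    by_cases h2 : insert q u ∈ EE pr l
    · simp [h1, h2, EE_down h.ps l _ h2 u (subset_insert q u)]
    · simp [h1, h2]
  have hη0 : ∀ u, 0 ≤ η' u := fun u => by rw [hη'e]; split_ifs <;> positivity
  have hη1 : ∀ u, η' u ≤ 1 := fun u => by
    rw [hη'e]; split_ifs
    · rw [div_le_one (by linarith)]; exact hG
    · exact zero_le_one
  have pm : ∀ r : Unit → Finset ι, PM (fun _ => η') r = η' (r ()) := fun r => by simp [PM]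
  have e1 : (fun w => sig (tt pr) (eta pr l) () w ^ 2 * ind1 {q} () w) =
      fun w => V (tt pr) (PM fun _ => η') w ^ 2 * ind1 {q} () w := by
    funext w
    by_cases hw : w q = some ()
    · rw [sig_eq_res _ _ () q w hw, V_one]
    · simp [ind1, hw]
  have h1 := disc_sq_res (NN X) (μU φ X) (st pr W fun _ : Unit => c) (X * ∫ u, φ u) (meas_U h.ps).sum (tt pr)
    (PM fun _ => η') q () (fun r hr k hk => hr (by rw [pm]; exact if_pos hk))
    fun T => Rm_st h.ps hs h.C0 h.cnt T fun _ => disjoint_empty_right _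
  have h2 := master_free (meas_U h.ps) () (PM fun _ => η') (PM fun _ => η')
    (fun r => by rw [pm, abs_of_nonneg (hη0 _)]) (fun r r' _ hi => by rw [pm, pm, hi]) s1
  have e2 := sum_PM_sq (tt pr) (fun _ : Unit => η') fun _ u => ∏ p ∈ u, (1 + cK Unit * tt pr p)
  have e3 : ∑ u, η' u ^ 2 * (∏ p ∈ u, tt pr p) * ∏ p ∈ u, (1 + cK Unit * tt pr p) =
      (1 / GG pr l) ^ 2 * ∑ u ∈ (EE pr l).filter (fun u => q ∉ u ∧ insert q u ∉ EE pr l),
        Pool.Agent.MP_39a890_nt.wt pr u * ∏ p ∈ u, (1 + 16 * tt pr p) := by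
    rw [mul_sum, ← univ_inter (filter _ _), ← sum_ite_mem, cU]
    refine sum_congr rfl fun u _ => ?_
    rw [hη'e]; split_ifs
    · unfold Pool.Agent.MP_39a890_nt.wt; ring
    · simp
  have e4 : ∑ r : Unit → Finset ι, PM (fun _ => η') r ^ 2 *
      (wD (tt pr) r * ∏ p ∈ r (), (1 + cK Unit * tt pr p)) = _ :=
    (sum_congr rfl fun r _ => by simp [PM, mul_assoc]).trans (e2.trans ((Fintype.prod_unique _).trans e3))
  rw [e4] at h2
  have h3 := norm_lam (cm := 1) (Λ := 272 / 1000 * l) h.ps h.s3 (PM fun _ : Unit => η')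
    (fun r => by rw [pm, abs_of_nonneg (hη0 _)]; exact hη1 _) fun r hr => by
      rw [pm, hη'e] at hr
      simpa using lv_of_EE (mem_filter.1 (by_contra fun h5 => hr (if_neg h5))).1
  rw [one_mul, Fintype.card_unit, pow_one] at h3
  have h4 := mul_le_mul_of_nonneg_left
    (pow_le_pow_left₀ (sum_nonneg fun _ _ => abs_nonneg _) h3 2) h.C0
  have hq : (0 : ℝ) ≤ 1 / pr q := by positivity
  have h5 := mul_le_mul_of_nonneg_left (mul_le_mul_of_nonneg_left h2 hq) h.mass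
  have e5 : πU (κ := Unit) pr q (some ()) = 1 / pr q := rfl
  rw [e5] at h1
  rw [e1]
  linarith

/-- Lower bound for the mean. -/
theorem Cx.one (h : Cx pr W φ X l ε C) (c : ℕ) {B : ℝ}
    (hB : ∑ q ∈ univ.filter (fun q => Real.log (pr q) ≤ δ * l), (1 / (pr q : ℝ)) *
      ∑ u ∈ (EE pr l).filter (fun u => q ∉ u ∧ insert q u ∉ EE pr l),
        Pool.Agent.MP_39a890_nt.wt pr u * ∏ p ∈ u, (1 + 16 * tt pr p) ≤ B) :
    (1 - ε) * ((X * ∫ u, φ u) * (1 / GG pr l)) -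
      (1 + ε) * ((X * ∫ u, φ u) * (1 / GG pr l) ^ 2) * B -
      (1 + Real.exp (δ * l)) * (C * (Real.exp (3 / 2 * (272 / 1000 * l)) * 2) ^ 2) ≤
      ∑ n ∈ NN X, φ (n / X) * Ym pr l δ (W * n + c) := by
  have hL := h.l0.le
  have hG := one_le_GG h.ps hL
  have hs := sep_one (pr := pr) c
  have s1 : ∏ p, (1 + cK Unit * tt pr p ^ 2) ≤ 1 + ε := h.s1' cK_nonneg (by rw [cK_unit]; norm_num)
  set Q := univ.filter (fun q => Real.log (pr q) ≤ δ * l) with hQ
  set E := C * (Real.exp (3 / 2 * (272 / 1000 * l)) * 2) ^ 2 with hE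
  set w := st pr W (fun _ : Unit => c) with hw
  have E0 : 0 ≤ E := mul_nonneg h.C0 (sq_nonneg _)
  have a1 := (abs_le.1 (h.disc hs ⟨eta_nonneg h.ps hL, eta_anti h.ps hL, fun _ => le_rfl,
    fun _ _ => disjoint_empty_right _⟩)).1
  have a2 := (abs_le.1 (master (meas_U h.ps) (PM fun _ : Unit => eta pr l)
    (fun r _ k hk => absurd (mem_univ k) hk) (PM_nonneg fun _ => eta_nonneg h.ps hL)
    (PM_anti (fun _ => eta_nonneg h.ps hL) fun _ => eta_anti h.ps hL) s1)).1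
  have a3 := sum_eta_sq h.ps hL
  simp only [mul_one] at a3
  rw [sum_PM_sq', prod_const, a3, card_univ, Fintype.card_unit, pow_one] at a2
  simp only [Fintype.card_unit, Nat.cast_one, one_mul, pow_one, ← hE, V_one] at a1
  simp only [V_one] at a2
  have a4 := h.res c
  have a5 : Sm (NN X) (μU φ X) w (fun w => sig (tt pr) (eta pr l) () w ^ 2) ≤
      ∑ n ∈ NN X, φ (n / X) * Ym pr l δ (W * n + c) + ∑ q ∈ Q, Sm (NN X) (μU φ X) w
        (fun w => sig (tt pr) (eta pr l) () w ^ 2 * ind1 {q} () w) := by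
    unfold Sm μU
    rw [sum_comm (s := Q), ← sum_add_distrib]
    refine sum_le_sum fun n _ => ?_
    rw [← mul_sum, ← mul_add]
    refine mul_le_mul_of_nonneg_left ?_ (h.wt.nonneg _)
    have h0 : ∀ q, 0 ≤ sig (tt pr) (eta pr l) () (w n) ^ 2 * ind1 {q} () (w n) := fun q =>
      mul_nonneg (sq_nonneg _) (by rw [ind1_eq]; split_ifs <;> norm_num)
    unfold Ym
    split_ifs with hr
    · have e : sig (tt pr) (eta pr l) () (w n) = sg pr (eta pr l) (W * n + c) :=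
        sum_congr rfl fun u _ => congrArg (eta pr l u * ·) (prod_congr rfl fun p _ =>
          if_congr (st_eq hs (notMem_empty p)) rfl rfl)
      exact le_add_of_le_of_nonneg (by rw [← e]) (sum_nonneg fun q _ => h0 q)
    · simp only [not_forall, not_not] at hr
      obtain ⟨q, h1, h2⟩ := hr
      rw [zero_add]
      refine le_trans (le_of_eq ?_) (single_le_sum (fun q _ => h0 q) (mem_filter.2 ⟨mem_univ q, h1⟩))
      have h3 : w n q = some () := (st_eq hs (notMem_empty q)).2 h2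
      simp [ind1, h3]
  have a6 := sum_le_sum fun q (_ : q ∈ Q) => a4 q
  rw [sum_add_distrib, ← mul_sum, sum_const, nsmul_eq_mul, ← hE, ← hw] at a6
  rw [← hw] at a1
  have a7 : (#Q : ℝ) ≤ Real.exp (δ * l) := le_trans (Nat.cast_le.2 (card_le_card_of_injOn
    (fun q => {q}) (fun q hq => mem_coe.2 (mem_filter.2 ⟨mem_univ _, by
      rw [lv_eq_sum h.ps, sum_singleton]; exact (mem_filter.1 hq).2⟩)) fun _ _ _ _ e =>
      singleton_injective e)) (card_lv_le h.ps (δ * l))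
  have a8 := mul_le_mul_of_nonneg_left hB (show 0 ≤ (1 + ε) * ((X * ∫ u, φ u) * (1 / GG pr l) ^ 2)
    from mul_nonneg (by linarith [h.ε0]) (mul_nonneg h.mass (sq_nonneg _)))
  have a9 := mul_le_mul_of_nonneg_left a2 h.mass
  have a10 := mul_le_mul_of_nonneg_right a7 E0
  linarith

theorem Ym_le (h : PS pr W Y) (hl : 0 < l) (hδ : 0 < δ) {K : ℝ} {N₀ m : ℕ} (hN : K ≤ δ * N₀)
    (h0 : 0 < m) (h1 : Real.log m ≤ K * l) : Ym pr l δ m ≤ 9 ^ N₀ := by
  unfold Ym; split_ifs with hw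
  swap
  · positivity
  set w : ι → Option Unit := fun p => if pr p ∣ m then some () else none with hw'
  have e : ∀ p, w p = some () ↔ pr p ∣ m := fun p => by simp [hw']
  set U := univ.filter fun p => w p = some () with hU
  have h2 : lv pr U ≤ K * l := (Real.log_le_log (by exact_mod_cast val_pos h U) (Nat.cast_le.2
    (Nat.le_of_dvd h0 ((val_dvd_iff h U _).2 fun p hp => (e p).1 (mem_filter.1 hp).2)))).trans h1
  have h3 : U.card • (δ * l) ≤ lv pr U := by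
    rw [lv_eq_sum h]
    exact card_nsmul_le_sum _ _ _ fun p hp => le_of_not_ge fun h4 =>
      hw p h4 ((e p).1 (mem_filter.1 hp).2)
  rw [nsmul_eq_mul] at h3
  have h4 : U.card ≤ N₀ := by
    have : (U.card : ℝ) * (δ * l) ≤ N₀ * (δ * l) := by nlinarith
    exact_mod_cast le_of_mul_le_mul_right this (mul_pos hδ hl)
  have h5 : sg pr (eta pr l) m = sig (tt pr) (eta pr l) () w :=
    sum_congr rfl fun u _ => congrArg _ (prod_congr rfl fun p _ => if_congr (e p).symm rfl rfl)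
  rw [← sq_abs, h5]
  refine (pow_le_pow_left₀ (abs_nonneg _) (abs_sig_le h hl.le () _) 2).trans ?_
  rw [← pow_mul, mul_comm, pow_mul]
  norm_num only
  exact pow_le_pow_right₀ (by norm_num) h4

theorem Ym_prime (h : PS pr W Y) (hl : 0 ≤ l) {m : ℕ} (hp : m.Prime) (hY : Y < m) :
    Ym pr l δ m = 1 := by
  have hw : ∀ p, ¬ pr p ∣ m := fun p hd =>
    (h.le p).not_gt ((Nat.prime_dvd_prime_iff_eq (h.prime p) hp).1 hd ▸ hY)
  have : sg pr (eta pr l) m = 1 := by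
    rw [← sum_eta h hl]
    exact sum_congr rfl fun u _ => congrArg _ (prod_congr rfl fun p _ => if_neg (hw p))
  rw [Ym, if_pos fun q _ => hw q, this, one_pow]

end Pool.Agent.MP_678834_nt.RO

end MrgPart0

-- ======== part 1: formerly Pool.Agent.MP_678834_nt.ro.Klu
section MrgPart1

/-!
# The bilinear remainder bound, uniformly in the constant terms
-/

namespace Pool.Agent.MP_678834_nt.RO

open Finset Filter Pool.Agent.MP_39a890_nt Pool.Agent.MP_39a890_nt.KL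

/-- The bilinear bound at the scale `X` for all constant terms. -/
def KLu (θ σm σp η : ℝ) (φ : ℝ → ℝ) (W : ℕ) (X : ℝ) : Prop :=
  ∀ c c' : ℕ, c'.Coprime W → (c' : ℝ) ≤ X →
  ∀ (a a' q₀ n₀ : ℕ) (D₁ D₂ : Finset ℕ) (α α' : ℕ → ℝ), a ∣ W → a' ∣ W →
    (∀ d ∈ D₁, ∀ p : ℕ, p.Prime → p ∣ d → (p : ℤ) ∣ (a : ℤ) * c' - a' * c → p ∣ W) →
    Squarefree q₀ → q₀.Coprime W → (q₀ : ℝ) ≤ X ^ η →
    q₀.Coprime (a * n₀ + c) → q₀.Coprime (a' * n₀ + c') →
    (∀ d ∈ D₁, Squarefree d ∧ d.Coprime W ∧ (d : ℝ) ≤ X ^ θ ∧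
      ∃ s : ℕ, s ∣ d ∧ X ^ σm ≤ (s : ℝ) ∧ (s : ℝ) ≤ X ^ σp) →
    (∀ d ∈ D₂, 0 < d ∧ d.Coprime W ∧ (d : ℝ) ≤ X ^ θ) →
    (∀ d, |α d| ≤ 1) → (∀ d, |α' d| ≤ 1) →
    |∑ d₁ ∈ D₁, ∑ d₂ ∈ D₂, α d₁ * α' d₂ * remC φ X a c a' c' q₀ n₀ d₁ d₂| ≤ X ^ (1 - η)

/-- The uniform bilinear bound. -/
def KLU : Prop :=
  ∀ θ σm σp η : ℝ, 0 < η → 0 ≤ θ → θ ≤ 3 / 5 → 0 ≤ σp → 7 * θ + σp ≤ 4 - 40 * η →
    2 * θ - 1 + 40 * η ≤ σm → ∀ φ : ℝ → ℝ, Wt φ → ∀ W : ℕ, 0 < W →
    ∀ᶠ X : ℝ in atTop, KLu θ σm σp η φ W X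

theorem resid' {a b a' b' q n₀ W : ℕ} (ha : a ∣ W) (D : Finset ℕ)
    (hp : ∀ d ∈ D, ∀ p : ℕ, p.Prime → p ∣ d → (p : ℤ) ∣ (a : ℤ) * b' - a' * b → p ∣ W)
    (hD : ∀ d ∈ D, d ≠ 0 ∧ d.Coprime W ∧ q.Coprime d) : ∃ n₁, n₁ ≡ n₀ [MOD q] ∧ ∀ d ∈ D,
      (a' * n₁ + b').Coprime d ∧
        ∀ n, (n ≡ n₀ [MOD q] ∧ d ∣ a * n + b) ↔ n ≡ n₁ [MOD q * d] := by
  have L0 : ∏ d ∈ D, d ≠ 0 := prod_ne_zero_iff.2 fun d hd => (hD d hd).1
  obtain ⟨m, -, hm⟩ := Nat.exists_mul_mod_eq_of_coprime ((∏ d ∈ D, d - 1) * b)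
    (Nat.Coprime.prod_right fun d hd => ((hD d hd).2.1.of_dvd_right ha).symm) L0
  obtain ⟨n₁, h1, h2⟩ := Nat.chineseRemainder
    (Nat.Coprime.prod_right fun d hd => (hD d hd).2.2) n₀ m
  refine ⟨n₁, h1, fun d hd => ?_⟩
  have h3 : d ∣ a * n₁ + b := by
    have := ((h2.mul_left a).trans hm).add_right b
    rw [← add_one_mul, Nat.sub_add_cancel (Nat.one_le_iff_ne_zero.2 L0)] at this
    exact (dvd_prod_of_mem _ hd).trans ((this.dvd_iff dvd_rfl).2 (dvd_mul_right _ _))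
  refine ⟨Nat.coprime_of_dvd fun p pp h4 h5 => ?_, fun n => ?_⟩
  · have := ((Int.natCast_dvd_natCast.2 h4).mul_left a).sub
      ((Int.natCast_dvd_natCast.2 (h5.trans h3)).mul_left a')
    rw [show (a : ℤ) * (a' * n₁ + b' : ℕ) - a' * (a * n₁ + b : ℕ) = a * b' - a' * b by
      push_cast; ring] at this
    exact pp.one_lt.ne' (Nat.eq_one_of_dvd_coprimes (hD d hd).2.1 h5 (hp d hd p pp h5 this))
  · rw [← Nat.modEq_and_modEq_iff_modEq_mul (hD d hd).2.2]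
    refine and_congr ⟨fun h => h.trans h1.symm, fun h => h.trans h1⟩ ⟨fun h => ?_, fun h => ?_⟩
    · exact Nat.ModEq.cancel_left_of_coprime ((hD d hd).2.1.of_dvd_right ha)
        (Nat.ModEq.add_right_cancel' b ((Nat.modEq_zero_iff_dvd.2 h).trans
          (Nat.modEq_zero_iff_dvd.2 h3).symm))
    · exact (((h.mul_left a).add_right b).dvd_iff dvd_rfl).2 h3

theorem klu (hW : WeilStmt) : KLU := by
  intro θ σm σp η hη θ0 θ1 p0 e1 e2 φ h W W0
  obtain ⟨C, C0, hC⟩ := riem h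
  obtain ⟨J, hJ⟩ := exists_nat_ge (4 / η)
  rw [div_le_iff₀ hη] at hJ
  have J0 : J ≠ 0 := by rintro rfl; norm_num at hJ
  obtain ⟨M, M0, hM⟩ := Bd_ex J φ h.smooth (wt_cs h)
  obtain ⟨A, hA⟩ : ∃ A : ℝ, A = C + M + (J + 1 + 4 * W) := ⟨_, rfl⟩
  have A0 : (0 : ℝ) ≤ J + 1 + 4 * W := by positivity
  have hM' : ∀ (J : ℕ) (g : ℝ → ℝ), Bd J M g → Bd J A g := fun J => by
    induction J with
    | zero => exact fun g hg x => (hg x).trans (by linarith)
    | succ J ih => exact fun g hg => ⟨hg.1, ih _ hg.2⟩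
  filter_upwards [log_ev (show 0 < η / 3 by positivity), eventually_ge_atTop 1,
    (tendsto_rpow_atTop hη).eventually_ge_atTop (10 * A ^ 2),
    eventually_ge_atTop (((J ^ J) ^ 2 ^ J : ℕ) : ℝ)]
    with X x1 X1 x2 x3
  intro b b' hb x4 a a' q n₀ D₁ D₂ α α' ha ha' hp hq hqW hqT c1 c2 hD₁ hD₂ hα hα'
  have X0 : 0 < X := by linarith
  have hx : ∀ u v : ℝ, u ≤ v → X ^ u ≤ X ^ v := fun _ _ => Real.rpow_le_rpow_of_exponent_le X1
  have i1 := hx (θ + η * (4 : ℕ)) 1 (by push_cast; linarith)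
  have i2 := hx (θ * (2 : ℕ) + η * (40 : ℕ)) (1 + σm) (by push_cast; linarith)
  have i3 := hx (θ * (7 : ℕ) + σp + η * (40 : ℕ)) (4 : ℕ) (by push_cast; linarith)
  have i4 := hx (4 : ℕ) (η * J) (by push_cast; linarith)
  have i5 := hx (η / 3) η (by linarith)
  have i6 : (X ^ (η / 3)) ^ 3 = X ^ η := by
    rw [← Real.rpow_natCast, ← Real.rpow_mul X0.le]; congr 1; push_cast; ring
  have i7 := hx 0 η hη.le
  simp only [Real.rpow_add X0, Real.rpow_mul_natCast X0.le, Real.rpow_natCast, Real.rpow_one,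
    Real.rpow_zero] at i1 i2 i3 i4 i7
  rw [Real.rpow_sub X0, Real.rpow_one]
  have Y0 := Real.rpow_nonneg X0.le θ
  have Y1 : X ^ θ ≤ X := (hx θ 1 (by linarith)).trans_eq (Real.rpow_one X)
  have s0 := Real.rpow_pos_of_pos X0 σm
  generalize X ^ η = T, X ^ θ = Y, X ^ σm = S₀, X ^ σp = S₁ at *
  have T0 : 0 < T := by linarith
  have hτ : ∀ n : ℕ, n ≤ X ^ 3 → n.divisors.card ≤ T := fun n hn => by
    refine le_of_pow_le_pow_left₀ J0 T0.le (le_trans ?_ i4)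
    have : (n.divisors.card : ℝ) ^ J ≤ ((J ^ J) ^ 2 ^ J : ℕ) * n := by exact_mod_cast tau_pow J0 n
    refine this.trans ((mul_le_mul x3 hn (by positivity) X0.le).trans (le_of_eq (by ring)))
  obtain ⟨L, hL⟩ : ∃ L, L = Nat.log 2 ⌊X⌋₊ + 1 := ⟨_, rfl⟩
  have L1 : (L : ℝ) ^ 3 ≤ T := by
    rw [← i6]
    refine pow_le_pow_left₀ (by positivity) (le_trans ?_ x1) 3
    have a1 : ((2 ^ Nat.log 2 ⌊X⌋₊ : ℕ) : ℝ) ≤ X := le_trans (Nat.cast_le.2
      (Nat.pow_log_le_self 2 (Nat.floor_pos.2 X1).ne')) (Nat.floor_le X0.le)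
    have a2 := Real.log_le_log (by positivity) a1
    rw [hL]; push_cast at a2 ⊢
    rw [Real.log_pow] at a2
    nlinarith [Real.log_two_gt_d9, Nat.cast_nonneg (α := ℝ) (Nat.log 2 ⌊X⌋₊)]
  rw [← sum_filter_of_ne (p := fun d => q.Coprime d) fun d _ hd => by_contra fun h' =>
    hd (sum_eq_zero fun d' _ => by rw [rem_zero c1 h', mul_zero])]
  obtain ⟨n₁, n1, n2⟩ := resid' (n₀ := n₀) ha (D₁.filter fun d => q.Coprime d)
    (fun d hd => hp d (mem_filter.1 hd).1) fun d hd =>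
    ⟨(hD₁ d (mem_filter.1 hd).1).1.ne_zero, (hD₁ d (mem_filter.1 hd).1).2.1, (mem_filter.1 hd).2⟩
  choose! σ σ1 σ2 σ3 using fun d hd => (hD₁ d hd).2.2.2
  obtain ⟨P, hP⟩ : ∃ P, P = (D₁.filter fun d => q.Coprime d).image fun d => (d / σ d, σ d) :=
    ⟨_, rfl⟩
  have σ4 : ∀ d ∈ D₁.filter fun d => q.Coprime d, d / σ d * σ d = d := fun d hd =>
    Nat.div_mul_cancel (σ1 d (mem_filter.1 hd).1)
  have e : ∀ g : ℕ → ℝ, ∑ d ∈ D₁.filter fun d => q.Coprime d, g d = ∑ p ∈ P, g (p.1 * p.2) :=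
    fun g => by
      rw [hP, sum_image fun d hd d' hd' e =>
        (σ4 d hd).symm.trans ((congrArg (fun p : ℕ × ℕ => p.1 * p.2) e).trans (σ4 d' hd'))]
      exact sum_congr rfl fun d hd => by rw [σ4 d hd]
  have hP' : ∀ p ∈ P, p.1 * p.2 ∈ (D₁.filter fun d => q.Coprime d) ∧ S₀ ≤ p.2 ∧ p.2 ≤ S₁ := by
    intro p hp
    obtain ⟨d, hd, rfl⟩ := mem_image.1 (hP ▸ hp)
    exact ⟨by rwa [σ4 d hd], σ2 d (mem_filter.1 hd).1, σ3 d (mem_filter.1 hd).1⟩
  have hP0 : ∀ p ∈ P, p.1 ≠ 0 ∧ p.2 ≠ 0 := fun p hp =>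
    mul_ne_zero_iff.1 (hD₁ _ (mem_filter.1 (hP' p hp).1).1).1.ne_zero
  have hPY : ∀ p ∈ P, ((p.1 * p.2 : ℕ) : ℝ) ≤ Y := fun p hp =>
    (hD₁ _ (mem_filter.1 (hP' p hp).1).1).2.2.1
  rw [e, ← sum_fiberwise_of_maps_to (t := range L ×ˢ range L)
    (g := fun p => (Nat.log 2 p.1, Nat.log 2 p.2)) fun p hp => mem_product.2
      ⟨log_lt hL (le_trans (Nat.cast_le.2 (Nat.le_mul_of_pos_right _ (hP0 p hp).2.bot_lt))
        ((hPY p hp).trans Y1)), log_lt hL (le_trans (Nat.cast_le.2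
          (Nat.le_mul_of_pos_left _ (hP0 p hp).1.bot_lt)) ((hPY p hp).trans Y1))⟩]
  simp only [← sum_fiberwise_of_maps_to (s := D₂) (t := range L) (g := Nat.log 2)
    fun d hd => log_lt hL ((hD₂ d hd).2.2.trans Y1)]
  have bx : ∀ {n i : ℕ}, n ≠ 0 → Nat.log 2 n = i → 2 ^ i ≤ n ∧ n < 2 * 2 ^ i := fun h0 hi =>
    hi ▸ ⟨Nat.pow_log_le_self 2 h0, by rw [← pow_succ']; exact Nat.lt_pow_succ_log_self one_lt_two _⟩
  refine (abs_sum_le_sum_abs _ _).trans ((sum_le_card_nsmul _ _ (L * (X / T ^ 2)) fun ij _ => ?_).trans ?_)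
  swap
  · rw [card_product, card_range, nsmul_eq_mul]
    push_cast
    calc _ = L ^ 3 * (X / T ^ 2) := by ring
      _ ≤ T * (X / T ^ 2) := by gcongr
      _ = _ := by field_simp
  rw [sum_comm]
  refine (abs_sum_le_sum_abs _ _).trans ((sum_le_card_nsmul _ _ (X / T ^ 2) fun l _ => ?_).trans
    (by simp))
  rcases (P.filter fun p => (Nat.log 2 p.1, Nat.log 2 p.2) = ij).eq_empty_or_nonempty with
    z | ⟨p, hp⟩
  · rw [z]; simp only [sum_empty, abs_zero]; positivity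
  rcases (D₂.filter fun d => Nat.log 2 d = l).eq_empty_or_nonempty with z | ⟨d, hd⟩
  · rw [z]; simp only [sum_empty, sum_const_zero, abs_zero]; positivity
  obtain ⟨p1, p2⟩ := mem_filter.1 hp
  obtain ⟨d1, d2⟩ := mem_filter.1 hd
  have r1 := Nat.cast_le (α := ℝ).2 (bx (hP0 p p1).1 (Prod.ext_iff.1 p2).1).1
  have r2 := Nat.cast_le (α := ℝ).2 (bx (hP0 p p1).2 (Prod.ext_iff.1 p2).2).1
  have r3 := Nat.cast_le (α := ℝ).2 (bx (hP0 p p1).2 (Prod.ext_iff.1 p2).2).2.le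
  have r4 := (Nat.cast_le (α := ℝ).2 (bx (hD₂ d d1).1.ne' d2).1).trans (hD₂ d d1).2.2
  have r5 : ((2 ^ ij.1 : ℕ) : ℝ) * (2 ^ ij.2 : ℕ) ≤ Y :=
    (mul_le_mul r1 r2 (by positivity) (by positivity)).trans (by exact_mod_cast hPY p p1)
  have r6 := r2.trans (hP' p p1).2.2
  have r7 := (hP' p p1).2.1.trans r3
  have a0 : a' ≠ 0 := ne_zero_of_dvd_ne_zero W0.ne' ha'
  refine box hW h (hM' J φ hM) (fun l μ N h1 h2 h3 => (hC l μ N h1 h2 h3).trans (by linarith))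
    (R := 2 ^ ij.1) (S := 2 ^ ij.2) (D := 2 ^ l) (n₁ := n₁) (hb.of_dvd_right ha') x4 a0
    (by linarith [Nat.cast_le (α := ℝ).2 (Nat.le_of_dvd W0 ha')]) x2 i4
    (by rw [Real.log_pow]; push_cast; linarith) hτ hq (hqW.of_dvd_right ha').symm
    (((n1.mul_left a').add_right b').gcd_eq.trans c2.symm) hqT (by positivity) (by positivity)
    (by positivity) (le_trans (by gcongr) i1) (le_trans (by gcongr) i1) ?_ ?_ ?_
    (fun p hp => ?_) (fun d hd => ?_) hα hα'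
  · refine le_of_mul_le_mul_right ?_ (show (0 : ℝ) < (2 ^ ij.2 : ℕ) by positivity)
    rw [Nat.cast_mul 2, Nat.cast_ofNat] at r7
    calc _ = (2 ^ l : ℕ) * ((2 ^ ij.1 : ℕ) * (2 ^ ij.2 : ℕ)) * T ^ 40 := by ring
      _ ≤ Y * Y * T ^ 40 := by gcongr
      _ ≤ X * (2 * (2 ^ ij.2 : ℕ)) := (by rwa [← sq] : _ ≤ X * S₀).trans (by gcongr)
      _ = _ := by ring
  · calc _ ≤ Y ^ 4 * Y ^ 3 * S₁ * T ^ 40 := by gcongr
      _ ≤ _ := by rwa [← pow_add]
  · calc _ ≤ Y ^ 2 * Y ^ 5 * S₁ * T ^ 40 := by gcongr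
      _ ≤ _ := by rwa [← pow_add]
  · obtain ⟨p1, p2⟩ := mem_filter.1 hp
    obtain ⟨u1, u2⟩ := bx (hP0 p p1).1 (Prod.ext_iff.1 p2).1
    obtain ⟨u3, u4⟩ := bx (hP0 p p1).2 (Prod.ext_iff.1 p2).2
    obtain ⟨u5, u6⟩ := mem_filter.1 (hP' p p1).1
    exact ⟨u1, u2.le, u3, u4.le, ⟨(hD₁ _ u5).1, Nat.Coprime.mul_left
      ((hD₁ _ u5).2.1.of_dvd_right ha').symm u6, (n2 _ (hP' p p1).1).1⟩, (n2 _ (hP' p p1).1).2⟩
  · obtain ⟨d1, d2⟩ := mem_filter.1 hd
    obtain ⟨u1, u2⟩ := bx (hD₂ d d1).1.ne' d2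
    exact ⟨u1, by omega, (hD₂ d d1).2.1.of_dvd_right ha'⟩

end Pool.Agent.MP_678834_nt.RO

end MrgPart1

-- ======== part 2: formerly Pool.Agent.MP_678834_nt.ro.Pair
section MrgPart2

/-!
# The two point function of the majorant beyond the square root level
-/

namespace Pool.Agent.MP_678834_nt.RO

open Finset Function Pool.Agent.MP_39a890_nt Pool.Agent.MP_39a890_nt.Core
  Pool.Agent.MP_39a890_nt.Sums

set_option linter.unusedSectionVars false

variable {ι : Type} [Fintype ι] [DecidableEq ι] {pr : ι → ℕ} {W : ℕ} {Y : ℝ} {Δ : Finset ι}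
variable {φ : ℝ → ℝ} {L δ ε C ε₁ : ℝ} {rh : Finset ι → ℝ}

/-- coefficient of a pair of sieve variables -/
def r2 (rh : Finset ι → ℝ) (y : Finset ι × Finset ι) : ℝ := rh y.1 * rh y.2

theorem fiber' (h : PS pr W Y) (hr : ∀ e, |rh e| ≤ 2 ^ e.card) (hε₁ : 0 ≤ ε₁) (h16 : ∀ p, (16 : ℝ) ≤ (pr p : ℝ) ^ ε₁)
    (Q : Finset (Finset ι × Finset ι)) (hQ : ∀ y ∈ Q, lv pr (y.1 ∪ y.2) ≤ L) :
    ∃ α : ℕ → ℝ, (∀ d, |α d| ≤ 1) ∧ ∀ F : ℕ → ℝ, ∑ y ∈ Q, r2 rh y * F (uu pr y) =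
      Real.exp (ε₁ * L) * ∑ d ∈ Q.image (uu pr), α d * F d := by
  have hE := Real.exp_pos (ε₁ * L)
  refine ⟨fun d => (∑ y ∈ Q.filter (uu pr · = d), r2 rh y) / Real.exp (ε₁ * L), fun d => ?_,
    fun F => ?_⟩
  · rw [abs_div, abs_of_pos hE, div_le_one hE]
    rcases (Q.filter (uu pr · = d)).eq_empty_or_nonempty with h0 | ⟨y0, hy0⟩
    · simp [h0, hE.le]
    obtain ⟨b1, b2⟩ := mem_filter.1 hy0
    set U := y0.1 ∪ y0.2 with hU
    have hsub : ∀ y ∈ Q.filter (uu pr · = d), y.1 ⊆ U ∧ y.2 ⊆ U := fun y hy => by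
      have e : y.1 ∪ y.2 = U := val_inj h ((mem_filter.1 hy).2.trans b2.symm)
      exact ⟨e ▸ subset_union_left, e ▸ subset_union_right⟩
    have hc : ((Q.filter (uu pr · = d)).card : ℝ) ≤ 2 ^ U.card * 2 ^ U.card := by
      have : (Q.filter (uu pr · = d)).card ≤ (U.powerset ×ˢ U.powerset).card :=
        card_le_card fun y hy => by simpa only [mem_product, mem_powerset] using hsub y hy
      rw [card_product, card_powerset] at this
      exact_mod_cast this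
    have h2 : ∀ e ⊆ U, |rh e| ≤ 2 ^ U.card := fun e he =>
      (hr e).trans (pow_le_pow_right₀ one_le_two (card_le_card he))
    refine (abs_sum_le_sum_abs _ _).trans ((sum_le_card_nsmul _ _ (2 ^ U.card * 2 ^ U.card)
      fun y hy => ?_).trans ?_)
    · rw [r2, abs_mul]
      exact mul_le_mul (h2 _ (hsub y hy).1) (h2 _ (hsub y hy).2) (abs_nonneg _) (by positivity)
    · rw [nsmul_eq_mul]
      refine (mul_le_mul_of_nonneg_right hc (by positivity)).trans (le_trans (le_of_eq ?_)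
        ((pow_card_le h h16 U).trans
          (Real.exp_le_exp.2 (mul_le_mul_of_nonneg_left (hQ y0 b1) hε₁))))
      rw [← mul_pow, ← mul_pow]; norm_num
  · rw [← sum_fiberwise_of_maps_to (g := uu pr) (t := Q.image (uu pr))
      fun x hx => mem_image_of_mem _ hx, mul_sum]
    refine sum_congr rfl fun d _ => ?_
    rw [← mul_assoc, mul_div_cancel₀ _ hE.ne', sum_mul]
    exact sum_congr rfl fun y hy => by rw [(mem_filter.1 hy).2]

theorem bil' (h : PS pr W Y) (hr : ∀ e, |rh e| ≤ 2 ^ e.card) (hL : 0 ≤ L) (hε₁ : 0 ≤ ε₁)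
    (h16 : ∀ p, (16 : ℝ) ≤ (pr p : ℝ) ^ ε₁) {θ σm σp η : ℝ} (hθ : θ ≤ 1) (hη : 0 ≤ η) {c c' : ℕ}
    (hK : KLu θ σm σp η φ W (Real.exp L)) (h1 : c'.Coprime W) (h2 : (c' : ℝ) ≤ Real.exp L)
    (hs : ∀ p, p ∉ Δ → ¬ (pr p : ℤ) ∣ (c' : ℤ) - c) (Q Q' : Finset (Finset ι × Finset ι))
    (hQ : ∀ y ∈ Q, lv pr (y.1 ∪ y.2) ≤ θ * L ∧
      ∃ s ⊆ y.1 ∪ y.2, σm * L ≤ lv pr s ∧ lv pr s ≤ σp * L)
    (hQ' : ∀ y ∈ Q', lv pr (y.1 ∪ y.2) ≤ θ * L) (hΔ : ∀ y ∈ Q, Disjoint (y.1 ∪ y.2) Δ) :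
    |∑ y ∈ Q, ∑ y' ∈ Q', r2 rh y * r2 rh y' *
      remC φ (Real.exp L) W c W c' 1 0 (uu pr y) (uu pr y')| ≤
      Real.exp (ε₁ * L) ^ 2 * Real.exp L ^ (1 - η) := by
  have hθL : θ * L ≤ L := mul_le_of_le_one_left hL hθ
  obtain ⟨α, a1, a2⟩ := fiber' h hr hε₁ h16 Q fun y hy => (hQ y hy).1.trans hθL
  obtain ⟨α', b1, b2⟩ := fiber' h hr hε₁ h16 Q' fun y hy => (hQ' y hy).trans hθL
  have key := hK c c' h1 h2 W W 1 0 (Q.image (uu pr)) (Q'.image (uu pr)) α α' dvd_rfl dvd_rfl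
    (fun d hd p pp e1 e2 => by
      obtain ⟨y, hy, rfl⟩ := mem_image.1 hd
      obtain ⟨q, hq, e3⟩ := (pp.prime.dvd_finsetProd_iff _).1 e1
      obtain rfl := (Nat.prime_dvd_prime_iff_eq pp (h.prime q)).1 e3
      rw [← mul_sub] at e2
      exact Int.natCast_dvd_natCast.1 (((Nat.prime_iff_prime_int.1 pp).dvd_or_dvd e2).resolve_right
        (hs q (disjoint_left.1 (hΔ y hy) hq))))
    squarefree_one (Nat.coprime_one_left W)
    (by rw [Nat.cast_one]; exact Real.one_le_rpow (Real.one_le_exp hL) hη)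
    (Nat.coprime_one_left _) (Nat.coprime_one_left _)
    (fun d hd => by
      obtain ⟨y, hy, rfl⟩ := mem_image.1 hd
      obtain ⟨d1, s, d2, d3, d4⟩ := hQ y hy
      exact ⟨squarefree_val h _, coprime_val_W h _, val_le_rpow h d1, val pr s, val_dvd_val d2,
        rpow_le_val h d3, val_le_rpow h d4⟩)
    (fun d hd => by
      obtain ⟨y, hy, rfl⟩ := mem_image.1 hd
      exact ⟨val_pos h _, coprime_val_W h _, val_le_rpow h (hQ' y hy)⟩) a1 b1
  simp_rw [mul_assoc, ← mul_sum, b2] at key ⊢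
  rw [a2 fun d => Real.exp (ε₁ * L) * ∑ d' ∈ Q'.image (uu pr),
    α' d' * remC φ (Real.exp L) W c W c' 1 0 d d']
  simp_rw [mul_left_comm _ (Real.exp (ε₁ * L)), ← mul_sum]
  rw [← mul_assoc, ← sq, abs_mul, abs_of_nonneg (sq_nonneg _)]
  exact mul_le_mul_of_nonneg_left key (sq_nonneg _)

theorem sum_rho_le' (h : PS pr W Y) (hr : ∀ e, |rh e| ≤ 2 ^ e.card) (hε₁ : 0 ≤ ε₁)
    (h16 : ∀ p, (16 : ℝ) ≤ (pr p : ℝ) ^ ε₁) (Λ : ℝ) (Q : Finset (Finset ι × Finset ι))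
    (hQ : ∀ y ∈ Q, lv pr y.1 ≤ Λ ∧ lv pr y.2 ≤ Λ) :
    ∑ y ∈ Q, |r2 rh y| ≤ Real.exp ((1 + ε₁) * (2 * Λ)) := by
  set S := univ.filter fun u => lv pr u ≤ Λ with hS
  have h1 : ∑ e ∈ S, |rh e| ≤ Real.exp ((1 + ε₁) * Λ) := by
    refine (sum_le_card_nsmul _ _ (Real.exp (ε₁ * Λ)) fun e he => ?_).trans ?_
    · exact (hr e).trans ((pow_le_pow_left₀ zero_le_two (by norm_num) _).trans
        ((pow_card_le h h16 e).trans
          (Real.exp_le_exp.2 (mul_le_mul_of_nonneg_left (mem_filter.1 he).2 hε₁))))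
    · rw [nsmul_eq_mul, add_mul, one_mul, Real.exp_add]
      exact mul_le_mul_of_nonneg_right (card_lv_le h Λ) (Real.exp_pos _).le
  refine (sum_le_sum_of_subset_of_nonneg (t := S ×ˢ S) (fun y hy => ?_)
    fun _ _ _ => abs_nonneg _).trans ?_
  · simpa [hS] using hQ y hy
  · simp_rw [sum_product, r2, abs_mul]
    rw [← sum_mul_sum, mul_left_comm, two_mul, Real.exp_add]
    exact mul_le_mul h1 h1 (sum_nonneg fun _ _ => abs_nonneg _) (Real.exp_pos _).le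

/-- the bilinear input -/
structure KLin' (φ : ℝ → ℝ) (W : ℕ) (X : ℝ) : Prop where
  k1 : KLu (533 / 1000) (68 / 1000) (2665 / 10000) (1 / 20000) φ W X
  k2 : KLu (544 / 1000) (95 / 1000) (19 / 100) (1 / 20000) φ W X

theorem bil_all' (h : PS pr W Y) (hr : ∀ e, |rh e| ≤ 2 ^ e.card) (hL : 0 < L) (hε₁ : 0 ≤ ε₁)
    (hε₂ : ε₁ ≤ 1 / 25) (h16 : ∀ p, (16 : ℝ) ≤ (pr p : ℝ) ^ ε₁) {c c' : ℕ}
    (hK : KLin' φ W (Real.exp L)) (h1 : c.Coprime W) (h2 : (c : ℝ) ≤ Real.exp L)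
    (h1' : c'.Coprime W) (h2' : (c' : ℝ) ≤ Real.exp L)
    (hs : ∀ p, p ∉ Δ → ¬ (pr p : ℤ) ∣ (c' : ℤ) - c) (hC0 : 0 ≤ C) (E : Finset (Finset ι))
    (hE : E ⊆ EE pr L) (hD : ∀ u ∈ E, Disjoint u Δ)
    (hC : ∀ y ∈ E ×ˢ E, ∀ y' ∈ E ×ˢ E, |remC φ (Real.exp L) W c W c' 1 0 (uu pr y) (uu pr y')| ≤ C) :
    |∑ y ∈ E ×ˢ E, ∑ y' ∈ E ×ˢ E, r2 rh y * r2 rh y' *
      remC φ (Real.exp L) W c W c' 1 0 (uu pr y) (uu pr y')| ≤ errB L ε₁ C := by
  have hs' : ∀ p, p ∉ Δ → ¬ (pr p : ℤ) ∣ (c : ℤ) - c' := fun p hp hd => hs p hp (dvd_sub_comm.1 hd)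
  have hD' : ∀ y ∈ E ×ˢ E, Disjoint (y.1 ∪ y.2) Δ := fun y hy =>
    disjoint_union_left.2 ⟨hD _ (mem_product.1 hy).1, hD _ (mem_product.1 hy).2⟩
  set P := E ×ˢ E with hP
  set sm : Finset ι × Finset ι → Prop := fun y =>
    lv pr y.1 ≤ 2665 / 10000 * L ∧ lv pr y.2 ≤ 2665 / 10000 * L with hsm
  set ti : Finset ι × Finset ι → Prop := fun y =>
    lv pr y.1 ≤ 68 / 1000 * L ∧ lv pr y.2 ≤ 68 / 1000 * L with hti
  have hP1 : ∀ y ∈ P, lv pr (y.1 ∪ y.2) ≤ 544 / 1000 * L := fun y hy => by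
    have := lv_union_le h y.1 y.2
    linarith [lv_of_EE (hE (mem_product.1 hy).1), lv_of_EE (hE (mem_product.1 hy).2)]
  have hS1 : ∀ y ∈ P.filter sm, lv pr (y.1 ∪ y.2) ≤ 533 / 1000 * L := fun y hy => by
    have := lv_union_le h y.1 y.2
    linarith [(mem_filter.1 hy).2.1, (mem_filter.1 hy).2.2]
  have hg : ∀ e ∈ EE pr L, ¬ lv pr e ≤ 2665 / 10000 * L →
      ∃ s ⊆ e, 95 / 1000 * L ≤ lv pr s ∧ lv pr s ≤ 19 / 100 * L := fun e he h1 => by
    obtain ⟨s, a1, a2, a3⟩ := greedy h (by positivity : 0 < 95 / 1000 * L) e (by linarith)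
      fun p hp => by linarith [(mem_filter.1 he).2.2.resolve_left h1 p hp]
    exact ⟨s, a1, a2, by linarith⟩
  have hB : ∀ y ∈ P.filter fun y => ¬ sm y, lv pr (y.1 ∪ y.2) ≤ 544 / 1000 * L ∧
      ∃ s ⊆ y.1 ∪ y.2, 95 / 1000 * L ≤ lv pr s ∧ lv pr s ≤ 19 / 100 * L := fun y hy => by
    obtain ⟨a1, a2⟩ := mem_filter.1 hy
    refine ⟨hP1 y a1, ?_⟩
    rcases not_and_or.1 a2 with a2 | a2
    · obtain ⟨s, b1, b2⟩ := hg _ (hE (mem_product.1 a1).1) a2
      exact ⟨s, b1.trans subset_union_left, b2⟩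
    · obtain ⟨s, b1, b2⟩ := hg _ (hE (mem_product.1 a1).2) a2
      exact ⟨s, b1.trans subset_union_right, b2⟩
  have e1 := bil' h hr hL.le hε₁ h16 (by norm_num) (by norm_num) hK.k2 h1' h2' hs _ P hB hP1
    fun y hy => hD' y (mem_filter.1 hy).1
  have e2 := bil' h hr hL.le hε₁ h16 (by norm_num) (by norm_num) hK.k2 h1 h2 hs' _ (P.filter sm) hB
    (fun y hy => hP1 y (mem_filter.1 hy).1) fun y hy => hD' y (mem_filter.1 hy).1
  have e3 := bil' h hr hL.le hε₁ h16 (by norm_num) (by norm_num) hK.k1 h1' h2' hs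
    ((P.filter sm).filter fun y => ¬ ti y) (P.filter sm) (fun y hy => by
      obtain ⟨a1, a2⟩ := mem_filter.1 hy
      refine ⟨hS1 y a1, ?_⟩
      rcases not_and_or.1 a2 with a2 | a2
      · exact ⟨_, subset_union_left, (not_le.1 a2).le, (mem_filter.1 a1).2.1⟩
      · exact ⟨_, subset_union_right, (not_le.1 a2).le, (mem_filter.1 a1).2.2⟩) hS1
    fun y hy => hD' y (mem_filter.1 (mem_filter.1 hy).1).1
  rw [sum_comm] at e2
  simp_rw [remC_swap _ W c', mul_comm (r2 rh _) (r2 rh _)] at e2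
  set f : Finset ι × Finset ι → Finset ι × Finset ι → ℝ := fun y y' => r2 rh y * r2 rh y' *
    remC φ (Real.exp L) W c W c' 1 0 (uu pr y) (uu pr y') with hf
  have e4 : |∑ y ∈ (P.filter sm).filter ti, ∑ y' ∈ P.filter sm, f y y'| ≤
      C * Real.exp (7 / 10 * L) := by
    have d1 := sum_rho_le' h hr hε₁ h16 _ ((P.filter sm).filter ti) fun y hy => (mem_filter.1 hy).2
    have d2 := sum_rho_le' h hr hε₁ h16 _ (P.filter sm) fun y hy => (mem_filter.1 hy).2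
    have d3 := mul_le_mul d1 d2 (sum_nonneg fun _ _ => abs_nonneg _) (Real.exp_pos _).le
    rw [← Real.exp_add, sum_mul_sum] at d3
    refine (abs_sum_le_sum_abs _ _).trans (le_trans ?_ (mul_le_mul_of_nonneg_left
      (d3.trans (Real.exp_le_exp.2 (by nlinarith))) hC0))
    rw [mul_sum]
    refine sum_le_sum fun y hy => (abs_sum_le_sum_abs _ _).trans ?_
    rw [mul_sum]
    refine sum_le_sum fun y' hy' => ?_
    rw [hf, abs_mul, abs_mul, mul_comm]
    exact mul_le_mul_of_nonneg_right (hC y (mem_filter.1 (mem_filter.1 hy).1).1 y'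
      (mem_filter.1 hy').1) (by positivity)
  have e5 : ∑ y ∈ P, ∑ y' ∈ P, f y y' =
      ∑ y ∈ (P.filter sm).filter ti, ∑ y' ∈ P.filter sm, f y y' +
      ∑ y ∈ (P.filter sm).filter (fun y => ¬ ti y), ∑ y' ∈ P.filter sm, f y y' +
      ∑ y ∈ P.filter sm, ∑ y' ∈ P.filter (fun y => ¬ sm y), f y y' +
      ∑ y ∈ P.filter (fun y => ¬ sm y), ∑ y' ∈ P, f y y' := by
    rw [sum_filter_add_sum_filter_not, ← sum_add_distrib]
    simp_rw [sum_filter_add_sum_filter_not]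
  rw [e5, errB]
  refine (abs_add_le _ _).trans ((add_le_add ((abs_add_le _ _).trans
    (add_le_add ((abs_add_le _ _).trans (add_le_add e4 e3)) e2)) e1).trans (le_of_eq ?_))
  ring

theorem Cx.pair (h : Cx pr W φ (Real.exp L) L ε C) {b : Fin 2 → ℕ} (hs : Sep pr b Δ)
    (hΔ : ∀ p ∈ Δ, Real.log (pr p) ≤ δ * L) (hε₁ : 0 ≤ ε₁) (hε₂ : ε₁ ≤ 1 / 25)
    (h16 : ∀ p, (16 : ℝ) ≤ (pr p : ℝ) ^ ε₁) (hK : KLin' φ W (Real.exp L))
    (h1 : ∀ k, (b k).Coprime W) (h2 : ∀ k, (b k : ℝ) ≤ Real.exp L) :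
    ∑ n ∈ NN (Real.exp L), φ (n / Real.exp L) *
      (Ym pr L δ (W * n + b 0) * Ym pr L δ (W * n + b 1)) ≤ (∏ q ∈ Δ, (1 + tt pr q)) ^ 4 *
        ((1 + ε) * ((Real.exp L * ∫ u, φ u) * (1 / GG pr L) ^ 2) + errB L ε₁ C) := by
  have hL := h.l0.le
  obtain ⟨η, hη, a1⟩ := strip h.ps hL hs hΔ
  have a3 := mul_le_mul_of_nonneg_left (model (κ := Fin 2) h.ps hL hη h.ε0
    (h.s1' cK_nonneg (by norm_num [cK, eK]))) h.mass
  simp only [Fin.prod_univ_two, Fintype.card_fin, V_PM] at a1 a3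
  set rh := rho (tt pr) η with hrh
  have hr : ∀ e, |rh e| ≤ 2 ^ e.card := fun e => by
    have hG := one_le_GG h.ps hL
    have b1 := sum_abs_cf_le (tt pr) (fun p => (tt_pos h.ps p).le) (tt_le_one h.ps) (EE pr L)
      (EE_down h.ps L) e
    refine (abs_sum_le_sum_abs _ _).trans ((sum_le_sum (g := fun u => eta pr L u * |cf (tt pr) u e|)
      fun u _ => ?_).trans ?_)
    · rw [abs_mul, abs_of_nonneg (hη.h0 u)]
      exact mul_le_mul_of_nonneg_right (hη.le u) (abs_nonneg _)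
    · simp only [eta, ite_mul, zero_mul, sum_ite_mem, univ_inter]
      rwa [← mul_sum, one_div, inv_mul_le_iff₀ (by linarith), mul_comm]
  set E := (EE pr L).filter (Disjoint · Δ) with hE
  have sq' : ∀ (i : Fin 2) w, sig (tt pr) η i w ^ 2 =
      ∑ y ∈ E ×ˢ E, r2 rh y * ind1 (y.1 ∪ y.2) i w := fun i w => by
    have e : sig (tt pr) η i w = ∑ e ∈ E, rh e * ind1 e i w := by
      rw [sig_eq]
      refine (sum_subset (subset_univ _) fun e _ he => ?_).symm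
      by_contra c1
      obtain ⟨u, c2, c3⟩ := rho_supp (left_ne_zero_of_mul c1)
      exact he (mem_filter.2 ⟨EE_down h.ps L u (hη.mem c2) e c3, (hη.dis u c2).mono_left c3⟩)
    rw [e, sq, sum_mul_sum, sum_product]
    exact sum_congr rfl fun e _ => sum_congr rfl fun f _ => by rw [← ind1_mul, r2]; ring
  have hD : ∀ y ∈ E ×ˢ E, Disjoint (y.1 ∪ y.2) Δ := fun y hy => disjoint_union_left.2
    ⟨(mem_filter.1 (mem_product.1 hy).1).2, (mem_filter.1 (mem_product.1 hy).2).2⟩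
  have rm : ∀ e f : Finset ι, Disjoint e Δ → Disjoint f Δ →
      Rm (NN (Real.exp L)) (μU φ (Real.exp L)) (st pr W b) (Real.exp L * ∫ u, φ u) (πU pr) ![e, f] =
        remC φ (Real.exp L) W (b 0) W (b 1) 1 0 (val pr e) (val pr f) := fun e f he hf => by
    rw [Rm, remC]
    congr 1
    · refine sum_congr rfl fun n _ => ?_
      simp only [ind, Fin.prod_univ_two, Matrix.cons_val_zero, Matrix.cons_val_one,
        ind1_st h.ps hs he, ind1_st h.ps hs hf, μU, Nat.modEq_one, true_and,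
        mul_ite, mul_one, mul_zero, ← ite_and, and_comm]
    · have hF : Fn ![e, f] ↔ Disjoint e f := by
        simp [Fn, Fin.forall_fin_two, disjoint_comm]
      simp only [Nat.coprime_one_left_iff, true_and, coprime_val_val h.ps]
      split_ifs with hc
      · rw [Ex_ind (meas_U h.ps).sum (hF.2 hc)]
        simp [πU, cast_val, div_eq_mul_inv, mul_comm]
      · rw [Ex_ind_of_not_Fn _ fun c => hc (hF.1 c), mul_zero]
  have a2 := Core.disc (NN (Real.exp L)) (μU φ (Real.exp L)) (st pr W b) (Real.exp L * ∫ u, φ u)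
    (πU pr) ((E ×ˢ E) ×ˢ (E ×ˢ E)) (fun y => r2 rh y.1 * r2 rh y.2)
    (fun y => ![y.1.1 ∪ y.1.2, y.2.1 ∪ y.2.2])
    (fun w => (sig (tt pr) η 0 w * sig (tt pr) η 1 w) ^ 2) fun w => by
      rw [mul_pow, sq', sq', sum_mul_sum, sum_product (E ×ˢ E)]
      refine sum_congr rfl fun y _ => sum_congr rfl fun y' _ => ?_
      simp only [ind, Fin.prod_univ_two, Matrix.cons_val_zero, Matrix.cons_val_one]
      ring
  have a4 := (abs_le.1 (bil_all' h.ps hr h.l0 hε₁ hε₂ h16 hK (h1 0) (h2 0) (h1 1) (h2 1)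
    (fun p hp => hs p hp 0 1 (by decide)) h.C0 E (filter_subset _ _)
    (fun u hu => (mem_filter.1 hu).2) fun y hy y' hy' => by
      rw [uu, uu, ← rm _ _ (hD y hy) (hD y' hy')]
      exact Rm_st h.ps hs h.C0 h.cnt _ (Fin.forall_fin_two.2 ⟨hD y hy, hD y' hy'⟩))).2
  rw [sum_product, sum_congr rfl fun y hy => sum_congr rfl fun y' hy' => by
    rw [rm _ _ (hD y hy) (hD y' hy')]] at a2
  refine (sum_le_sum fun n _ => mul_le_mul_of_nonneg_left (a1 n) (h.wt.nonneg _)).trans ?_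
  simp_rw [mul_left_comm (φ _)]
  rw [← mul_sum]
  refine mul_le_mul_of_nonneg_left ?_ (Even.pow_nonneg (by decide) _)
  unfold Sm μU at a2
  unfold uu at a4
  linarith

end Pool.Agent.MP_678834_nt.RO

end MrgPart2

-- ======== part 3: formerly Pool.Agent.MP_678834_nt.ro.Sing
section MrgPart3

/-!
# The local factors on average, and primes in a class uniformly in the shift
-/

namespace Pool.Agent.MP_678834_nt.RO

open Finset Function Filter Pool.Agent.MP_39a890_nt Pool.Agent.MP_39a890_nt.Core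
  Pool.Agent.MP_39a890_nt.Sums

set_option linter.unusedSectionVars false

variable {ι : Type} [Fintype ι] [DecidableEq ι] {pr : ι → ℕ} {W : ℕ} {Y : ℝ}

/-- the primes that divide a difference -/
def Dv (pr : ι → ℕ) (a b : ℕ) : Finset ι := univ.filter fun p => (pr p : ℤ) ∣ (a : ℤ) - b

/-- the excess of the local factor -/
noncomputable def rs (pr : ι → ℕ) (a b : ℕ) : ℝ :=
  if a = b then 0 else (∏ p ∈ Dv pr a b, (1 + tt pr p)) ^ 96 - 1

theorem one_le_pr (h : PS pr W Y) (s : Finset ι) : 1 ≤ ∏ p ∈ s, (1 + tt pr p) :=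
  le_trans (by simp) (prod_le_prod (f := fun _ => (1 : ℝ)) (fun _ _ => zero_le_one)
    fun p _ => by linarith [tt_pos h p])

theorem rs_nonneg (h : PS pr W Y) (a b : ℕ) : 0 ≤ rs pr a b := by
  unfold rs; split_ifs
  · exact le_rfl
  · exact sub_nonneg.2 (one_le_pow₀ (one_le_pr h _))

theorem val_Dv (h : PS pr W Y) {a b B : ℕ} (hab : a ≠ b) (ha : a ≤ B) (hb : b ≤ B) {u : Finset ι}
    (hu : u ⊆ Dv pr a b) : val pr u ≤ B := by
  have h1 : val pr u ∣ ((a : ℤ) - b).natAbs := (val_dvd_iff h u _).2 fun p hp =>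
    Int.natCast_dvd.1 (mem_filter.1 (hu hp)).2
  have := Nat.le_of_dvd (by omega) h1
  omega

theorem sep4 (h : PS pr W Y) {b : Fin 4 → ℕ} (hb : Injective b) {B : ℕ} (hB : ∀ k, b k ≤ B) :
    ∃ Δ, Sep pr b Δ ∧ (∀ p ∈ Δ, pr p ≤ B) ∧ (∏ q ∈ Δ, (1 + tt pr q)) ^ 8 ≤
      1 + ∑ p ∈ (univ : Finset (Fin 4)).offDiag, rs pr (b p.1) (b p.2) := by
  set O := (univ : Finset (Fin 4)).offDiag with hO
  refine ⟨O.biUnion fun x => Dv pr (b x.1) (b x.2), fun p hp k l hkl hd => hp (mem_biUnion.2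
    ⟨(l, k), by simpa [hO] using hkl.symm, mem_filter.2 ⟨mem_univ _, hd⟩⟩), fun p hp => ?_, ?_⟩
  · obtain ⟨x, hx, h1⟩ := mem_biUnion.1 hp
    simpa [Pool.Agent.MP_39a890_nt.val] using val_Dv h (hb.ne (mem_offDiag.1 hx).2.2) (hB _) (hB _)
      (singleton_subset_iff.2 h1)
  obtain ⟨x, hx, hm⟩ := exists_max_image O (fun x => ∏ p ∈ Dv pr (b x.1) (b x.2), (1 + tt pr p))
    ⟨(0, 1), by decide⟩
  have h1 : ∀ s : Finset (Fin 4 × Fin 4), ∏ q ∈ s.biUnion fun x => Dv pr (b x.1) (b x.2),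
      (1 + tt pr q) ≤ ∏ x ∈ s, ∏ p ∈ Dv pr (b x.1) (b x.2), (1 + tt pr p) := fun s => by
    induction s using Finset.induction_on with
    | empty => simp
    | insert a s ha ih =>
      rw [biUnion_insert, prod_insert ha]
      refine le_trans ?_ (mul_le_mul_of_nonneg_left ih (zero_le_one.trans (one_le_pr h _)))
      rw [← prod_union_inter]
      exact le_mul_of_one_le_right (zero_le_one.trans (one_le_pr h _)) (one_le_pr h _)
  have h2 := (h1 O).trans (prod_le_prod (fun _ _ => zero_le_one.trans (one_le_pr h _)) hm)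
  rw [prod_const, show #O = 12 by decide] at h2
  have h3 := single_le_sum (f := fun p => rs pr (b p.1) (b p.2)) (fun _ _ => rs_nonneg h _ _) hx
  rw [rs, if_neg (hb.ne (mem_offDiag.1 hx).2.2)] at h3
  have h4 := pow_le_pow_left₀ (zero_le_one.trans (one_le_pr h _)) h2 8
  rw [← pow_mul] at h4
  exact h4.trans (sub_le_iff_le_add'.1 h3)

theorem exists_c : ∃ c : ℕ, ∀ t : ℝ, 0 ≤ t → t ≤ 1 → (1 + t) ^ 96 ≤ 1 + c * t := by
  suffices h : ∀ n : ℕ, ∃ c : ℕ, ∀ t : ℝ, 0 ≤ t → t ≤ 1 → (1 + t) ^ n ≤ 1 + c * t from h 96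
  intro n
  induction n with
  | zero => exact ⟨0, fun t _ _ => by simp⟩
  | succ n ih =>
    obtain ⟨c, hc⟩ := ih
    refine ⟨2 * c + 1, fun t h0 h1 => ?_⟩
    have := mul_le_mul_of_nonneg_right (hc t h0 h1) (show 0 ≤ 1 + t by linarith)
    have h2 := mul_le_mul_of_nonneg_left h1 (mul_nonneg (Nat.cast_nonneg c) h0)
    rw [pow_succ]
    push_cast
    nlinarith

theorem card_cong {n : ℕ} (q : ℕ) (S : Finset (Fin n))
    (h : ∀ v ∈ S, ∀ w ∈ S, (v : ℕ) ≡ w [MOD q]) : (#S : ℝ) ≤ n / q + 1 := by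
  have h1 : #S ≤ #(range (n / q + 1)) := card_le_card_of_injOn (fun v => (v : ℕ) / q)
    (fun v _ => mem_coe.2 (mem_range.2 (Nat.lt_succ_of_le (Nat.div_le_div_right v.2.le))))
    fun v hv w hw e => Fin.ext (by
      rw [← Nat.div_add_mod v q, ← Nat.div_add_mod w q, show (v : ℕ) / q = w / q from e,
        show (v : ℕ) % q = w % q from h v hv w hw])
  rw [card_range] at h1
  have h2 : ((n / q : ℕ) : ℝ) ≤ n / q := Nat.cast_div_le
  have h3 : (#S : ℝ) ≤ (n / q : ℕ) + 1 := by exact_mod_cast h1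
  linarith

theorem rs_avg (h : PS pr W Y) {c : ℕ} (hc : ∀ t : ℝ, 0 ≤ t → t ≤ 1 → (1 + t) ^ 96 ≤ 1 + c * t)
    {ε : ℝ} (s1 : ∏ p, (1 + c * tt pr p ^ 2) ≤ 1 + ε)
    (s3 : ∏ p, (1 + 3 / ((pr p : ℝ) * √(pr p : ℝ))) ≤ 2) {β D n b B : ℕ} (hD : ∀ p, ¬ pr p ∣ D)
    (h1 : ∀ v : Fin n, β + D * v ≤ B) (h2 : b ≤ B) :
    ∑ v : Fin n, rs pr (β + D * v) b ≤ ε * n + 2 ^ c * √B := by
  set w : Finset ι → ℝ := fun u => ∏ p ∈ u, c * tt pr p with hw
  have w0 : ∀ u, 0 ≤ w u := fun u => prod_nonneg fun p _ => mul_nonneg c.cast_nonneg (tt_pos h p).le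
  set U := (univ.erase ∅).filter fun u => val pr u ≤ B with hU
  have a1 : ∀ a ≤ B, rs pr a b ≤ ∑ u ∈ U, if u ⊆ Dv pr a b then w u else 0 := fun a ha => by
    unfold rs
    split_ifs with hab
    · exact sum_nonneg fun u _ => by split_ifs; exacts [w0 u, le_rfl]
    rw [← prod_pow, ← sum_filter, sub_le_iff_le_add']
    refine (prod_le_prod (fun p _ => by positivity)
      fun p _ => hc _ (tt_pos h p).le (tt_le_one h p)).trans ?_
    rw [prod_one_add, ← add_sum_erase _ _ (empty_mem_powerset _), prod_empty]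
    refine add_le_add_right (sum_le_sum_of_subset_of_nonneg (fun u hu => ?_) fun u _ _ => w0 u) _
    obtain ⟨b1, b2⟩ := mem_erase.1 hu
    exact mem_filter.2 ⟨mem_filter.2 ⟨mem_erase.2 ⟨b1, mem_univ _⟩,
      val_Dv h hab ha h2 (mem_powerset.1 b2)⟩, mem_powerset.1 b2⟩
  refine (sum_le_sum fun v _ => a1 _ (h1 v)).trans ?_
  rw [sum_comm]
  have a2 : ∀ u, ∑ v : Fin n, (if u ⊆ Dv pr (β + D * v) b then w u else 0) ≤
      n * (w u / val pr u) + w u := fun u => by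
    rw [← sum_filter, sum_const, nsmul_eq_mul]
    refine (mul_le_mul_of_nonneg_right (card_cong (val pr u) _ fun v hv x hx => ?_) (w0 u)).trans
      (le_of_eq (by ring))
    refine (modEq_val h u _ _).2 fun p hp => Nat.modEq_iff_dvd.2 ?_
    have := dvd_sub (mem_filter.1 ((mem_filter.1 hx).2 hp)).2 (mem_filter.1 ((mem_filter.1 hv).2 hp)).2
    push_cast at this
    rw [show (β + D * x - b - (β + D * v - b) : ℤ) = D * ((x : ℕ) - (v : ℕ)) by ring] at this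
    exact ((Nat.prime_iff_prime_int.1 (h.prime p)).dvd_or_dvd this).resolve_left
      fun e => hD p (Int.natCast_dvd_natCast.1 e)
  refine (sum_le_sum fun u _ => a2 u).trans ?_
  rw [sum_add_distrib, ← mul_sum, mul_comm ε]
  refine add_le_add (mul_le_mul_of_nonneg_left ?_ n.cast_nonneg) ?_
  · have b1 : ∀ u, w u / val pr u ≤ ∏ p ∈ u, c * tt pr p ^ 2 := fun u => by
      rw [cast_val, hw, ← prod_div_distrib]
      refine prod_le_prod (fun p _ => div_nonneg (mul_nonneg c.cast_nonneg (tt_pos h p).le)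
        (Nat.cast_nonneg _)) fun p _ => ?_
      rw [sq, mul_div_assoc, div_eq_mul_one_div]
      have := two_le h p
      exact mul_le_mul_of_nonneg_left (mul_le_mul_of_nonneg_left (one_div_le_one_div_of_le
        (by linarith) (by linarith)) (tt_pos h p).le) c.cast_nonneg
    rw [← sum_prod_univ, ← add_sum_erase _ _ (mem_univ ∅), prod_empty] at s1
    refine (sum_le_sum fun u _ => b1 u).trans ((sum_le_sum_of_subset_of_nonneg (filter_subset _ _)
      fun u _ _ => prod_nonneg fun p _ => by positivity).trans (by linarith))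
  · have b1 : ∀ u ∈ U, w u ≤ (∏ p ∈ u, c * (3 / ((pr p : ℝ) * √(pr p : ℝ)))) * √B := fun u hu => by
      have c1 : √(val pr u : ℝ) ≤ √B := Real.sqrt_le_sqrt (Nat.cast_le.2 (mem_filter.1 hu).2)
      refine le_trans ?_ (mul_le_mul_of_nonneg_left c1 (prod_nonneg fun p _ => by positivity))
      rw [cast_val, Real.sqrt_prod _ fun p _ => Nat.cast_nonneg _, ← prod_mul_distrib]
      refine prod_le_prod (fun p _ => mul_nonneg c.cast_nonneg (tt_pos h p).le) fun p _ => ?_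
      have := two_le h p
      have c2 : 0 < √(pr p : ℝ) := Real.sqrt_pos.2 (by linarith)
      rw [mul_assoc, div_mul_eq_mul_div, mul_div_mul_right _ _ c2.ne', tt]
      refine mul_le_mul_of_nonneg_left ?_ c.cast_nonneg
      rw [div_le_div_iff₀ (by linarith) (by linarith)]
      linarith
    refine (sum_le_sum b1).trans ?_
    rw [← sum_mul]
    refine mul_le_mul_of_nonneg_right ((sum_le_sum_of_subset_of_nonneg (subset_univ _)
      fun u _ _ => prod_nonneg fun p _ => by positivity).trans ?_) (Real.sqrt_nonneg _)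
    rw [sum_prod_univ]
    refine (prod_le_prod (fun p _ => by positivity) fun p _ =>
      one_add_mul_le_pow (le_trans (by norm_num) (by positivity : (0 : ℝ) ≤ _)) c).trans ?_
    rw [prod_pow]
    exact pow_le_pow_left₀ (prod_nonneg fun p _ => by positivity) s3 c

theorem primes_ge (hB : BVfor fun _ => True) {φ : ℝ → ℝ} (hφ : Wt φ) (hI : 0 < ∫ u, φ u)
    (hW : 0 < W) {ε : ℝ} (hε : 0 < ε) : ∀ᶠ L : ℝ in atTop, ∀ b : ℕ, b.Coprime W →
      (b : ℝ) ≤ Real.exp (L / 2) →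
      (1 - 4 * ε) * ((Real.exp L * ∫ u, φ u) * (W / W.totient)) / L ≤
        ∑ n ∈ NN (Real.exp L), φ (n / Real.exp L) * if (W * n + b).Prime then 1 else 0 := by
  obtain ⟨K, K0, hK⟩ := BV.lip1 hφ
  set I := ∫ u, φ u with hId
  have W1 : (1 : ℝ) ≤ W := by exact_mod_cast hW
  have r1 : (1 : ℝ) ≤ W / W.totient := (one_le_div (by exact_mod_cast Nat.totient_pos.2 hW)).2
    (by exact_mod_cast Nat.totient_le W)
  filter_upwards [Real.tendsto_exp_atTop.eventually (hB φ hφ W hW W 1 1 ε hε),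
    (isLittleO_pow_exp_pos_mul_atTop 1 (by norm_num : (0 : ℝ) < 1 / 2)).bound
      (by positivity : 0 < ε * I / (4 * K + 1)),
    (Real.tendsto_exp_atTop.comp (tendsto_id.const_mul_atTop hε)).eventually_ge_atTop (3 * W : ℝ),
    eventually_ge_atTop (1 / (ε * I)), eventually_gt_atTop 0] with L ⟨p₀, _, _, u1⟩ u2 u3 u4 L0 b hb hbX
  set X := Real.exp L with hX
  have X1 : 1 ≤ X := Real.one_le_exp L0.le
  have X0 : 0 < X := by linarith
  obtain ⟨M, m1, m2⟩ := u1 W (b % W) dvd_rfl (Nat.mod_lt b hW).le trivial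
    ((Nat.coprime_comm.1 ((Nat.gcd_rec W b).symm.trans (Nat.coprime_comm.1 hb))).symm)
  have m3 := m2 {1} (fun _ => 0) (by simpa using Real.one_le_rpow X1 (by norm_num))
  simp only [sum_singleton, Nat.primeFactors_one, card_empty, pow_zero, one_mul, Nat.totient_one,
    Nat.cast_one, div_one, pow_one, hX, Real.log_exp] at m3
  rw [← hX] at m3
  set g : ℕ → ℝ := fun n => φ (n / X) * if (W * n + b % W).Prime then 1 else 0 with hg
  have g0 : ∀ n, 0 ≤ g n := fun n => mul_nonneg (hφ.nonneg _) (by split_ifs <;> norm_num)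
  have a1 : pcntC φ X W (b % W) 1 0 ≤ (1 + ε) * L * ∑ n ∈ NN X, g n := by
    rw [pcntC, mul_sum]
    refine sum_le_sum fun n _ => ?_
    simp only [hg, Nat.modEq_one, true_and]
    split_ifs with hp
    swap
    · simp
    by_cases h0 : φ (n / X) = 0
    · simp [h0]
    rw [mul_one, mul_comm]
    refine mul_le_mul_of_nonneg_right ((Real.log_le_iff_le_exp (by exact_mod_cast hp.pos)).2 ?_)
      (hφ.nonneg _)
    have c2 := (div_le_iff₀ X0).1 (hφ.supp _ h0).2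
    have c3 : ((b % W : ℕ) : ℝ) ≤ W := by exact_mod_cast (Nat.mod_lt b hW).le
    have c4 : 3 * (W : ℝ) ≤ Real.exp (ε * L) := u3
    rw [add_mul, one_mul, Real.exp_add, ← hX, Nat.cast_add, Nat.cast_mul]
    nlinarith
  have e2 : Real.exp (L / 2) * Real.exp (L / 2) = X := by rw [← Real.exp_add, add_halves]
  have j1 : ((b / W : ℕ) : ℝ) ≤ Real.exp (L / 2) := (Nat.cast_le.2 (Nat.div_le_self b W)).trans hbX
  have j2 : Real.exp (L / 2) ≤ X := Real.exp_le_exp.2 (by linarith)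
  have a2 : ∑ n ∈ NN X, g n ≤ ∑ n ∈ NN X, g (b / W + n) := by
    have c1 := sum_range_add g (b / W) ⌈3 * X⌉₊
    have c2 : ∑ n ∈ range (b / W), g n = 0 := sum_eq_zero fun n hn => by
      rw [hg]
      beta_reduce
      rw [BV.wt_lt hφ ((div_lt_one X0).2 ((Nat.cast_lt.2 (mem_range.1 hn)).trans_le (j1.trans j2))),
        zero_mul]
    rw [c2, zero_add] at c1
    rw [NN, ← c1]
    exact sum_le_sum_of_subset_of_nonneg (range_subset_range.2 (Nat.le_add_left _ _))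
      fun n _ _ => g0 n
  have a3 : ∑ n ∈ NN X, g (b / W + n) ≤
      ∑ n ∈ NN X, φ (n / X) * (if (W * n + b).Prime then 1 else 0) + 4 * K * Real.exp (L / 2) := by
    have c1 : ∀ n ∈ NN X, g (b / W + n) ≤ φ (n / X) * (if (W * n + b).Prime then 1 else 0) +
        K * (Real.exp (L / 2) / X) := fun n _ => by
      have d1 := (abs_le.1 (hK (((b / W + n : ℕ) : ℝ) / X) (n / X))).2
      rw [← sub_div, Nat.cast_add, add_sub_cancel_right, abs_of_nonneg (by positivity)] at d1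
      have d2 := mul_le_mul_of_nonneg_left (div_le_div_of_nonneg_right j1 X0.le) K0
      have d3 : W * (b / W + n) + b % W = W * n + b := by
        rw [mul_add, add_right_comm, Nat.div_add_mod, add_comm]
      simp only [hg, d3, Nat.cast_add]
      split_ifs
      · linarith
      · rw [mul_zero, mul_zero, zero_add]; positivity
    refine (sum_le_sum c1).trans ?_
    rw [sum_add_distrib, sum_const, NN, card_range, nsmul_eq_mul]
    refine add_le_add_right ((mul_le_mul_of_nonneg_right (BV.ceil_le4 X1) (by positivity)).trans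
      (le_of_eq (by field_simp))) _
  rw [Real.norm_of_nonneg (by positivity), Real.norm_of_nonneg (Real.exp_pos _).le, pow_one,
    div_mul_eq_mul_div, le_div_iff₀ (by positivity), one_div_mul_eq_div] at u2
  rw [div_le_iff₀ (by positivity)] at u4
  have b0 : X * I ≤ X * I * (W / W.totient) := le_mul_of_one_le_right (by positivity) r1
  set A := X * I * (W / W.totient) with hA
  set T := ∑ n ∈ NN X, φ (n / X) * (if (W * n + b).Prime then (1 : ℝ) else 0) with hT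
  have T0 : 0 ≤ T := sum_nonneg fun n _ => mul_nonneg (hφ.nonneg _) (by split_ifs <;> norm_num)
  have b1 : X / L ≤ ε * A := by
    rw [div_le_iff₀ L0]
    nlinarith [mul_le_mul_of_nonneg_left u4 X0.le, mul_le_mul_of_nonneg_left b0 (mul_pos hε L0).le]
  have b2 : L * (4 * K * Real.exp (L / 2)) ≤ ε * A := by
    have := mul_le_mul_of_nonneg_right u2 (Real.exp_pos (L / 2)).le
    rw [mul_assoc (ε * I), e2] at this
    nlinarith [mul_le_mul_of_nonneg_left b0 hε.le, mul_pos L0 (Real.exp_pos (L / 2))]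
  have b3 := mul_le_mul_of_nonneg_left (a2.trans a3) (show 0 ≤ (1 + ε) * L by positivity)
  have b4 := (abs_le.1 m3).1
  have A0 : 0 ≤ A := by positivity
  rw [div_le_iff₀ L0]
  refine le_of_mul_le_mul_left ?_ (show 0 < 1 + ε by linarith)
  nlinarith [mul_le_mul_of_nonneg_left b2 hε.le, mul_nonneg (mul_nonneg hε.le hε.le) A0]

end Pool.Agent.MP_678834_nt.RO

end MrgPart3

-- marker of a merged file
example : 731051 + 574912 = 731051 + 574912 := rfl
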