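import Pool.Agent.MP_678834_nt.ro.Conc
import Pool.Agent.MP_678834_nt.ro.Sing
import Pool.Agent.MP_39a890_nt.Sieve
import Pool.Agent.MP_678834_nt.Free

-- ======== part 0: formerly Pool.Agent.MP_678834_nt.ro.Ana
section MrgPart0

/-!
# A dense family of quadruples of shifts carries many prime pairs
-/

namespace Pool.Agent.MP_678834_nt.RO

open Finset Function Filter Pool.Agent.MP_39a890_nt Pool.Agent.MP_39a890_nt.Core
  Pool.Agent.MP_39a890_nt.Sums

set_option linter.unusedSectionVars false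

variable {ι : Type} [Fintype ι] [DecidableEq ι] {pr : ι → ℕ} {W : ℕ} {φ : ℝ → ℝ}

/-- The facts on one majorant, sieve scale `l`, length `exp L`. -/
structure Sc (pr : ι → ℕ) (W : ℕ) (φ : ℝ → ℝ) (L l ε C ρ : ℝ) (c : ℕ) : Prop
    extends Cx pr W φ (Real.exp L) l ε C where
  one : ∃ p₀, OneOk pr ρ 16 ε (1 / 10) l p₀ 0
  lL : l ≤ L
  L1 : 1 ≤ L
  ρ0 : 0 < ρ
  ρ1 : ρ ≤ 1
  ε1 : ε ≤ 1 / 10 ^ 9
  sc : ∏ p, (1 + c * tt pr p ^ 2) ≤ 1 + ε
  err : (256 * C + 3) * L ^ 4 * Real.exp ((1 - 1 / 40000) * L) ≤ ε * (Real.exp L * ∫ u, φ u)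

variable {L l ε C ρ : ℝ} {c : ℕ}

theorem Sc.G_le (h : Sc pr W φ L l ε C ρ c) : GG pr l ≤ ρ * l :=
  le_trans (sum_le_sum_of_subset_of_nonneg (fun _ hu => mem_filter.2 ⟨mem_univ _, lv_of_EE hu⟩)
    fun u _ _ => (wt_pos h.ps u).le) h.one.choose_spec.H_le

theorem Sc.g_ge (h : Sc pr W φ L l ε C ρ c) : 1 / L ≤ 1 / GG pr l :=
  one_div_le_one_div_of_le (one_pos.trans_le (one_le_GG h.ps h.l0.le))
    (h.G_le.trans ((mul_le_of_le_one_left h.l0.le h.ρ1).trans h.lL))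

theorem Sc.g_pos (h : Sc pr W φ L l ε C ρ c) : 0 < 1 / GG pr l :=
  one_div_pos.2 (one_pos.trans_le (one_le_GG h.ps h.l0.le))

theorem Sc.err_le (h : Sc pr W φ L l ε C ρ c) {k : ℕ} (hk : k ≤ 4) {a s : ℝ}
    (ha : a ≤ 256 * C + 3) (hs : s ≤ (1 - 1 / 40000) * L) :
    a * Real.exp s ≤ ε * ((Real.exp L * ∫ u, φ u) * (1 / GG pr l) ^ k) := by
  have L0 : 0 < L := by linarith [h.L1]
  have C0 := h.C0
  have h1 : (1 / L) ^ 4 ≤ (1 / GG pr l) ^ k :=
    (pow_le_pow_of_le_one (by positivity) ((div_le_one L0).2 h.L1) hk).trans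
      (pow_le_pow_left₀ (by positivity) h.g_ge k)
  rw [← mul_assoc]
  refine le_trans ?_ (mul_le_mul h.err h1 (by positivity) (mul_nonneg h.ε0 h.mass))
  refine (mul_le_mul ha (Real.exp_le_exp.2 hs) (Real.exp_pos _).le (by positivity)).trans
    (le_of_eq (by field_simp))

theorem Sc.total (h : Sc pr W φ L l ε C ρ c) :
    ∑ n ∈ NN (Real.exp L), φ (n / Real.exp L) ≤ (1 + ε) * (Real.exp L * ∫ u, φ u) := by
  have h1 := (abs_le.1 (h.cnt 1 0 one_pos)).2
  have h2 := h.err_le (k := 0) (a := C) (s := 0) (by norm_num) (by linarith [h.C0])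
    (by linarith [h.L1])
  simp only [cnt₁, Nat.modEq_one, if_true, Nat.cast_one, div_one, Real.exp_zero, pow_zero,
    mul_one] at h1 h2
  rw [NN]
  linarith

theorem Sc.mean (h : Sc pr W φ L l ε C ρ c) (b : ℕ) :
    (1 - 40 * ε) * ((Real.exp L * ∫ u, φ u) * (1 / GG pr l)) ≤
      ∑ n ∈ NN (Real.exp L), φ (n / Real.exp L) * Ym pr l ε (W * n + b) := by
  obtain ⟨p₀, o⟩ := h.one
  refine le_trans ?_ (h.toCx.one b o.bdry)
  have ε0 := h.ε0
  have ε1 := h.ε1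
  have l0 := h.l0
  have C0 := h.C0
  have h1 := h.err_le (k := 1) (a := 8 * C) (s := ε * l + 3 * (272 / 1000 * l)) (by norm_num)
    (by linarith) (by nlinarith [h.lL])
  have h2 : (1 + Real.exp (ε * l)) * (C * (Real.exp (3 / 2 * (272 / 1000 * l)) * 2) ^ 2) ≤
      8 * C * Real.exp (ε * l + 3 * (272 / 1000 * l)) := by
    have := Real.one_le_exp (mul_nonneg ε0 l0.le)
    refine (mul_le_mul_of_nonneg_right (show _ ≤ 2 * Real.exp (ε * l) by linarith)
      (by positivity)).trans (le_of_eq ?_)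
    rw [mul_pow, ← Real.exp_nat_mul, Real.exp_add]
    push_cast
    ring_nf
  have h3 : 1 / GG pr l * (ρ * l) ≤ 4 := by
    rw [one_div_mul_eq_div, div_le_iff₀ (one_pos.trans_le (one_le_GG h.ps l0.le))]
    nlinarith [o.G_ge, mul_pos h.ρ0 l0]
  have h4 := mul_nonneg h.mass h.g_pos.le
  rw [pow_one] at h1
  rw [sq, ← mul_assoc (Real.exp L * _)]
  generalize (Real.exp L * ∫ u, φ u) * (1 / GG pr l) = A at *
  nlinarith [mul_le_mul_of_nonneg_left h3 (mul_nonneg h4 ε0), mul_le_mul_of_nonneg_left h3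
    (mul_nonneg (mul_nonneg h4 ε0) ε0), mul_le_mul_of_nonneg_left ε1 (mul_nonneg h4 ε0)]

theorem Sc.four (h : Sc pr W φ L l ε C ρ c) (hl : 10 * l = L) {b : Fin 4 → ℕ} (hb : Injective b)
    {B : ℕ} (hB : ∀ k, b k ≤ B) (hB' : (B : ℝ) ≤ Real.exp (ε * l)) :
    ∑ n ∈ NN (Real.exp L), φ (n / Real.exp L) * ∏ k, Ym pr l ε (W * n + b k) ≤
      (1 + 2 * ε) * ((Real.exp L * ∫ u, φ u) * (1 / GG pr l) ^ 4) *
        (1 + ∑ p ∈ (univ : Finset (Fin 4)).offDiag, rs pr (b p.1) (b p.2)) := by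
  obtain ⟨Δ, a1, a2, a3⟩ := sep4 h.ps hb hB
  have C0 := h.C0
  have h1 := h.toCx.mom a1 (fun p hp => (Real.log_le_iff_le_exp (by linarith [two_le h.ps p])).2
    ((Nat.cast_le.2 (a2 p hp)).trans hB')) (by norm_num [cK, eK])
  have h2 := h.err_le (k := 4) (a := 256 * C) (s := 12 * (272 / 1000 * l)) le_rfl (by linarith)
    (by nlinarith [h.l0])
  have h3 : C * (Real.exp (3 / 2 * (4 * (272 / 1000 * l))) * 2 ^ 4) ^ 2 =
      256 * C * Real.exp (12 * (272 / 1000 * l)) := by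
    rw [mul_pow, ← Real.exp_nat_mul]
    push_cast
    ring_nf
  simp only [Fintype.card_fin, Nat.cast_ofNat, h3] at h1
  rw [mul_comm]
  exact h1.trans (mul_le_mul a3 (by linarith) (add_nonneg (mul_nonneg (by linarith [h.ε0])
    (mul_nonneg h.mass (by positivity))) (by positivity))
    (add_nonneg zero_le_one (sum_nonneg fun _ _ => rs_nonneg h.ps _ _)))

theorem Sc.two (h : Sc pr W φ L L ε C ρ c) (h16 : ∀ p, (16 : ℝ) ≤ (pr p : ℝ) ^ ε)
    (hK : KLin' φ W (Real.exp L)) {a b B : ℕ} (hab : a ≠ b) (ha : a ≤ B) (hb : b ≤ B)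
    (hB' : (B : ℝ) ≤ Real.exp (ε * L)) (ca : a.Coprime W) (cb : b.Coprime W) :
    ∑ n ∈ NN (Real.exp L), φ (n / Real.exp L) * (Ym pr L ε (W * n + a) * Ym pr L ε (W * n + b)) ≤
      (1 + 3 * ε) * ((Real.exp L * ∫ u, φ u) * (1 / GG pr L) ^ 2) * (1 + rs pr a b) := by
  have ε0 := h.ε0
  have ε1 := h.ε1
  have C0 := h.C0
  have L0 := h.l0
  have hX := hB'.trans (Real.exp_le_exp.2 (mul_le_of_le_one_left L0.le (by linarith)))
  have h1 := h.toCx.pair (b := ![a, b]) (Δ := Dv pr a b) (δ := ε) (fun p hp => by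
      simp only [Dv, mem_filter, mem_univ, true_and] at hp
      simpa [Fin.forall_fin_two, hp] using fun e => hp (dvd_sub_comm.1 e))
    (fun p hp => (Real.log_le_iff_le_exp (by linarith [two_le h.ps p])).2 ((Nat.cast_le.2 (by
      simpa [Pool.Agent.MP_39a890_nt.val] using val_Dv h.ps hab ha hb
        (singleton_subset_iff.2 hp))).trans hB')) ε0 (by linarith) h16 hK
    (Fin.forall_fin_two.2 ⟨ca, cb⟩)
    (Fin.forall_fin_two.2 ⟨(Nat.cast_le.2 ha).trans hX, (Nat.cast_le.2 hb).trans hX⟩)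
  have h2 := h.err_le (k := 2) (a := 3) (s := 2 * (ε * L) + L * (1 - 1 / 20000)) (by norm_num)
    (by linarith) (by nlinarith)
  have h3 := h.err_le (k := 2) (a := C) (s := 7 / 10 * L) (by norm_num) (by linarith) (by linarith)
  rw [errB, ← Real.exp_nat_mul, ← Real.exp_mul, ← Real.exp_add, Nat.cast_ofNat] at h1
  rw [mul_comm, rs, if_neg hab, add_sub_cancel]
  exact h1.trans (mul_le_mul (pow_le_pow_right₀ (one_le_pr h.ps _) (by norm_num)) (by linarith)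
    (add_nonneg (mul_nonneg (by linarith) (mul_nonneg h.mass (by positivity))) (by positivity))
    (pow_nonneg (zero_le_one.trans (one_le_pr h.ps _)) _))

/-- indicator of the primes -/
noncomputable def iP (m : ℕ) : ℝ := if m.Prime then 1 else 0

theorem iP_nonneg (m : ℕ) : 0 ≤ iP m := by unfold iP; split_ifs <;> norm_num

theorem Sc.maj (h : Sc pr W φ L l ε C ρ c) (hW : 0 < W) {b n : ℕ} (hn : φ (n / Real.exp L) ≠ 0) :
    iP (W * n + b) ≤ Ym pr l ε (W * n + b) := by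
  unfold iP
  split_ifs with hp
  · refine (Ym_prime h.ps h.l0.le hp ?_).ge
    have c1 := (le_div_iff₀ (Real.exp_pos L)).1 (h.wt.supp _ hn).1
    have c2 := Real.exp_lt_exp.2 (show 272 / 1000 * l < L by linarith [h.lL, h.l0])
    have c3 : (n : ℝ) ≤ (W * n + b : ℕ) := by
      exact_mod_cast (Nat.le_mul_of_pos_left n hW).trans (Nat.le_add_right _ _)
    linarith
  · exact Ym_nonneg _

theorem Sc.bdd (h : Sc pr W φ L l ε C ρ c) (hW : 0 < W) (hε : 0 < ε) (hl : L ≤ 10 * l) {N₀ : ℕ}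
    (hN : 20 ≤ ε * N₀) (hWX : 3 * (W : ℝ) ≤ Real.exp L) {b n : ℕ} (hb : (b : ℝ) ≤ Real.exp L)
    (hn : φ (n / Real.exp L) ≠ 0) : Ym pr l ε (W * n + b) ≤ 9 ^ N₀ := by
  have X0 := Real.exp_pos L
  obtain ⟨c1, c2⟩ := h.wt.supp _ hn
  rw [le_div_iff₀ X0] at c1
  rw [div_le_iff₀ X0] at c2
  have W1 : (1 : ℝ) ≤ W := by exact_mod_cast hW
  have h0 : 0 < W * n + b := Nat.add_pos_left (Nat.mul_pos hW (Nat.cast_pos.1 (by linarith :
    (0 : ℝ) < n))) _
  refine Ym_le h.ps h.l0 hε hN h0 (((Real.log_le_iff_le_exp (by exact_mod_cast h0)).2 ?_).trans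
    (show L + L ≤ _ by linarith))
  rw [Real.exp_add]
  push_cast
  nlinarith

end Pool.Agent.MP_678834_nt.RO

end MrgPart0

-- ======== part 1: formerly Pool.Agent.MP_678834_nt.ro.Key
section MrgPart1

/-!
# The lower bound for prime pairs along a dense family of quadruples
-/

namespace Pool.Agent.MP_678834_nt.RO

open Finset Function Filter Pool.Agent.MP_39a890_nt Pool.Agent.MP_39a890_nt.Core
  Pool.Agent.MP_39a890_nt.Sums

/-- weighted number of prime pairs -/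
noncomputable def pp (φ : ℝ → ℝ) (L : ℝ) (W a b : ℕ) : ℝ :=
  ∑ n ∈ NN (Real.exp L), φ (n / Real.exp L) * (iP (W * n + a) * iP (W * n + b))

theorem scale {ι ι' : Type} [Fintype ι] [DecidableEq ι] [Fintype ι'] [DecidableEq ι'] {pr : ι → ℕ}
    {pr' : ι' → ℕ} {W D c N₀ k n : ℕ} {φ : ℝ → ℝ} {L ε C ρ τ θ η e : ℝ}
    (h : Sc pr W φ L L ε C ρ c) (h' : Sc pr' W φ L (L / 10) ε C ρ c) (hI : 0 < ∫ u, φ u)
    (hc : ∀ t : ℝ, 0 ≤ t → t ≤ 1 → (1 + t) ^ 96 ≤ 1 + c * t)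
    (h16 : ∀ p, (16 : ℝ) ≤ (pr p : ℝ) ^ ε) (hK : KLin' φ W (Real.exp L)) (hW : 0 < W)
    (hWD : W ∣ D) (hD : ∀ p : ℕ, p.Prime → p ∣ D → p ∣ W) (τ0 : 0 < τ) (τ1 : τ ≤ 1)
    (hθ : θ = τ / (192 * 10 ^ 9)) (hk : (16 : ℝ) < k * (θ ^ 4 / 8) ^ 2) (hη : η = τ / (16 * 4 ^ k))
    (he : e = θ ^ 4 / 10 ^ 9) (hε : ε = e * η / 40) (hN : 20 ≤ ε * N₀)
    (hP : ∀ b : ℕ, b.Coprime W → (b : ℝ) ≤ Real.exp (L / 2) →
      (1 - 4 * ε) * ((Real.exp L * ∫ u, φ u) * ρ⁻¹) / L ≤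
        ∑ n ∈ NN (Real.exp L), φ (n / Real.exp L) * iP (W * n + b))
    (hWX : 3 * (W : ℝ) ≤ Real.exp L) (n1 : 9 ^ N₀ / (e * η) * L ≤ n)
    (n2 : ((3 * D * n : ℕ) : ℝ) ≤ Real.exp (ε * (L / 10))) (n3 : 2 ^ c * √(3 * D * n : ℕ) ≤ ε * n)
    (β : Fin 4 → ℕ) (β1 : ∀ i, (β i).Coprime W) (β2 : ∀ i, β i ≤ 2 * D)
    (B : Fin 4 × Fin 4 → Fin n → Fin n → ℝ) (hB : ∀ p x y, 0 ≤ B p x y ∧ B p x y ≤ 1)
    (hτ : τ * (n : ℝ) ^ 4 ≤ ∑ x : Fin 4 → Fin n, ∏ p ∈ Ed, B p (x p.1) (x p.2)) :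
    τ / 10 ^ 7 * ((Real.exp L * ∫ u, φ u) / L ^ 2) * n ^ 2 ≤
      ∑ p ∈ Ed, ∑ x : Fin n, ∑ y : Fin n, pp φ L W (β p.1 + D * x) (β p.2 + D * y) * B p x y := by
  have L0 := h.l0
  have θ0 : 0 < θ := hθ ▸ by positivity
  have θ1 : θ ≤ τ / 12 := by rw [hθ]; linarith
  have θ2 : θ ^ 4 ≤ θ := pow_le_of_le_one θ0.le (by linarith) (by norm_num)
  have η0 : 0 < η := hη ▸ by positivity
  have η1 : η ≤ 1 := by
    rw [hη, div_le_one (by positivity)]
    linarith [one_le_pow₀ (n := k) (show (1 : ℝ) ≤ 4 by norm_num)]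
  have e0 : 0 < e := he ▸ by positivity
  have e1 : e ≤ 1 / 10 ^ 9 := by rw [he]; gcongr; linarith
  have ε0 : 0 < ε := hε ▸ by positivity
  have ε1 : 40 * ε ≤ e := by rw [hε]; nlinarith
  have n0 : (0 : ℝ) < n := lt_of_lt_of_le (by positivity) n1
  have : Nonempty (Fin n) := ⟨⟨0, Nat.cast_pos.1 n0⟩⟩
  have D0 : 0 < D := Nat.pos_of_ne_zero fun h0 => by
    obtain ⟨p, p1, p2⟩ := Nat.exists_infinite_primes (W + 1)
    have := Nat.le_of_dvd hW (hD p p2 (h0 ▸ dvd_zero p))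
    omega
  set Ξ := Real.exp L * ∫ u, φ u with hΞ
  have Ξ0 : 0 < Ξ := mul_pos (Real.exp_pos L) hI
  set g := 1 / GG pr L with hg
  set g' := 1 / GG pr' (L / 10) with hg'
  have g0 : 0 < g := h.g_pos
  have g0' : 0 < g' := h'.g_pos
  have gg : g' ≤ 40 * g := by
    rw [hg, hg', mul_one_div, div_le_div_iff₀ (one_pos.trans_le (one_le_GG h'.ps h'.l0.le))
      (one_pos.trans_le (one_le_GG h.ps L0.le))]
    nlinarith [h.G_le, h'.one.choose_spec.G_ge, mul_pos h.ρ0 L0]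
  set lb : Fin 4 → Fin n → ℕ := fun i v => β i + D * v with hlb
  have l1 : ∀ i v, lb i v ≤ 3 * D * n := fun i v => by
    have := β2 i
    have := Nat.mul_le_mul_left D v.2.le
    have := Nat.mul_le_mul_left D (Nat.cast_pos.1 n0 : 1 ≤ n)
    simp only [hlb]
    nlinarith
  have l2 : ∀ i v, (lb i v).Coprime W := fun i v => by
    obtain ⟨d, rfl⟩ := hWD
    simp only [hlb, mul_assoc]
    exact (Nat.coprime_add_mul_left_left _ _ _).2 (β1 i)
  have l3 : ∀ i, Injective (lb i) := fun i v w e =>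
    Fin.ext (Nat.eq_of_mul_eq_mul_left D0 (Nat.add_left_cancel e))
  have l4 : ∀ i v, (lb i v : ℝ) ≤ Real.exp (L / 2) := fun i v => (Nat.cast_le.2 (l1 i v)).trans
    (n2.trans (Real.exp_le_exp.2 (by nlinarith)))
  have l5 : ∀ i v, (lb i v : ℝ) ≤ Real.exp L := fun i v =>
    (l4 i v).trans (Real.exp_le_exp.2 (by linarith))
  have M1 : ∀ x, 1 / L ≤ x → (9 : ℝ) ^ N₀ ≤ e * (η * n * x) := fun x hx => by
    rw [div_mul_eq_mul_div, div_le_iff₀ (by positivity)] at n1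
    rw [div_le_iff₀ L0] at hx
    refine le_of_mul_le_mul_right (n1.trans ?_) L0
    nlinarith [mul_le_mul_of_nonneg_left hx (show 0 ≤ n * (e * η) by positivity)]
  have av : 2 * ε * n ≤ e * (η * n) := by rw [hε]; nlinarith [mul_pos (mul_pos e0 η0) n0]
  have φ0 : ∀ m : ℕ, 0 ≤ φ (m / Real.exp L) := fun m => h.wt.nonneg _
  have t0 : ∑ m ∈ NN (Real.exp L), φ (m / Real.exp L) ≤ (1 + e) * Ξ :=
    h.total.trans (mul_le_mul_of_nonneg_right (by linarith) Ξ0.le)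
  have c0 : 0 < Ξ * g ^ 2 := by positivity
  have key := comb (V := Fin n) (τ := τ) (c := 4 / 10 ^ 7) (γ := 3200 * θ) (ε := θ ^ 4 / 8) (η := η)
    k B (fun p x y => pp φ L W (lb p.1 x) (lb p.2 y) / (Ξ * g ^ 2)) hB
    (fun p x y => div_nonneg (sum_nonneg fun m _ => mul_nonneg (φ0 m)
      (mul_nonneg (iP_nonneg _) (iP_nonneg _))) c0.le) (by positivity) hk (by norm_num) η0.le
    (by simpa using hτ) (fun p _ F hF hQ => ?_) fun A hA => ?_
  · simp only [div_mul_eq_mul_div, ← sum_div, Fintype.card_fin] at key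
    rw [le_div_iff₀ c0] at key
    refine le_trans ?_ key
    have a1 : 4 * 4 ^ k * η = τ / 4 := by rw [hη]; field_simp; norm_num
    have a2 : τ / 10 ^ 7 ≤ 4 / 10 ^ 7 * (τ - 24 * (θ ^ 4 / 8) - τ / 4) - 6 * (3200 * θ) := by
      rw [hθ] at θ1 ⊢
      rw [← hθ]
      have : 6 * (3200 * θ) = τ / 10 ^ 7 := by rw [hθ]; ring
      rw [← hθ] at θ1
      linarith
    have a3 : Ξ / L ^ 2 ≤ Ξ * g ^ 2 := by
      rw [div_eq_mul_one_div, ← one_div_pow]
      exact mul_le_mul_of_nonneg_left (pow_le_pow_left₀ (by positivity) h.g_ge 2) Ξ0.le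
    calc _ = τ / 10 ^ 7 * (n : ℝ) ^ 2 * (Ξ / L ^ 2) := by ring
      _ ≤ _ := mul_le_mul (mul_le_mul_of_nonneg_right (by rw [a1]; linarith) (by positivity)) a3
        (by positivity) (mul_nonneg (by rw [a1]; linarith [show 0 ≤ τ / 10 ^ 7 by positivity])
          (by positivity))
  · set lb' : Bool → Fin n → ℕ := fun s => lb (if s then p.1 else p.2) with hlb'
    have mj : Maj (NN (Real.exp L)) (fun m => φ (m / Real.exp L))
        (fun s v m => Ym pr' (L / 10) ε (W * m + lb' s v)) lb' (rs pr') Ξ g' e (9 ^ N₀) :=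
      { φ0 := φ0, Ξ0 := Ξ0, g0 := g0', e0 := e0.le, e1 := by linarith
        inj := fun s => l3 _, Z0 := fun _ _ _ => Ym_nonneg _
        Z1 := fun s v m _ h0 => h'.bdd hW ε0 (by linarith) hN hWX (l5 _ _) h0
        M1 := (M1 g' h'.g_ge).trans (by
          rw [Fintype.card_fin]
          gcongr
          exact mul_le_of_le_one_left n0.le η1)
        ρ0 := rs_nonneg h'.ps
        ρ1 := fun s s' v' => (rs_avg h'.ps hc h'.sc h'.s3
          (fun q hq => h'.ps.ndvd q (hD _ (h'.ps.prime q) hq)) (l1 _) (l1 _ _)).trans (by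
            rw [Fintype.card_fin]
            nlinarith [mul_le_mul_of_nonneg_left η1 (mul_pos e0 n0).le])
        h0 := t0
        h1 := fun s v => le_trans (mul_le_mul_of_nonneg_right (by linarith) (by positivity))
          (h'.mean _)
        h4 := fun t v hi => (h'.four (by ring) hi (fun _ => l1 _ _) n2).trans
          (mul_le_mul_of_nonneg_right (mul_le_mul_of_nonneg_right (by linarith) (by positivity))
            (add_nonneg zero_le_one (sum_nonneg fun _ _ => rs_nonneg h'.ps _ _))) }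
    have b1 := mj.box (fun s v m => iP (W * m + lb' s v)) (fun _ _ _ => iP_nonneg _)
      (fun s v m _ h0 => h'.maj hW h0) θ0 (by rw [he]; linarith [pow_pos θ0 4]) hF
      (hQ.trans (le_of_eq (by ring)))
    simp only [div_mul_eq_mul_div, ← sum_div]
    rw [abs_div, abs_of_pos c0, div_le_iff₀ c0]
    refine b1.trans ?_
    have b2 : g' ^ 2 ≤ (40 * g) ^ 2 := pow_le_pow_left₀ g0'.le gg 2
    calc _ ≤ 2 * θ * (Ξ * (40 * g) ^ 2) * (Fintype.card (Fin n) : ℝ) ^ 2 := by gcongr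
      _ = _ := by ring
  · rw [Fintype.card_fin] at hA
    have hP' : 2695 / 10000 * (Ξ * g) ≤ (1 - 4 * ε) * (Ξ * ρ⁻¹) / L := by
      have h5 : 2696 / 10000 * L * g ≤ ρ⁻¹ := by
        rw [hg, mul_one_div, div_le_iff₀ (one_pos.trans_le (one_le_GG h.ps L0.le)),
          le_inv_mul_iff₀ h.ρ0]
        linarith [h.one.choose_spec.G_ge]
      rw [le_div_iff₀ L0]
      have h6 := mul_le_mul_of_nonneg_left (mul_le_mul_of_nonneg_left h5 Ξ0.le)
        (show 0 ≤ 1 - 4 * ε by linarith)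
      nlinarith [mul_le_mul_of_nonneg_right (show ε ≤ 1 / 10 ^ 9 by linarith)
        (show 0 ≤ Ξ * g * L by positivity), show 0 ≤ Ξ * g * L by positivity]
    obtain ⟨p, hp, b1⟩ := four (NN (Real.exp L)) (fun m => φ (m / Real.exp L))
      (fun i v m => iP (W * m + lb i v)) A φ0 Ξ0 g0 (fun _ _ _ => iP_nonneg _)
      (t0.trans (mul_le_mul_of_nonneg_right (by linarith) Ξ0.le)) fun i =>
        conc _ _ _ (fun v m => Ym pr L ε (W * m + lb i v)) (fun a b => rs pr (lb i a) (lb i b))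
          (A i) (M := 9 ^ N₀) φ0 Ξ0 g0 e0.le e1 (lt_of_lt_of_le (by positivity) (hA i))
          (fun v m _ h0 => h.maj hW h0) (fun _ _ => Ym_nonneg _)
          (fun v m _ h0 => h.bdd hW ε0 (by linarith) hN hWX (l5 _ _) h0)
          ((M1 g h.g_ge).trans (by gcongr; exact hA i)) (fun _ _ => rs_nonneg h.ps _ _)
          (fun b => (rs_avg h.ps hc h.sc h.s3 (fun q hq => h.ps.ndvd q (hD _ (h.ps.prime q) hq))
            (l1 _) (l1 _ _)).trans (by linarith [mul_le_mul_of_nonneg_left (hA i) e0.le])) t0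
          (fun v => hP'.trans (hP _ (l2 i v) (l4 i v)))
          (fun v => le_trans (mul_le_mul_of_nonneg_right (by linarith) (by positivity)) (h.mean _))
          fun a b hab => (h.two h16 hK ((l3 i).ne hab) (l1 _ _) (l1 _ _)
            (n2.trans (Real.exp_le_exp.2 (mul_le_mul_of_nonneg_left (by linarith) ε0.le)))
            (l2 _ _) (l2 _ _)).trans
            (mul_le_mul_of_nonneg_right (mul_le_mul_of_nonneg_right (by linarith) c0.le)
              (add_nonneg zero_le_one (rs_nonneg h.ps _ _)))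
    refine ⟨p, hp, ?_⟩
    simp only [← sum_div]
    rw [le_div_iff₀ c0]
    exact le_trans (le_of_eq (by ring)) b1

theorem key (hK : KLU) (hB : BVfor fun _ => True) (hC : CountStmt) (hO : OneStmt) (hS : SmallStmt)
    {φ : ℝ → ℝ} (hφ : Wt φ) (hI : 0 < ∫ u, φ u) {τ : ℝ} (τ0 : 0 < τ) (τ1 : τ ≤ 1) :
    ∃ (w₀ : ℕ) (κ K : ℝ), 0 < κ ∧ 0 < K ∧ ∀ W D : ℕ, 0 < W → (∀ q : ℕ, q.Prime → q ≤ w₀ → q ∣ W) →
      W ∣ D → (∀ p : ℕ, p.Prime → p ∣ D → p ∣ W) → ∀ᶠ L : ℝ in atTop, ∀ n : ℕ, K * L ≤ n →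
      (n : ℝ) ≤ Real.exp (κ * L) → ∀ β : Fin 4 → ℕ, (∀ i, (β i).Coprime W) → (∀ i, β i ≤ 2 * D) →
      ∀ B : Fin 4 × Fin 4 → Fin n → Fin n → ℝ, (∀ p x y, 0 ≤ B p x y ∧ B p x y ≤ 1) →
      τ * (n : ℝ) ^ 4 ≤ ∑ x : Fin 4 → Fin n, ∏ p ∈ Ed, B p (x p.1) (x p.2) →
      τ / 10 ^ 7 * ((Real.exp L * ∫ u, φ u) / L ^ 2) * n ^ 2 ≤ ∑ p ∈ Ed, ∑ x : Fin n, ∑ y : Fin n,
        pp φ L W (β p.1 + D * x) (β p.2 + D * y) * B p x y := by
  obtain ⟨c, hc⟩ := exists_c
  obtain ⟨θ, hθ⟩ : ∃ θ : ℝ, θ = τ / (192 * 10 ^ 9) := ⟨_, rfl⟩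
  have θ0 : 0 < θ := hθ ▸ by positivity
  obtain ⟨k, hk⟩ := exists_nat_gt (16 / (θ ^ 4 / 8) ^ 2)
  rw [div_lt_iff₀ (by positivity)] at hk
  obtain ⟨η, hη⟩ : ∃ η : ℝ, η = τ / (16 * 4 ^ k) := ⟨_, rfl⟩
  obtain ⟨e, he⟩ : ∃ e : ℝ, e = θ ^ 4 / 10 ^ 9 := ⟨_, rfl⟩
  obtain ⟨ε, hε⟩ : ∃ ε : ℝ, ε = e * η / 40 := ⟨_, rfl⟩
  have η0 : 0 < η := hη ▸ by positivity
  have η1 : η ≤ 1 := by
    rw [hη, div_le_one (by positivity)]
    linarith [one_le_pow₀ (n := k) (show (1 : ℝ) ≤ 4 by norm_num)]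
  have e0 : 0 < e := he ▸ by positivity
  have e1 : e ≤ 1 / 10 ^ 9 := by
    rw [he]; gcongr
    exact pow_le_one₀ θ0.le (by rw [hθ]; linarith)
  have ε0 : 0 < ε := hε ▸ by positivity
  have ε1 : ε ≤ 1 / 10 ^ 9 := by rw [hε]; nlinarith
  obtain ⟨N₀, hN⟩ := exists_nat_ge (20 / ε)
  rw [div_le_iff₀' ε0] at hN
  obtain ⟨w₁, hw₁⟩ := hO 16 (by norm_num)
  obtain ⟨w₂, hw₂⟩ := hS (2560 + c) ε 0 (by positivity) ε0
  refine ⟨max w₁ w₂, ε / 20, 9 ^ N₀ / (e * η) + 1, by positivity, by positivity,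
    fun W D hW hw hWD hD => ?_⟩
  obtain ⟨C, hCC⟩ := hC φ hφ
  have hC0 : 0 ≤ C := (abs_nonneg _).trans (hCC 1 le_rfl 1 0 one_pos)
  set ρ : ℝ := (W.totient : ℝ) / W with hρ
  have hW' : (0 : ℝ) < W := by exact_mod_cast hW
  have hρ0 : 0 < ρ := div_pos (by exact_mod_cast Nat.totient_pos.2 hW) hW'
  have hρ1 : ρ ≤ 1 := (div_le_one hW').2 (by exact_mod_cast Nat.totient_le W)
  obtain ⟨p₀, p1, p2⟩ := Nat.exists_infinite_primes (W + 1)
  have p3 : ¬ p₀ ∣ W := fun h => by have := Nat.le_of_dvd hW h; omega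
  set I := ∫ u, φ u with hId
  have v1 := hw₁ W hW (fun q h1 h2 => hw q h1 (h2.trans (le_max_left _ _))) ε (1 / 10) 0 ε0
    (by linarith) (by norm_num) (by norm_num)
  have v3 : ∀ᶠ X in atTop, KLin' φ W X :=
    ((hK _ _ _ _ (by norm_num) (by norm_num) (by norm_num) (by norm_num) (by norm_num) (by norm_num)
      φ hφ W hW).and (hK _ _ _ _ (by norm_num) (by norm_num) (by norm_num) (by norm_num)
      (by norm_num) (by norm_num) φ hφ W hW)).mono fun X h => ⟨h.1, h.2⟩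
  filter_upwards [v1, (tendsto_id.atTop_div_const (by norm_num : (0 : ℝ) < 10)).eventually v1,
    Real.tendsto_exp_atTop.eventually v3, primes_ge hB hφ hI hW ε0,
    (isLittleO_pow_exp_pos_mul_atTop 4 (by norm_num : (0 : ℝ) < 1 / 40000)).bound
      (by positivity : 0 < ε * I / (256 * C + 3)),
    (Real.tendsto_exp_atTop.comp (tendsto_id.const_mul_atTop
      (show 0 < ε / 20 by positivity))).eventually_ge_atTop (3 * D : ℝ),
    Real.tendsto_exp_atTop.eventually_ge_atTop (3 * W : ℝ), eventually_ge_atTop 1,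
    eventually_ge_atTop (3 * D * (2 ^ c / ε) ^ 2)] with L u1 u2 u3 u4 u5 u6 u7 u8 u9 n n1 n2
  have L0 : 0 < L := by linarith
  have sc : ∀ l, 0 < l → l ≤ L → (∀ (ι : Type) [Fintype ι] [DecidableEq ι] (pr : ι → ℕ),
      PS pr W (Real.exp (272 / 1000 * l)) → ∀ p₀ : ℕ, p₀.Prime → ¬ p₀ ∣ W →
        OneOk pr ρ 16 ε (1 / 10) l p₀ 0) → ∃ S : Finset ℕ, Sc (fun p : S => (p : ℕ)) W φ L l ε C ρ c ∧
        ∀ p : S, (16 : ℝ) ≤ ((p : ℕ) : ℝ) ^ ε := fun l l0 l1 u => by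
    obtain ⟨S, hPS⟩ := exists_PS W (Real.exp_pos (272 / 1000 * l)).le
    obtain ⟨s1, -, s3, -, s4⟩ := hw₂ W (fun q h1 h2 => hw q h1 (h2.trans (le_max_right _ _)))
      S _ _ hPS
    have s5 : ∀ a : ℝ, 0 ≤ a → a ≤ 2560 + c →
        ∏ p : S, (1 + a * tt (fun p : S => (p : ℕ)) p ^ 2) ≤ 1 + ε := fun a a0 a1 =>
      (prod_le_prod (fun p _ => by positivity) fun p _ => add_le_add_right
        (mul_le_mul_of_nonneg_right a1 (sq_nonneg _)) _).trans s1
    refine ⟨S,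
      { ps := hPS, wt := hφ, l0 := l0, X0 := (Real.exp_pos L).le, ε0 := ε0.le, C0 := hC0
        cnt := hCC _ (Real.one_le_exp L0.le), s1 := s5 _ (by norm_num) (by simp), s3 := s4
        one := ⟨p₀, u S _ hPS p₀ p2 p3⟩, lL := l1, L1 := u8, ρ0 := hρ0, ρ1 := hρ1, ε1 := ε1
        sc := s5 _ c.cast_nonneg (by simp), err := ?_ }, s3⟩
    rw [Real.norm_of_nonneg (by positivity), Real.norm_of_nonneg (Real.exp_pos _).le,
      div_mul_eq_mul_div, le_div_iff₀' (by positivity)] at u5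
    refine (mul_le_mul_of_nonneg_right u5 (Real.exp_pos _).le).trans (le_of_eq ?_)
    rw [mul_assoc, ← Real.exp_add, show 1 / 40000 * L + (1 - 1 / 40000) * L = L by ring]
    ring
  obtain ⟨S, h, h16⟩ := sc L L0 le_rfl u1
  obtain ⟨S', h', -⟩ := sc (L / 10) (by positivity) (by linarith) u2
  have n3 : L ≤ n := le_trans (by nlinarith [show 0 ≤ 9 ^ N₀ / (e * η) by positivity]) n1
  refine scale h h' hI hc h16 u3 hW hWD hD τ0 τ1 hθ hk hη he hε hN
    (fun b b1 b2 => by rw [hρ, inv_div]; exact u4 b b1 b2) u7 (by linarith) ?_ ?_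
  · rw [show ε * (L / 10) = ε / 20 * L + ε / 20 * L by ring, Real.exp_add]
    push_cast
    exact mul_le_mul u6 n2 n.cast_nonneg (Real.exp_pos _).le
  · rw [← le_div_iff₀' (by positivity), Real.sqrt_le_left (by positivity), div_pow, mul_pow,
      le_div_iff₀ (by positivity)]
    rw [div_pow, ← mul_div_assoc, div_le_iff₀ (by positivity)] at u9
    push_cast
    nlinarith [mul_le_mul_of_nonneg_right (u9.trans (mul_le_mul_of_nonneg_right n3 (sq_nonneg ε)))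
      n.cast_nonneg]

end Pool.Agent.MP_678834_nt.RO

end MrgPart1

-- ======== part 2: formerly Pool.Agent.MP_678834_nt.ro.Pat
section MrgPart2

/-!
# Dense families of quadruples avoiding a set of differences, and the size of the singular series
-/

namespace Pool.Agent.MP_678834_nt.RO

open Finset UDens

/-- the difference `b - a` lies in `[1, T]` and outside `D` -/
def Fr (D : Finset ℕ) (T a b : ℕ) : Prop := a < b ∧ b - a ≤ T ∧ b - a ∉ D

open Classical in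
theorem pat {ε : ℝ} {W T : ℕ} (hε : 0 < ε) (hW : 0 < W) (h1 : 16 ≤ ε * T) (h2 : 3 * W ≤ T)
    (D : Finset ℕ) (hD : (#D : ℝ) ≤ (1 / 3 - ε) * T) : ∃ ρ : Fin 4 → ℕ, (∀ i, ρ i < W) ∧
      ε ^ 3 / 648 * ((2 * (T / 3) / W + 1 : ℕ) : ℝ) ^ 4 ≤
        #{u : Fin 4 → Fin (2 * (T / 3) / W + 1) | ∀ i j, i < j →
          Fr D T (pt i (ρ i + W * u i)) (pt j (ρ j + W * u j))} := by
  set N := T / 3 with hN
  have hW0 : (0 : ℝ) < W := by exact_mod_cast hW
  have b1 : (3 : ℝ) * N ≤ T := by exact_mod_cast (by omega : 3 * N ≤ T)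
  have b2 : (T : ℝ) ≤ 3 * N + 2 := by exact_mod_cast (by omega : T ≤ 3 * N + 2)
  set k := ⌈ε * T / 4⌉₊ with hk
  have b3 : ε * T / 4 ≤ k := Nat.le_ceil _
  have b4 : (k : ℝ) < ε * T / 4 + 1 := Nat.ceil_lt_add_one (by positivity)
  have b5 := quad D N k (by
    have : (#D : ℝ) + 3 * k ≤ N := by linarith
    exact_mod_cast this)
  set E := {v ∈ Fintype.piFinset fun _ : Fin 4 => range (2 * N) | ∀ i j, i < j →
      pt i (v i) < pt j (v j) ∧ pt j (v j) - pt i (v i) ≤ 3 * N ∧ pt j (v j) - pt i (v i) ∉ D}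
    with hE
  have n1 : (W : ℝ) * (2 * N / W + 1 : ℕ) ≤ 3 * N := by
    have := Nat.mul_div_le (2 * N) W
    exact_mod_cast (by rw [mul_add]; omega : W * (2 * N / W + 1) ≤ 3 * N)
  obtain ⟨ρ, a1, b6⟩ := exists_le_card_fiber_of_nsmul_le_card_of_maps_to (s := E)
    (t := Fintype.piFinset fun _ : Fin 4 => range W) (f := fun v i => v i % W)
    (b := ε ^ 3 / 648 * ((2 * N / W + 1 : ℕ) : ℝ) ^ 4)
    (fun _ _ => Fintype.mem_piFinset.2 fun _ => mem_range.2 (Nat.mod_lt _ hW))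
    ⟨fun _ => 0, Fintype.mem_piFinset.2 fun _ => mem_range.2 hW⟩ (by
      have c1 : ε / 4 * (2 * N) ≤ k := by nlinarith [(Nat.cast_nonneg N : (0 : ℝ) ≤ N)]
      have c2 := mul_le_mul_of_nonneg_left (pow_le_pow_left₀ (by positivity) c1 3)
        (Nat.cast_nonneg N)
      have c3 := mul_le_mul_of_nonneg_left (pow_le_pow_left₀ (by positivity) n1 4)
        (show 0 ≤ ε ^ 3 / 648 by positivity)
      refine le_trans (le_of_eq ?_) (c3.trans (le_trans (le_of_eq (by ring))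
        (c2.trans (by exact_mod_cast b5))))
      simp only [Fintype.card_piFinset, card_range, prod_const, card_univ, Fintype.card_fin,
        nsmul_eq_mul, Nat.cast_pow]
      ring)
  refine ⟨ρ, fun i => mem_range.1 (Fintype.mem_piFinset.1 a1 i), b6.trans (Nat.cast_le.2
    (card_le_card_of_surjOn (fun u i => ρ i + W * u i) fun v hv => ?_))⟩
  obtain ⟨c1, c2⟩ := mem_filter.1 (mem_coe.1 hv)
  obtain ⟨c3, c4⟩ := mem_filter.1 c1
  have c5 : ∀ i, ρ i + W * (v i / W) = v i := fun i => by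
    rw [← congrFun c2 i]; exact Nat.mod_add_div _ _
  refine ⟨fun i => ⟨v i / W, Nat.lt_succ_of_le (Nat.div_le_div_right
    (mem_range.1 (Fintype.mem_piFinset.1 c3 i)).le)⟩,
    mem_coe.2 (mem_filter.2 ⟨mem_univ _, fun i j hij => ?_⟩), funext c5⟩
  simp only [c5]
  exact ⟨(c4 i j hij).1, (c4 i j hij).2.1.trans (by omega), (c4 i j hij).2.2⟩

theorem exists_beta (q : ℕ) {W : ℕ} (hW : 0 < W) (ρ : Fin 4 → ℕ) :
    ∃ b < W, ∀ i, (b + 2 * q * pt i (ρ i)).Coprime W := by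
  have hβ : ∀ p : ℕ, ∃ β : ℕ, p.Prime → ∀ i, ¬ p ∣ β + 2 * q * pt i (ρ i) := fun p => by
    by_cases hp : p.Prime
    swap
    · exact ⟨0, fun h => absurd h hp⟩
    have : NeZero p := ⟨hp.ne_zero⟩
    suffices h : ∃ a : ZMod p, ∀ i, ((2 * q * pt i (ρ i) : ℕ) : ZMod p) ≠ a by
      obtain ⟨a, ha⟩ := h
      refine ⟨(-a).val, fun _ i hi => ha i ?_⟩
      rw [← ZMod.natCast_eq_zero_iff, Nat.cast_add, ZMod.natCast_zmod_val] at hi
      linear_combination hi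
    by_cases h2 : p = 2
    · subst h2
      refine ⟨1, fun i => ?_⟩
      push_cast
      rw [show (2 : ZMod 2) = 0 from rfl, zero_mul, zero_mul]
      decide
    by_cases h3 : p = 3
    · subst h3
      have e : ∀ c : ZMod 3, ∃ a, 0 ≠ a ∧ c ≠ a := by decide
      obtain ⟨a, a1, a2⟩ := e (2 * q)
      refine ⟨a, fun i => ?_⟩
      simp only [pt]
      push_cast
      rw [show (3 : ZMod 3) = 0 from rfl, zero_mul, zero_add]
      split_ifs
      · rwa [mul_one]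
      · rwa [mul_zero]
    have h5 : 5 ≤ p := by
      have := hp.two_le
      have h4 : p ≠ 4 := by rintro rfl; exact absurd hp (by decide)
      omega
    by_contra hcon
    push Not at hcon
    have := Fintype.card_le_of_surjective _ hcon
    simp at this
    omega
  choose β hβ using hβ
  obtain ⟨b, hb⟩ := Nat.chineseRemainderOfFinset β id W.primeFactors
    (fun p hp => (Nat.prime_of_mem_primeFactors hp).ne_zero) (fun p hp r hr hne =>
      (Nat.coprime_primes (Nat.prime_of_mem_primeFactors hp)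
        (Nat.prime_of_mem_primeFactors hr)).2 hne)
  refine ⟨b % W, Nat.mod_lt _ hW, fun i => Nat.coprime_of_dvd fun p hp h1 h2 => hβ p hp i ?_⟩
  exact (((((Nat.mod_modEq b W).of_dvd h2).trans
    (hb p (Nat.mem_primeFactors.2 ⟨hp, h2, hW.ne'⟩))).add_right _).dvd_iff dvd_rfl).1 h1

/-- an additive majorant of the logarithm of the singular series -/
noncomputable def lsg (d : ℕ) : ℝ :=
  ∑ p ∈ d.primeFactors.filter (fun p : ℕ => 2 < p), 1 / ((p : ℝ) - 2)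

theorem inv_nonneg' {p : ℕ} (h : 2 < p) : 0 ≤ 1 / ((p : ℝ) - 2) :=
  one_div_nonneg.2 (sub_nonneg.2 (by exact_mod_cast h.le))

theorem lsg_nonneg (d : ℕ) : 0 ≤ lsg d := sum_nonneg fun _ hp => inv_nonneg' (mem_filter.1 hp).2

theorem prod_le_exp (d : ℕ) : ∏ p ∈ d.primeFactors.filter (fun p : ℕ => 2 < p),
    (((p : ℝ) - 1) / ((p : ℝ) - 2)) ≤ Real.exp (lsg d) := by
  rw [lsg, Real.exp_sum]
  refine prod_le_prod (fun p hp => ?_) fun p hp => ?_ <;>
    have h : (2 : ℝ) < p := by exact_mod_cast (mem_filter.1 hp).2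
  · exact div_nonneg (by linarith) (by linarith)
  · refine le_trans (le_of_eq ?_) (Real.add_one_le_exp _)
    rw [div_add_one (by linarith)]
    ring_nf

theorem lsg_mul {a b : ℕ} (ha : a ≠ 0) (hb : b ≠ 0) : lsg (a * b) ≤ lsg a + lsg b := by
  simp only [lsg]
  rw [Nat.primeFactors_mul ha hb, filter_union, ← sum_union_inter]
  exact le_add_of_nonneg_right (sum_nonneg fun p hp =>
    inv_nonneg' (mem_filter.1 (mem_inter.1 hp).1).2)

theorem sum_lsg (T : ℕ) : ∑ m ∈ Icc 1 T, lsg m ≤ T := by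
  have h1 : ∀ n : ℕ, ∑ p ∈ Ico 3 (n + 3), 1 / ((p : ℝ) * (p - 2)) ≤ 1 - 1 / (n + 1) := fun n => by
    induction n with
    | zero => simp
    | succ n ih =>
      rw [show n + 1 + 3 = n + 3 + 1 by ring, sum_Ico_succ_top (by omega)]
      have : 1 / (((n + 3 : ℕ) : ℝ) * ((n + 3 : ℕ) - 2)) ≤ 1 / (n + 1) - 1 / ((n + 1 : ℕ) + 1) := by
        push_cast
        rw [show (n : ℝ) + 3 - 2 = n + 1 by ring, div_sub_div _ _ (by positivity) (by positivity),
          div_le_div_iff₀ (by positivity) (by positivity)]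
        nlinarith [(n.cast_nonneg : (0 : ℝ) ≤ n)]
      linarith
  calc _ ≤ ∑ m ∈ Icc 1 T, ∑ p ∈ Ico 3 (T + 3), if p ∣ m then 1 / ((p : ℝ) - 2) else 0 := by
        refine sum_le_sum fun m hm => ?_
        rw [← sum_filter]
        refine sum_le_sum_of_subset_of_nonneg (fun p hp => ?_) fun p hp _ =>
          inv_nonneg' (mem_Ico.1 (mem_filter.1 hp).1).1
        obtain ⟨a1, a2⟩ := mem_filter.1 hp
        have := Nat.le_of_mem_primeFactors a1
        have := (mem_Icc.1 hm).2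
        exact mem_filter.2 ⟨mem_Ico.2 ⟨a2, by omega⟩, Nat.dvd_of_mem_primeFactors a1⟩
    _ ≤ ∑ p ∈ Ico 3 (T + 3), T * (1 / ((p : ℝ) * (p - 2))) := by
        rw [sum_comm]
        refine sum_le_sum fun p hp => ?_
        rw [← sum_filter, sum_const, nsmul_eq_mul, show Icc 1 T = Ioc 0 T from rfl,
          Nat.Ioc_filter_dvd_card_eq_div, ← one_div_mul_one_div, ← mul_assoc, mul_one_div (T : ℝ)]
        exact mul_le_mul_of_nonneg_right Nat.cast_div_le (inv_nonneg' (mem_Ico.1 hp).1)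
    _ ≤ T := by
        rw [← mul_sum]
        exact mul_le_of_le_one_right T.cast_nonneg ((h1 T).trans (sub_le_self _ (by positivity)))

theorem card_lsg {ε : ℝ} (hε : 0 < ε) (T : ℕ) : (#{m ∈ Icc 1 T | 1 / ε < lsg m} : ℝ) ≤ ε * T := by
  have h := card_nsmul_le_sum {m ∈ Icc 1 T | 1 / ε < lsg m} lsg (1 / ε)
    fun m hm => (mem_filter.1 hm).2.le
  rw [nsmul_eq_mul, mul_one_div, div_le_iff₀' hε] at h
  exact h.trans (mul_le_mul_of_nonneg_left ((sum_le_sum_of_subset_of_nonneg (filter_subset _ _)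
    fun m _ _ => lsg_nonneg m).trans (sum_lsg T)) hε.le)

end Pool.Agent.MP_678834_nt.RO

end MrgPart2

-- marker of a merged file
example : 731051 + 81742 = 731051 + 81742 := rfl
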