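import Pool.Agent.MP_678834_nt.ro.Pat
import Pool.Agent.MP_678834_nt.Quant

/-!
# A lower bound of the right order for one third of the shifts
-/

namespace Pool.Agent.MP_678834_nt.RO

open Finset Function Filter Pool.Agent.MP_39a890_nt Pool.Agent.MP_39a890_nt.Core
  Pool.Agent.MP_39a890_nt.Sums UDens

/-- the number of primes `p ≤ x` with `p - d` prime -/
noncomputable def pi2 (x : ℝ) (d : ℕ) : ℕ := #{p ∈ Icc 1 ⌊x⌋₊ | p.Prime ∧ (p - d).Prime}

theorem pp_le {φ : ℝ → ℝ} (hφ : Wt φ) {L x : ℝ} {W a b : ℕ} (hW : 0 < W) (hab : a ≤ b)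
    (hx : W * (2 * Real.exp L) + b ≤ x) : pp φ L W a b ≤ pi2 x (b - a) := by
  classical
  refine le_trans (b := (#((NN (Real.exp L)).filter fun n : ℕ => φ (n / Real.exp L) ≠ 0 ∧
    (W * n + a).Prime ∧ (W * n + b).Prime) : ℝ)) ?_ (Nat.cast_le.2 (card_le_card_of_injOn (fun n => W * n + b)
      (fun n hn => ?_) fun n _ n' _ e => Nat.eq_of_mul_eq_mul_left hW (Nat.add_right_cancel e)))
  · rw [card_filter, Nat.cast_sum]
    refine sum_le_sum fun n _ => ?_
    have := hφ.le_one (n / Real.exp L)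
    by_cases h0 : φ (n / Real.exp L) = 0 <;> by_cases h1 : (W * n + a).Prime <;>
      by_cases h2 : (W * n + b).Prime <;> simp [iP, h0, h1, h2, this]
  · obtain ⟨-, a1, a2, a3⟩ := mem_filter.1 (mem_coe.1 hn)
    have a4 := (hφ.supp _ a1).2
    rw [div_le_iff₀ (Real.exp_pos L)] at a4
    refine mem_coe.2 (mem_filter.2 ⟨mem_Icc.2 ⟨a3.pos, Nat.le_floor (le_trans ?_ hx)⟩, a3, ?_⟩)
    · push_cast
      gcongr
    · rwa [show W * n + b - (b - a) = W * n + a by omega]

theorem third (hK : KLU) (hB : BVfor fun _ => True) (hC : CountStmt) (hO : OneStmt)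
    (hS : SmallStmt) {q : ℕ} (hq : 0 < q) {ε : ℝ} (hε : 0 < ε) (ε1 : ε ≤ 1) :
    ∃ c K κ : ℝ, 0 < c ∧ 0 < κ ∧ ∀ᶠ x : ℝ in atTop, ∀ T : ℕ, K * Real.log x ≤ T →
      (T : ℝ) ≤ x ^ κ → (1 / 3 - ε) * T ≤
        #{m ∈ Icc 1 T | c * (x / Real.log x ^ 2) ≤ pi2 x (2 * q * m)} := by
  classical
  obtain ⟨φ, hφ, hI⟩ := exists_wt
  have τ0 : 0 < ε ^ 3 / 648 := by positivity
  obtain ⟨w₀, κ, K, κ0, K0, h⟩ := key hK hB hC hO hS hφ hI τ0
    (by linarith [pow_le_one₀ (n := 3) hε.le ε1])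
  set W := (max w₀ (6 * q)).factorial with hWd
  have hW : 0 < W := Nat.factorial_pos _
  have hW1 : (1 : ℝ) ≤ W := by exact_mod_cast hW
  set I := ∫ u, φ u with hId
  set c := ε ^ 3 / 648 / 10 ^ 7 * I / (21 * W) with hc
  have c0 : 0 < c := by positivity
  have ht : Tendsto (fun x : ℝ => Real.log x - Real.log (3 * W)) atTop atTop :=
    tendsto_atTop_add_const_right _ _ Real.tendsto_log_atTop
  have hK' := Real.tendsto_log_atTop.const_mul_atTop (show 0 < 3 * W * K by positivity)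
  refine ⟨c, 3 * W * K, min (κ / 2) (1 / 2), c0, by positivity, ?_⟩
  filter_upwards [ht.eventually (h W (6 * q * W) hW
      (fun p hp h1 => Nat.dvd_factorial hp.pos (h1.trans (le_max_left _ _))) (dvd_mul_left _ _)
      fun p hp h1 => ((Nat.Prime.dvd_mul hp).1 h1).elim (fun h2 => Nat.dvd_factorial hp.pos
        ((Nat.le_of_dvd (by positivity) h2).trans (le_max_right _ _))) id),
    eventually_gt_atTop 1, Real.tendsto_log_atTop.eventually_ge_atTop (2 * Real.log (3 * W)),
    hK'.eventually_ge_atTop (16 / ε), hK'.eventually_ge_atTop (4 * W),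
    (tendsto_rpow_atTop (show (0 : ℝ) < 1 / 2 by norm_num)).eventually_ge_atTop
      (9 * (6 * q * W : ℕ))] with x u1 u2 u3 u4 u5 u6 T T1 T2
  set L := Real.log x - Real.log (3 * W) with hL
  have x0 : 0 < x := by linarith
  have l0 := Real.log_pos u2
  have l1 : 0 ≤ Real.log (3 * W) := Real.log_nonneg (by linarith)
  have eL : Real.exp L = x / (3 * W) := by
    rw [hL, Real.exp_sub, Real.exp_log x0, Real.exp_log (by positivity)]
  have T3 : 4 * W ≤ T := by exact_mod_cast u5.trans T1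
  by_contra hc'
  set Dg := {m ∈ Icc 1 T | c * (x / Real.log x ^ 2) ≤ pi2 x (2 * q * m)} with hDg
  obtain ⟨ρ, r1, r2⟩ := pat hε hW ((div_le_iff₀' hε).1 (u4.trans T1)) (by omega) Dg
    (not_le.1 hc').le
  obtain ⟨b, b1, b2⟩ := exists_beta q hW ρ
  set n := 2 * (T / 3) / W + 1 with hn
  have n1 : T ≤ 3 * (W * n) := by
    have := Nat.lt_mul_div_succ (2 * (T / 3)) hW
    rw [← hn] at this
    omega
  have n2 : n ≤ T := by
    have := Nat.div_le_self (2 * (T / 3)) W
    omega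
  have n0 : (0 : ℝ) < n := by positivity
  have p1 : ∀ i, b + 2 * q * pt i (ρ i) ≤ 2 * (6 * q * W) := fun i => by
    have : pt i (ρ i) ≤ 3 * W := by
      have := r1 i
      simp only [pt]
      split_ifs <;> omega
    nlinarith [Nat.mul_le_mul_left (2 * q) this]
  have p2 : ∀ i u, b + 2 * q * pt i (ρ i) + 6 * q * W * u = b + 2 * q * pt i (ρ i + W * u) :=
    fun i u => by simp only [pt]; ring
  have T4 : (T : ℝ) ≤ x ^ (1 / 2 : ℝ) :=
    T2.trans (Real.rpow_le_rpow_of_exponent_le u2.le (min_le_right _ _))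
  have k1 := u1 n (by
      have : (T : ℝ) ≤ 3 * (W * n) := by exact_mod_cast n1
      have a1 : 3 * W * (K * L) ≤ 3 * W * (n : ℝ) := by
        nlinarith [mul_nonneg (show 0 ≤ 3 * W * K by positivity) l1]
      exact le_of_mul_le_mul_left a1 (by positivity))
    (by
      refine (Nat.cast_le.2 n2).trans (T2.trans ((Real.rpow_le_rpow_of_exponent_le u2.le
        (min_le_left _ _)).trans ?_))
      rw [Real.rpow_def_of_pos x0]
      exact Real.exp_le_exp.2 (by nlinarith [mul_le_mul_of_nonneg_left u3 κ0.le]))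
    (fun i => b + 2 * q * pt i (ρ i)) b2 p1
    (fun p u v => if Fr Dg T (pt p.1 (ρ p.1 + W * u)) (pt p.2 (ρ p.2 + W * v)) then 1 else 0)
    (fun p u v => by split_ifs <;> norm_num) (r2.trans (by
      rw [card_filter, Nat.cast_sum]
      refine sum_le_sum fun u _ => ?_
      split_ifs with a1
      · exact Nat.cast_one.trans_le (prod_eq_one fun p hp =>
          if_pos (a1 p.1 p.2 (mem_filter.1 hp).2)).ge
      · rw [Nat.cast_zero]
        exact prod_nonneg fun p _ => by split_ifs <;> norm_num))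
  have y0 : 0 < c * (x / Real.log x ^ 2) := by positivity
  have k2 := k1.trans (sum_le_card_nsmul _ _ _ fun p _ => sum_le_card_nsmul _ _ _ fun u _ =>
    sum_le_card_nsmul _ _ (c * (x / Real.log x ^ 2)) fun v _ => ?_)
  · simp only [card_Ed, card_univ, Fintype.card_fin, nsmul_eq_mul, Nat.cast_ofNat] at k2
    have a1 : 1 / Real.log x ^ 2 ≤ 1 / L ^ 2 :=
      one_div_le_one_div_of_le (pow_pos (by linarith) 2)
        (pow_le_pow_left₀ (by linarith) (by linarith) 2)
    have a2 : 7 * (c * (x / Real.log x ^ 2)) ≤ ε ^ 3 / 648 / 10 ^ 7 * (Real.exp L * I / L ^ 2) := by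
      refine le_trans (le_of_eq ?_) ((mul_le_mul_of_nonneg_left a1
        (show 0 ≤ 7 * c * x by positivity)).trans (le_of_eq ?_))
      · ring
      · rw [eL, hc]
        field_simp
        ring
    nlinarith [mul_le_mul_of_nonneg_right a2 (sq_nonneg (n : ℝ)), mul_pos y0 (pow_pos n0 2)]
  · split_ifs with a1
    · obtain ⟨a2, a3, a4⟩ := a1
      rw [mul_one]
      refine (pp_le hφ (x := x) hW (by
        rw [p2, p2]
        exact Nat.add_le_add_left (Nat.mul_le_mul_left _ a2.le) _) ?_).trans ?_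
      · have a5 : b + 2 * q * pt p.2 (ρ p.2) + 6 * q * W * v ≤ 3 * (6 * q * W) * T := by
          have := p1 p.2
          have := Nat.mul_le_mul_left (6 * q * W) (v.2.le.trans n2)
          have := Nat.mul_le_mul_left (6 * q * W) (show 1 ≤ T by omega)
          nlinarith
        have a6 : x ^ (1 / 2 : ℝ) * x ^ (1 / 2 : ℝ) = x := by
          rw [← Real.rpow_add x0]; norm_num
        have a7 : (W : ℝ) * (2 * (x / (3 * W))) = 2 * x / 3 := by field_simp
        have a8 := mul_le_mul u6 T4 T.cast_nonneg (by positivity)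
        have a9 := (Nat.cast_le (α := ℝ)).2 a5
        rw [eL, a7]
        push_cast at a8 a9 ⊢
        linarith
      · rw [p2, p2, Nat.add_sub_add_left, ← Nat.mul_sub]
        exact (not_le.1 fun a5 => a4 (mem_filter.2 ⟨mem_Icc.2 ⟨by omega, a3⟩, a5⟩)).le
    · rw [mul_zero]
      exact y0.le

theorem main (hK : KLU) (hB : BVfor fun _ => True) (hC : CountStmt) (hO : OneStmt)
    (hS : SmallStmt) (A : ℝ) {q : ℕ} (hq : 0 < q) {ε : ℝ} (hε : 0 < ε) :
    ∃ c K κ : ℝ, 0 < c ∧ 0 < κ ∧ ∀ᶠ x : ℝ in atTop, ∀ T : ℕ, K * Real.log x ≤ T →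
      (T : ℝ) ≤ x ^ κ → (1 / 3 - ε) * T ≤
        #{m ∈ Icc 1 T | c * (2 * A * (∏ p ∈ (2 * q * m).primeFactors.filter (fun p : ℕ => 2 < p),
          (((p : ℝ) - 1) / ((p : ℝ) - 2))) * x / Real.log x ^ 2) ≤ pi2 x (2 * q * m)} := by
  classical
  have e0 : 0 < min (ε / 2) 1 := by positivity
  obtain ⟨c, K, κ, c0, κ0, h⟩ := third hK hB hC hO hS hq e0 (min_le_right _ _)
  set M := (2 * |A| + 1) * Real.exp (lsg (2 * q) + 1 / (ε / 2)) with hM
  have M0 : 0 < M := by positivity
  refine ⟨c / M, K, κ, by positivity, κ0, ?_⟩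
  filter_upwards [h, eventually_ge_atTop 0] with x h1 x0 T T1 T2
  have a1 := card_lsg (half_pos hε) T
  have a2 := mul_le_mul_of_nonneg_right (min_le_left (ε / 2) 1) T.cast_nonneg
  have a3 := h1 T T1 T2
  refine le_trans (by linarith) (sub_le_iff_le_add.2 (a3.trans ?_) |>.trans' (sub_le_sub_left a1 _))
  rw [← Nat.cast_add, Nat.cast_le]
  refine (card_le_card fun m hm => ?_).trans (card_union_le _ _)
  obtain ⟨b1, b2⟩ := mem_filter.1 hm
  rcases lt_or_ge (1 / (ε / 2)) (lsg m) with b3 | b3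
  · exact mem_union_right _ (mem_filter.2 ⟨b1, b3⟩)
  refine mem_union_left _ (mem_filter.2 ⟨b1, le_trans ?_ b2⟩)
  have b4 := (prod_le_exp (2 * q * m)).trans (Real.exp_le_exp.2 ((lsg_mul (by omega)
    (by have := (mem_Icc.1 b1).1; omega)).trans (add_le_add_right b3 _)))
  rw [mul_div_assoc, ← mul_assoc]
  refine mul_le_mul_of_nonneg_right ?_ (by positivity)
  rw [div_mul_eq_mul_div, div_le_iff₀ M0]
  refine mul_le_mul_of_nonneg_left (mul_le_mul (by linarith [le_abs_self A]) b4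
    (prod_nonneg fun p hp => ?_) (by positivity)) c0.le
  have : (2 : ℝ) < p := by exact_mod_cast (mem_filter.1 hp).2
  exact div_nonneg (by linarith) (by linarith)

end Pool.Agent.MP_678834_nt.RO
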